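import Pool.Agent.Work.MP_196328_ag.Sphere

set_option autoImplicit false

namespace Pool.Agent.Work.MP_196328_ag

noncomputable section

theorem lc_bd_single (k : Type*) [Field k] (X : Type*) [TopologicalSpace X] (i : ℕ)
    (φ : SingSimplex X i → k) (σ : SingSimplex X (i + 1)) :
    Finsupp.linearCombination k φ (bd k (i + 1) (Finsupp.single σ 1)) = coboundary φ σ := by
  rw [bd_single, map_sum]
  change _ = ∑ j : Fin (i + 2), (-1 : k) ^ (j : ℕ) * φ (σ.comp (face j))
  apply Finset.sum_congr rfl
  intro j _
  rw [map_smul, Finsupp.linearCombination_single, one_smul, smul_eq_mul]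

theorem cohomologyVanishes_of_vanS (k : Type*) [Field k] (X : Type*) [TopologicalSpace X] (i : ℕ)
    (h : VanS k X (i + 2)) : CohomologyVanishes k X (i + 1) := by
  intro φ hφ
  have hL : (Finsupp.linearCombination k φ) ∘ₗ (bd k (i + 2)) =
      (0 : Ch k X (i + 3) →ₗ[k] k) := by
    apply ch_ext
    intro σ
    rw [LinearMap.comp_apply, lc_bd_single, hφ]
    rfl
  have hann : (Finsupp.linearCombination k φ : Ch k X (i + 2) →ₗ[k] k) ∈
      (LinearMap.ker (bd k (X := X) (i + 1))).dualAnnihilator := by
    rw [Submodule.mem_dualAnnihilator]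
    intro z hz
    obtain ⟨w, hw⟩ := h z hz
    rw [← hw]
    exact LinearMap.congr_fun hL w
  rw [← LinearMap.range_dualMap_eq_dualAnnihilator_ker] at hann
  obtain ⟨ψ, hψ⟩ := hann
  refine ⟨fun τ => ψ (Finsupp.single τ 1), ?_⟩
  funext σ
  rw [← lc_bd_single]
  have e : Finsupp.linearCombination k (fun τ => ψ (Finsupp.single τ 1)) = ψ := by
    apply ch_ext
    intro τ
    rw [Finsupp.linearCombination_single, one_smul]
  rw [e]
  have := LinearMap.congr_fun hψ (Finsupp.single σ 1)
  rw [LinearMap.dualMap_apply, Finsupp.linearCombination_single, one_smul] at this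
  exact this

end

end Pool.Agent.Work.MP_196328_ag
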