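import Pool.Agent.Work.MP_196328_ag.VanRN
import Pool.Agent.Work.MP_196328_ag.Coh

set_option autoImplicit false

namespace Pool.Agent.Work.MP_196328_ag

noncomputable section

open Matrix Topology ComplexOrder

section
variable {n : ℕ}

abbrev Tot (n : ℕ) := Frame n × Frame n × Pencil n

theorem orbitRel_equiv : Equivalence (OrbitRel n) := by
  refine ⟨?_, ?_, ?_⟩
  · intro x
    refine ⟨1, 1, ?_, ?_, ?_, ?_⟩ <;> simp
  · rintro x y ⟨g, h, h1, h2, h3, h4⟩
    refine ⟨g⁻¹, h⁻¹, ?_, ?_, ?_, ?_⟩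
    · rw [h1, mul_frame, ← Units.val_mul, inv_mul_cancel, Units.val_one, Matrix.one_mul]
    · rw [h2, mul_frame, ← Units.val_mul, inv_mul_cancel, Units.val_one, Matrix.one_mul]
    · rw [h3, inv_inv, Matrix.mul_assoc, Matrix.mul_assoc, Matrix.mul_assoc, ← Units.val_mul,
        inv_mul_cancel, Units.val_one, Matrix.mul_one, ← Matrix.mul_assoc, ← Units.val_mul,
        inv_mul_cancel, Units.val_one, Matrix.one_mul]
    · rw [h4, inv_inv, Matrix.mul_assoc, Matrix.mul_assoc, Matrix.mul_assoc, ← Units.val_mul,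
        inv_mul_cancel, Units.val_one, Matrix.mul_one, ← Matrix.mul_assoc, ← Units.val_mul,
        inv_mul_cancel, Units.val_one, Matrix.one_mul]
  · rintro x y z ⟨g, h, h1, h2, h3, h4⟩ ⟨g', h', k1, k2, k3, k4⟩
    refine ⟨g' * g, h' * h, ?_, ?_, ?_, ?_⟩
    · rw [k1, h1, mul_frame, ← Units.val_mul]
    · rw [k2, h2, mul_frame, ← Units.val_mul]
    · rw [k3, h3, _root_.mul_inv_rev, Units.val_mul, Units.val_mul]
      simp only [Matrix.mul_assoc]
    · rw [k4, h4, _root_.mul_inv_rev, Units.val_mul, Units.val_mul]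
      simp only [Matrix.mul_assoc]

theorem orbitRel_exact {x y : Tot n} (h : Quot.mk (OrbitRel n) x = Quot.mk (OrbitRel n) y) :
    OrbitRel n x y := by
  have := Quot.eqvGen_exact h
  rwa [orbitRel_equiv.eqvGen_iff] at this

/-- The first `N` columns of a frame. -/
def cols (N : ℕ) (H : Matrix (Fin n) ℕ ℂ) : Matrix (Fin n) (Fin N) ℂ :=
  H.submatrix id (fun m => (m : ℕ))

/-- The first `N` columns span. -/
def Spn (N : ℕ) (H : Matrix (Fin n) ℕ ℂ) : Prop :=
  ∀ ξ : Fin n → ℂ, ξ ᵥ* cols N H = 0 → ξ = 0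

theorem cols_mul (N : ℕ) (h : Matrix (Fin n) (Fin n) ℂ) (H : Matrix (Fin n) ℕ ℂ) :
    cols N (h * H) = h * cols N H := rfl

theorem spn_iff (N : ℕ) (H : Matrix (Fin n) ℕ ℂ) :
    Spn N H ↔ (cols N H * (cols N H)ᴴ).det ≠ 0 := by
  constructor
  · intro hs h0
    obtain ⟨ξ, hξ, h1⟩ := Matrix.exists_vecMul_eq_zero_iff.2 h0
    rw [Matrix.vecMul_self_mul_conjTranspose_eq_zero] at h1
    exact hξ (hs ξ h1)
  · intro hdet ξ hξ
    by_contra hne
    apply hdet
    rw [← Matrix.exists_vecMul_eq_zero_iff]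
    refine ⟨ξ, hne, ?_⟩
    rw [← Matrix.vecMul_vecMul, hξ, Matrix.zero_vecMul]

theorem spn_mono {N N' : ℕ} (hN : N ≤ N') {H : Matrix (Fin n) ℕ ℂ} (h : Spn N H) :
    Spn N' H := by
  intro ξ hξ
  apply h
  funext m
  exact congrFun hξ ⟨m, lt_of_lt_of_le m.2 hN⟩

theorem spn_exists (H : Frame n) : ∃ N, Spn N H.1 := by
  -- the kernels decrease to zero
  let K : ℕ → Submodule ℂ (Fin n → ℂ) := fun N => LinearMap.ker (cols N H.1).vecMulLinear
  have hanti : Antitone K := by
    intro N N' hN ξ hξ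
    rw [LinearMap.mem_ker] at hξ ⊢
    funext m
    exact congrFun hξ ⟨m, lt_of_lt_of_le m.2 hN⟩
  obtain ⟨N, hN⟩ := IsArtinian.monotone_stabilizes (R := ℂ) (M := Fin n → ℂ)
    ⟨fun N => OrderDual.toDual (K N), fun N N' h => hanti h⟩
  refine ⟨N, ?_⟩
  intro ξ hξ
  apply (li_iff H.1).1 H.2
  funext m
  have h1 : ξ ∈ K N := hξ
  have h2 : K N = K (max N (m + 1)) := by
    have := hN (max N (m + 1)) (le_max_left _ _)
    exact this
  rw [h2] at h1
  have h3 : m < max N (m + 1) := lt_of_lt_of_le (Nat.lt_succ_self m) (le_max_right _ _)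
  exact congrFun (LinearMap.mem_ker.1 h1) ⟨m, h3⟩

theorem spn_mul {N : ℕ} {H : Matrix (Fin n) ℕ ℂ} (hs : Spn N H) (h : GL (Fin n) ℂ) :
    Spn N ((h : Matrix (Fin n) (Fin n) ℂ) * H) := by
  intro ξ hξ
  rw [cols_mul, ← Matrix.vecMul_vecMul] at hξ
  have h1 := hs _ hξ
  have hhi' : (h : Matrix (Fin n) (Fin n) ℂ) * ((h⁻¹ : GL (Fin n) ℂ) : Matrix (Fin n) (Fin n) ℂ) =
      1 := by
    rw [← Units.val_mul, mul_inv_cancel, Units.val_one]
  calc ξ = (ξ ᵥ* (h : Matrix (Fin n) (Fin n) ℂ)) ᵥ*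
        ((h⁻¹ : GL (Fin n) ℂ) : Matrix (Fin n) (Fin n) ℂ) := by
          rw [Matrix.vecMul_vecMul, hhi', Matrix.vecMul_one]
    _ = 0 := by rw [h1, Matrix.zero_vecMul]

/-- The part of the homotopy quotient where the first `N` columns span. -/
def MN (n N : ℕ) : Set (TorsionStack n) := {x | ∃ y : Tot n, Quot.mk _ y = x ∧ Spn N y.2.1.1}

theorem mem_MN {N : ℕ} (y : Tot n) :
    (Quot.mk (OrbitRel n) y : TorsionStack n) ∈ MN n N ↔ Spn N y.2.1.1 := by
  constructor
  · rintro ⟨y', h1, h2⟩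
    obtain ⟨g, h, -, h4, -, -⟩ := orbitRel_exact h1
    rw [h4]
    exact spn_mul h2 h
  · intro h
    exact ⟨y, rfl, h⟩

theorem isOpen_MN (N : ℕ) : IsOpen (MN n N) := by
  rw [← isQuotientMap_quot_mk.isOpen_preimage]
  have : (Quot.mk (OrbitRel n)) ⁻¹' (MN n N) =
      {y : Tot n | (cols N y.2.1.1 * (cols N y.2.1.1)ᴴ).det ≠ 0} := by
    ext y
    rw [Set.mem_preimage, mem_MN, spn_iff]
    rfl
  rw [this]
  have c1 : Continuous (fun y : Tot n => cols N y.2.1.1) := by
    have : Continuous (fun y : Tot n => y.2.1.1) :=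
      continuous_subtype_val.comp (continuous_fst.comp continuous_snd)
    exact this.matrix_submatrix _ _
  exact isOpen_ne.preimage (c1.matrix_mul c1.matrix_conjTranspose).matrix_det

theorem MN_mono {N N' : ℕ} (h : N ≤ N') : MN n N ⊆ MN n N' := by
  rintro x ⟨y, h1, h2⟩
  exact ⟨y, h1, spn_mono h h2⟩

theorem MN_cover (x : TorsionStack n) : ∃ N, x ∈ MN n N := by
  induction x using Quot.inductionOn with
  | _ y =>
    obtain ⟨N, hN⟩ := spn_exists y.2.1
    exact ⟨N, y, rfl, hN⟩

/-- Forgetting the vectors. -/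
def projY (N : ℕ) (y : YN N n) : Tot n :=
  (y.1, y.2.1, ⟨(y.2.2.1.1, y.2.2.1.2.1), y.2.2.2.1⟩)

theorem continuous_projY (N : ℕ) : Continuous (projY (n := n) N) := by
  apply Continuous.prodMk continuous_fst
  apply Continuous.prodMk (continuous_fst.comp continuous_snd)
  apply Continuous.subtype_mk
  have : Continuous (fun y : YN N n => y.2.2.1) :=
    continuous_subtype_val.comp (continuous_snd.comp continuous_snd)
  exact (continuous_fst.comp this).prodMk (continuous_fst.comp (continuous_snd.comp this))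

def projR (N : ℕ) : C(RN N n, TorsionStack n) where
  toFun := Quotient.lift (fun y => Quot.mk (OrbitRel n) (projY N y)) (by
    rintro x y ⟨g, h, h1, h2, h3, h4, -⟩
    exact Quot.sound ⟨g, h, h1, h2, h3, h4⟩)
  continuous_toFun := (continuous_quot_mk.comp (continuous_projY N)).quotient_lift _

/-- The columns of the second frame as generating vectors. -/
def secY (N : ℕ) (y : {y : Tot n // Spn N y.2.1.1}) : YN N n :=
  (y.1.1, y.1.2.1, ⟨(y.1.2.2.1.1, y.1.2.2.1.2, cols N y.1.2.1.1), y.1.2.2.2,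
    fun _ _ _ _ hξ _ h0 => hξ (y.2 _ h0)⟩)

theorem continuous_secY (N : ℕ) : Continuous (secY (n := n) N) := by
  have c0 : Continuous (fun y : {y : Tot n // Spn N y.2.1.1} => y.1) := continuous_subtype_val
  apply Continuous.prodMk (continuous_fst.comp c0)
  apply Continuous.prodMk (continuous_fst.comp (continuous_snd.comp c0))
  apply Continuous.subtype_mk
  have c1 : Continuous (fun y : {y : Tot n // Spn N y.2.1.1} => y.1.2.2.1) :=
    continuous_subtype_val.comp (continuous_snd.comp (continuous_snd.comp c0))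
  have c2 : Continuous (fun y : {y : Tot n // Spn N y.2.1.1} => y.1.2.1.1) :=
    continuous_subtype_val.comp (continuous_fst.comp (continuous_snd.comp c0))
  exact (continuous_fst.comp c1).prodMk ((continuous_snd.comp c1).prodMk
    (c2.matrix_submatrix _ _))

theorem exists_section (N : ℕ) :
    ∃ s : C(MN n N, RN N n), ∀ x : MN n N, projR N (s x) = x.1 := by
  have hq0 : IsQuotientMap ((MN n N).restrictPreimage (Quot.mk (OrbitRel n))) :=
    isQuotientMap_quot_mk.restrictPreimage_isOpen (isOpen_MN N)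
  let q : C((Quot.mk (OrbitRel n)) ⁻¹' (MN n N), MN n N) := ⟨_, hq0.continuous⟩
  have hq : IsQuotientMap q := hq0
  let f : C((Quot.mk (OrbitRel n)) ⁻¹' (MN n N), RN N n) :=
    ⟨fun y => Quotient.mk (stN N n) (secY N ⟨y.1, (mem_MN y.1).1 y.2⟩), by
      apply continuous_quotient_mk'.comp
      apply (continuous_secY N).comp
      exact continuous_subtype_val.subtype_mk _⟩
  have hf : Function.FactorsThrough f q := by
    intro y y' hyy
    have h1 : OrbitRel n y.1 y'.1 := orbitRel_exact (congrArg Subtype.val hyy)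
    obtain ⟨g, h, h2, h3, h4, h5⟩ := h1
    apply Quotient.sound
    refine ⟨g, h, h2, h3, h4, h5, ?_⟩
    change cols N y'.1.2.1.1 = _ * cols N y.1.2.1.1
    rw [h3, cols_mul]
  refine ⟨hq.lift f hf, ?_⟩
  intro x
  obtain ⟨y, rfl⟩ := hq.surjective x
  have h1 : hq.lift f hf (q y) = f y := by
    have := hq.lift_comp f hf
    exact DFunLike.congr_fun this y
  rw [h1]
  rfl

theorem exists_sup (k : Type*) [CommRing k] (m : ℕ) (z : Ch k (TorsionStack n) m) :
    ∃ N, z ∈ Sup k (MN n N) m := by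
  induction z using Finsupp.induction_linear with
  | zero => exact ⟨0, Submodule.zero_mem _⟩
  | add x y hx hy =>
    obtain ⟨N1, h1⟩ := hx
    obtain ⟨N2, h2⟩ := hy
    exact ⟨max N1 N2, Submodule.add_mem _ (Sup_mono k (MN_mono (le_max_left _ _)) _ h1)
      (Sup_mono k (MN_mono (le_max_right _ _)) _ h2)⟩
  | single σ r =>
    have hK : IsCompact (Set.range σ) := isCompact_range σ.continuous
    obtain ⟨N, hN⟩ := hK.elim_directed_cover (fun N => MN n N) (fun N => isOpen_MN N)
      (by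
        intro x _
        rw [Set.mem_iUnion]
        exact MN_cover x)
      (directed_of_isDirected_le (fun N N' h => MN_mono h))
    refine ⟨N, ?_⟩
    have : Finsupp.single σ r = r • Finsupp.single σ (1 : k) := by simp
    rw [this]
    exact Submodule.smul_mem _ _ (single_mem_Sup k hN)

/-- Odd homology of the homotopy quotient vanishes. -/
theorem van_stack (k : Type*) [CommRing k] (n m : ℕ) (hm : Odd m) :
    VanS k (TorsionStack n) (m + 1) := by
  intro z hz
  obtain ⟨N, hN⟩ := exists_sup k (m + 1) z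
  have hemb : IsEmbedding (Subtype.val : MN n N → TorsionStack n) := IsEmbedding.subtypeVal
  have hN' : z ∈ Sup k (Set.range (Subtype.val : MN n N → TorsionStack n)) (m + 1) := by
    rw [Subtype.range_coe]
    exact hN
  obtain ⟨z', hz'⟩ := lift_Sup k Subtype.val hemb z hN'
  have hc' : IsCyc k (m + 1) z' := by
    change bd k m z = 0 at hz
    change bd k m z' = 0
    apply chMap_injective k ⟨Subtype.val, hemb.continuous⟩ hemb.injective
    rw [chMap_bd, hz', hz, map_zero]
  obtain ⟨s, hs⟩ := exists_section (n := n) N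
  obtain ⟨w, hw⟩ := van_RN (N := N) (n := n) k m hm _ (isCyc_chMap k s (m + 1) z' hc')
  refine ⟨chMap k (projR N) (m + 2) w, ?_⟩
  rw [← chMap_bd, hw, ← chMap_comp]
  have : (projR N).comp s = ⟨Subtype.val, hemb.continuous⟩ := by
    ext x
    exact hs x
  rw [this, hz']

/-- Odd singular cohomology of the homotopy quotient vanishes. -/
theorem main (k : Type*) [Field k] (n i : ℕ) (hi : Odd i) :
    CohomologyVanishes k (TorsionStack n) i := by
  obtain ⟨j, rfl⟩ : ∃ j, i = j + 1 := by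
    obtain ⟨l, hl⟩ := hi
    exact ⟨2 * l, hl⟩
  exact cohomologyVanishes_of_vanS k _ j (van_stack k n (j + 1) hi)

end

end

end Pool.Agent.Work.MP_196328_ag
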