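import Pool.Agent.Work.MP_196328_ag.Comp

set_option autoImplicit false

namespace Pool.Agent.Work.MP_196328_ag

noncomputable section

section
variable {N : ℕ} (a b : Fin N → ℕ)

/-- Coordinates of the chart. -/
abbrev Kx := (Fin N × Ix a) ⊕ (Fin N × Ix b)

variable {a b}

def cpart (ω : Kx a b → ℂ) : Fin N → Ix a → ℂ := fun i y => ω (Sum.inl (i, y))

def dpart (ω : Kx a b → ℂ) : Fin N → Ix b → ℂ := fun i y => ω (Sum.inr (i, y))

theorem ext_parts {ω ω' : Kx a b → ℂ} (h1 : cpart ω = cpart ω') (h2 : dpart ω = dpart ω') :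
    ω = ω' := by
  funext x
  rcases x with ⟨i, y⟩ | ⟨i, y⟩
  · exact congrFun (congrFun h1 i) y
  · exact congrFun (congrFun h2 i) y

def stdA (ω : Kx a b → ℂ) : Matrix (Ix a ⊕ Ix b) (Ix a ⊕ Ix b) ℂ :=
  pA (Ix b) (cmp a (cpart ω))

def stdB (ω : Kx a b → ℂ) : Matrix (Ix a ⊕ Ix b) (Ix a ⊕ Ix b) ℂ :=
  pB (Ix a) (cmp b (dpart ω))

def stdV (ω : Kx a b → ℂ) : Matrix (Ix a ⊕ Ix b) (Fin N) ℂ :=
  Matrix.fromRows (cvec a (cpart ω)) (cvec b (dpart ω))

/-- The domain of the chart. -/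
def Dom (n : ℕ) (ω : Kx a b → ℂ) : Prop :=
  nrm ((cmp a (cpart ω)) ^ n) * nrm ((cmp b (dpart ω)) ^ n) < 1

theorem blocks {I J I' J' : Type*} (h : Matrix (I' ⊕ J') (I ⊕ J) ℂ) :
    ∃ h1 h2 h3 h4, h = Matrix.fromBlocks h1 h2 h3 h4 :=
  ⟨_, _, _, _, (Matrix.fromBlocks_toBlocks h).symm⟩

theorem std_inj {n : ℕ} {ω ω' : Kx a b → ℂ} (hω : Dom n ω) (hω' : Dom n ω')
    (h g : Matrix (Ix a ⊕ Ix b) (Ix a ⊕ Ix b) ℂ) (hdet : h.det ≠ 0)
    (hA : h * stdA ω = stdA ω' * g) (hB : h * stdB ω = stdB ω' * g)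
    (hV : h * stdV ω = stdV ω') : h = 1 ∧ g = 1 ∧ ω' = ω := by
  obtain ⟨h1, h2, h3, h4, rfl⟩ := blocks h
  obtain ⟨g1, g2, g3, g4, rfl⟩ := blocks g
  obtain ⟨e1, e4, e2, e3, f1, f4, f2, f3⟩ := block_eqs h1 h2 h3 h4 g1 g2 g3 g4 _ _ _ _ hA hB
  rw [stdV, stdV, Matrix.fromBlocks_mul_fromRows] at hV
  obtain ⟨v1, v2⟩ := Matrix.fromRows_inj hV
  set Z := cmp a (cpart ω) with hZ
  set W := cmp b (dpart ω) with hW
  set Z' := cmp a (cpart ω') with hZ'
  set W' := cmp b (dpart ω') with hW'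
  have hd1 : nrm (Z ^ n) * nrm (W ^ n) < 1 := hω
  have hd2 : nrm (Z' ^ n) * nrm (W' ^ n) < 1 := hω'
  -- one of the off-diagonal blocks vanishes
  have hor : h2 = 0 ∨ h3 = 0 := by
    by_contra hne
    push Not at hne
    have p2 : 0 < nrm h2 := lt_of_not_ge (fun hh => hne.1 (eq_zero_of_nrm _ hh))
    have p3 : 0 < nrm h3 := lt_of_not_ge (fun hh => hne.2 (eq_zero_of_nrm _ hh))
    have i2 := nrm_iter Z' W h2 f2 n
    have i3 := nrm_iter W' Z h3 f3 n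
    have j2 : 1 ≤ nrm (Z' ^ n) * nrm (W ^ n) := by
      by_contra hh
      push Not at hh
      nlinarith
    have j3 : 1 ≤ nrm (W' ^ n) * nrm (Z ^ n) := by
      by_contra hh
      push Not at hh
      nlinarith
    have k1 : 1 ≤ (nrm (Z' ^ n) * nrm (W ^ n)) * (nrm (W' ^ n) * nrm (Z ^ n)) :=
      one_le_mul_of_one_le_of_one_le j2 j3
    have k2 : (nrm (Z' ^ n) * nrm (W ^ n)) * (nrm (W' ^ n) * nrm (Z ^ n)) =
        (nrm (Z' ^ n) * nrm (W' ^ n)) * (nrm (Z ^ n) * nrm (W ^ n)) := by ring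
    rw [k2] at k1
    have q1 : 0 ≤ nrm (Z ^ n) * nrm (W ^ n) := mul_nonneg (nrm_nonneg _) (nrm_nonneg _)
    have q2 : 0 ≤ nrm (Z' ^ n) * nrm (W' ^ n) := mul_nonneg (nrm_nonneg _) (nrm_nonneg _)
    nlinarith
  have hboth : h2 = 0 ∧ h3 = 0 := by
    rcases hor with h20 | h30
    · refine ⟨h20, ?_⟩
      subst h20
      rw [Matrix.det_fromBlocks_zero₁₂] at hdet
      have hu : IsUnit h4.det := (right_ne_zero_of_mul hdet).isUnit
      have hs : h4⁻¹ * h3 = W * (h4⁻¹ * h3) * Z := by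
        have t1 : h4⁻¹ * W' = W * h4⁻¹ := by
          have : h4⁻¹ * (h4 * W) * h4⁻¹ = h4⁻¹ * (W' * h4) * h4⁻¹ := by rw [f4]
          rw [← Matrix.mul_assoc, Matrix.nonsing_inv_mul _ hu, Matrix.one_mul, Matrix.mul_assoc,
            Matrix.mul_assoc, Matrix.mul_nonsing_inv _ hu, Matrix.mul_one] at this
          exact this.symm
        conv_lhs => rw [f3]
        rw [← Matrix.mul_assoc, ← Matrix.mul_assoc, t1]
        simp only [Matrix.mul_assoc]
      have := syl W Z _ hs n (by rw [mul_comm]; exact hd1)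
      calc h3 = h4 * (h4⁻¹ * h3) := by
            rw [← Matrix.mul_assoc, Matrix.mul_nonsing_inv _ hu, Matrix.one_mul]
        _ = 0 := by rw [this, Matrix.mul_zero]
    · refine ⟨?_, h30⟩
      subst h30
      rw [Matrix.det_fromBlocks_zero₂₁] at hdet
      have hu : IsUnit h1.det := (left_ne_zero_of_mul hdet).isUnit
      have hs : h1⁻¹ * h2 = Z * (h1⁻¹ * h2) * W := by
        have t1 : h1⁻¹ * Z' = Z * h1⁻¹ := by
          have : h1⁻¹ * (h1 * Z) * h1⁻¹ = h1⁻¹ * (Z' * h1) * h1⁻¹ := by rw [f1]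
          rw [← Matrix.mul_assoc, Matrix.nonsing_inv_mul _ hu, Matrix.one_mul, Matrix.mul_assoc,
            Matrix.mul_assoc, Matrix.mul_nonsing_inv _ hu, Matrix.mul_one] at this
          exact this.symm
        conv_lhs => rw [f2]
        rw [← Matrix.mul_assoc, ← Matrix.mul_assoc, t1]
        simp only [Matrix.mul_assoc]
      have := syl Z W _ hs n hd1
      calc h2 = h1 * (h1⁻¹ * h2) := by
            rw [← Matrix.mul_assoc, Matrix.mul_nonsing_inv _ hu, Matrix.one_mul]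
        _ = 0 := by rw [this, Matrix.mul_zero]
  obtain ⟨h20, h30⟩ := hboth
  subst h20 h30
  rw [Matrix.zero_mul, add_zero] at v1
  rw [Matrix.zero_mul, zero_add] at v2
  obtain ⟨r1, r2⟩ := inter_self _ h1 f1 v1
  obtain ⟨s1, s2⟩ := inter_self _ h4 f4 v2
  subst r1 s1
  rw [Matrix.zero_mul] at e2 e3
  subst e1 e2 e3 e4
  exact ⟨Matrix.fromBlocks_one, Matrix.fromBlocks_one, ext_parts r2 s2⟩

/-! ### The linearised version -/

def nxt0 (a : Fin N → ℕ) (c : Fin N → Ix a → ℂ) (i : Fin N) (l : ℕ) : Ix a → ℂ :=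
  if l < a i then 0 else c i

def cmp0 (a : Fin N → ℕ) (c : Fin N → Ix a → ℂ) : Matrix (Ix a) (Ix a) ℂ :=
  Matrix.of fun x y => nxt0 a c y.1 (y.2 + 1) x

def cvec0 (a : Fin N → ℕ) (c : Fin N → Ix a → ℂ) : Matrix (Ix a) (Fin N) ℂ :=
  Matrix.of fun x i => nxt0 a c i 0 x

theorem nxt_add (c δ : Fin N → Ix a → ℂ) (t : ℂ) (i : Fin N) (l : ℕ) :
    nxt a (c + t • δ) i l = nxt a c i l + t • nxt0 a δ i l := by
  rw [nxt, nxt, nxt0]
  split_ifs with h
  · rw [smul_zero, add_zero]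
  · rfl

theorem cmp_add (c δ : Fin N → Ix a → ℂ) (t : ℂ) :
    cmp a (c + t • δ) = cmp a c + t • cmp0 a δ := by
  ext x y
  exact congrFun (nxt_add c δ t y.1 (y.2 + 1)) x

theorem cvec_add (c δ : Fin N → Ix a → ℂ) (t : ℂ) :
    cvec a (c + t • δ) = cvec a c + t • cvec0 a δ := by
  ext x i
  exact congrFun (nxt_add c δ t i 0) x

theorem lin_self (c δ : Fin N → Ix a → ℂ) (h : Matrix (Ix a) (Ix a) ℂ)
    (hZ : h * cmp a c - cmp a c * h + cmp0 a δ = 0) (hv : h * cvec a c + cvec0 a δ = 0) :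
    h = 0 ∧ δ = 0 := by
  have key : ∀ i l, l ≤ a i → h.mulVec (nxt a c i l) = - nxt0 a δ i l := by
    intro i l
    induction l with
    | zero =>
      intro _
      have := congrArg (fun M => M.mulVec (Pi.single i 1)) hv
      simp only [Matrix.add_mulVec, ← Matrix.mulVec_mulVec, cvec_single, Matrix.zero_mulVec] at this
      rw [eq_neg_of_add_eq_zero_left this, Matrix.mulVec_single_one]
      rfl
    | succ l ih =>
      intro hl
      have e1 : nxt a c i l = Pi.single ⟨i, ⟨l, hl⟩⟩ 1 := nxt_lt (c := c) i ⟨l, hl⟩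
      have e2 : h.mulVec (nxt a c i l) = 0 := by
        rw [ih (Nat.le_of_succ_le hl), nxt0, if_pos (Nat.lt_of_succ_le hl), neg_zero]
      have e3 : h * cmp a c = cmp a c * h - cmp0 a δ := by
        rw [← sub_eq_zero, ← hZ]
        abel
      rw [← cmp_nxt i l hl, Matrix.mulVec_mulVec, e3, Matrix.sub_mulVec, ← Matrix.mulVec_mulVec, e2,
        Matrix.mulVec_zero, zero_sub, e1, Matrix.mulVec_single_one]
      rfl
  have h1 : h = 0 := by
    apply Matrix.ext_of_mulVec_single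
    rintro ⟨i, l⟩
    have := key i l l.2.le
    rw [nxt_lt, nxt0, if_pos l.2, neg_zero] at this
    rw [this, Matrix.zero_mulVec]
  refine ⟨h1, ?_⟩
  funext i
  have := key i (a i) le_rfl
  rw [nxt0, if_neg (lt_irrefl _), h1, Matrix.zero_mulVec] at this
  exact neg_eq_zero.1 this.symm

def stdA0 (ω : Kx a b → ℂ) : Matrix (Ix a ⊕ Ix b) (Ix a ⊕ Ix b) ℂ :=
  Matrix.fromBlocks (cmp0 a (cpart ω)) 0 0 0

def stdB0 (ω : Kx a b → ℂ) : Matrix (Ix a ⊕ Ix b) (Ix a ⊕ Ix b) ℂ :=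
  Matrix.fromBlocks 0 0 0 (cmp0 b (dpart ω))

def stdV0 (ω : Kx a b → ℂ) : Matrix (Ix a ⊕ Ix b) (Fin N) ℂ :=
  Matrix.fromRows (cvec0 a (cpart ω)) (cvec0 b (dpart ω))

theorem stdA_add (ω δ : Kx a b → ℂ) (t : ℂ) : stdA (ω + t • δ) = stdA ω + t • stdA0 δ := by
  have : cpart (ω + t • δ) = cpart ω + t • cpart δ := rfl
  rw [stdA, stdA, stdA0, this, cmp_add, pA, pA, Matrix.fromBlocks_smul, Matrix.fromBlocks_add]
  simp

theorem stdB_add (ω δ : Kx a b → ℂ) (t : ℂ) : stdB (ω + t • δ) = stdB ω + t • stdB0 δ := by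
  have : dpart (ω + t • δ) = dpart ω + t • dpart δ := rfl
  rw [stdB, stdB, stdB0, this, cmp_add, pB, pB, Matrix.fromBlocks_smul, Matrix.fromBlocks_add]
  simp

theorem stdV_add (ω δ : Kx a b → ℂ) (t : ℂ) : stdV (ω + t • δ) = stdV ω + t • stdV0 δ := by
  have h1 : cpart (ω + t • δ) = cpart ω + t • cpart δ := rfl
  have h2 : dpart (ω + t • δ) = dpart ω + t • dpart δ := rfl
  rw [stdV, stdV, stdV0, h1, h2, cvec_add, cvec_add]
  ext x i
  rcases x with x | x <;> rfl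

theorem fromRows_add' {m₁ m₂ q : Type*} (A C : Matrix m₁ q ℂ) (B D : Matrix m₂ q ℂ) :
    Matrix.fromRows A B + Matrix.fromRows C D = Matrix.fromRows (A + C) (B + D) := by
  ext x i
  rcases x with x | x <;> rfl

theorem std_lin {n : ℕ} {ω : Kx a b → ℂ} (hω : Dom n ω) (δ : Kx a b → ℂ)
    (h g : Matrix (Ix a ⊕ Ix b) (Ix a ⊕ Ix b) ℂ)
    (hA : h * stdA ω + stdA ω * g + stdA0 δ = 0) (hB : h * stdB ω + stdB ω * g + stdB0 δ = 0)
    (hV : h * stdV ω + stdV0 δ = 0) : h = 0 ∧ g = 0 ∧ δ = 0 := by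
  obtain ⟨h1, h2, h3, h4, rfl⟩ := blocks h
  obtain ⟨g1, g2, g3, g4, rfl⟩ := blocks g
  rw [stdA, pA, stdA0, Matrix.fromBlocks_multiply, Matrix.fromBlocks_multiply,
    Matrix.fromBlocks_add, Matrix.fromBlocks_add, ← Matrix.fromBlocks_zero,
    Matrix.fromBlocks_inj] at hA
  rw [stdB, pB, stdB0, Matrix.fromBlocks_multiply, Matrix.fromBlocks_multiply,
    Matrix.fromBlocks_add, Matrix.fromBlocks_add, ← Matrix.fromBlocks_zero,
    Matrix.fromBlocks_inj] at hB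
  simp only [Matrix.mul_zero, Matrix.zero_mul, Matrix.mul_one, Matrix.one_mul, add_zero,
    zero_add] at hA hB
  obtain ⟨a1, a2, a3, a4⟩ := hA
  obtain ⟨b1, b2, b3, b4⟩ := hB
  set Z := cmp a (cpart ω) with hZ
  set W := cmp b (dpart ω) with hW
  have hd1 : nrm (Z ^ n) * nrm (W ^ n) < 1 := hω
  have g1e : g1 = - h1 := by rw [eq_neg_iff_add_eq_zero, add_comm]; exact b1
  have g4e : g4 = - h4 := by rw [eq_neg_iff_add_eq_zero, add_comm]; exact a4
  have g2e : g2 = - (h2 * W) := by rw [eq_neg_iff_add_eq_zero, add_comm]; exact b2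
  have g3e : g3 = - (h3 * Z) := by rw [eq_neg_iff_add_eq_zero, add_comm]; exact a3
  have h2e : h2 = Z * h2 * W := by
    rw [g2e, Matrix.mul_neg, ← sub_eq_add_neg, sub_eq_zero] at a2
    rw [Matrix.mul_assoc]
    exact a2
  have h3e : h3 = W * h3 * Z := by
    rw [g3e, Matrix.mul_neg, ← sub_eq_add_neg, sub_eq_zero] at b3
    rw [Matrix.mul_assoc]
    exact b3
  have h20 : h2 = 0 := syl Z W h2 h2e n hd1
  have h30 : h3 = 0 := syl W Z h3 h3e n (by rw [mul_comm]; exact hd1)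
  subst h20 h30
  rw [stdV, stdV0, Matrix.fromBlocks_mul_fromRows, ← Matrix.fromRows_zero, fromRows_add'] at hV
  obtain ⟨v1, v2⟩ := Matrix.fromRows_inj hV
  rw [Matrix.zero_mul, add_zero] at v1
  rw [Matrix.zero_mul, zero_add] at v2
  rw [g1e, Matrix.mul_neg, ← sub_eq_add_neg] at a1
  rw [g4e, Matrix.mul_neg, ← sub_eq_add_neg] at b4
  obtain ⟨r1, r2⟩ := lin_self _ _ h1 a1 v1
  obtain ⟨s1, s2⟩ := lin_self _ _ h4 b4 v2
  subst r1 s1
  rw [Matrix.zero_mul, neg_zero] at g2e g3e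
  rw [neg_zero] at g1e g4e
  subst g1e g2e g3e g4e
  exact ⟨Matrix.fromBlocks_zero, Matrix.fromBlocks_zero, ext_parts r2 s2⟩

end

end

end Pool.Agent.Work.MP_196328_ag
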