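import Mathlib

set_option autoImplicit false

namespace Pool.Agent.Work.MP_196328_ag

noncomputable section

/-! ### A submultiplicative size function -/

section
variable {I J L : Type*} [Fintype I] [Fintype J] [Fintype L]

/-- Sum of the absolute values of the entries. -/
def nrm (X : Matrix I J ℂ) : ℝ := ∑ i, ∑ j, ‖X i j‖

theorem nrm_nonneg (X : Matrix I J ℂ) : 0 ≤ nrm X :=
  Finset.sum_nonneg (fun _ _ => Finset.sum_nonneg (fun _ _ => norm_nonneg _))

theorem nrm_zero : nrm (0 : Matrix I J ℂ) = 0 := by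
  simp [nrm]

theorem eq_zero_of_nrm (X : Matrix I J ℂ) (h : nrm X ≤ 0) : X = 0 := by
  have h0 : nrm X = 0 := le_antisymm h (nrm_nonneg X)
  ext i j
  rw [nrm, Finset.sum_eq_zero_iff_of_nonneg
    (fun _ _ => Finset.sum_nonneg (fun _ _ => norm_nonneg _))] at h0
  have h1 := h0 i (Finset.mem_univ i)
  rw [Finset.sum_eq_zero_iff_of_nonneg (fun _ _ => norm_nonneg _)] at h1
  exact norm_eq_zero.1 (h1 j (Finset.mem_univ j))

theorem nrm_mul (X : Matrix I J ℂ) (Y : Matrix J L ℂ) : nrm (X * Y) ≤ nrm X * nrm Y := by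
  have h1 : nrm (X * Y) ≤ ∑ i, ∑ l, ∑ j, ‖X i j‖ * ‖Y j l‖ := by
    apply Finset.sum_le_sum
    intro i _
    apply Finset.sum_le_sum
    intro l _
    rw [Matrix.mul_apply]
    refine (norm_sum_le _ _).trans (le_of_eq ?_)
    apply Finset.sum_congr rfl
    intro j _
    rw [norm_mul]
  refine h1.trans ?_
  have h2 : nrm X * nrm Y = ∑ i, ∑ j, ‖X i j‖ * nrm Y := by
    rw [nrm, Finset.sum_mul]
    apply Finset.sum_congr rfl
    intro i _
    rw [Finset.sum_mul]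
  rw [h2]
  apply Finset.sum_le_sum
  intro i _
  rw [Finset.sum_comm]
  apply Finset.sum_le_sum
  intro j _
  rw [← Finset.mul_sum]
  apply mul_le_mul_of_nonneg_left _ (norm_nonneg _)
  exact Finset.single_le_sum (f := fun j => ∑ l, ‖Y j l‖)
    (fun _ _ => Finset.sum_nonneg (fun _ _ => norm_nonneg _)) (Finset.mem_univ j)

theorem continuous_nrm : Continuous (nrm : Matrix I J ℂ → ℝ) := by
  apply continuous_finsetSum
  intro i _
  apply continuous_finsetSum
  intro j _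
  exact ((continuous_apply j).comp (continuous_apply i)).norm

variable [DecidableEq I] [DecidableEq J]

theorem iter_eq {I' J' : Type*} [Fintype I'] [Fintype J'] [DecidableEq I'] [DecidableEq J']
    (P : Matrix I I ℂ) (Q : Matrix J J ℂ) (X : Matrix I J ℂ) (h : X = P * X * Q) (m : ℕ) :
    X = P ^ m * X * Q ^ m := by
  induction m with
  | zero => simp
  | succ m ih =>
    have : P ^ (m + 1) * X * Q ^ (m + 1) = P ^ m * (P * X * Q) * Q ^ m := by
      rw [pow_succ, pow_succ']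
      simp only [Matrix.mul_assoc]
    rw [this, ← h, ← ih]

theorem nrm_iter (P : Matrix I I ℂ) (Q : Matrix J J ℂ) (X : Matrix I J ℂ) (h : X = P * X * Q)
    (m : ℕ) : nrm X ≤ nrm (P ^ m) * nrm X * nrm (Q ^ m) := by
  conv_lhs => rw [iter_eq (I' := I) (J' := J) P Q X h m]
  refine (nrm_mul _ _).trans ?_
  exact mul_le_mul_of_nonneg_right (nrm_mul _ _) (nrm_nonneg _)

theorem syl (P : Matrix I I ℂ) (Q : Matrix J J ℂ) (X : Matrix I J ℂ) (h : X = P * X * Q)
    (m : ℕ) (hm : nrm (P ^ m) * nrm (Q ^ m) < 1) : X = 0 := by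
  apply eq_zero_of_nrm
  have := nrm_iter P Q X h m
  nlinarith [nrm_nonneg X]

end

/-! ### Block equations -/

section
variable {I J I' J' : Type*} [Fintype I] [Fintype J] [Fintype I'] [Fintype J']
  [DecidableEq I] [DecidableEq J] [DecidableEq I'] [DecidableEq J']

/-- First matrix of the block pencil. -/
def pA (J : Type*) [DecidableEq J] (Z : Matrix I I ℂ) : Matrix (I ⊕ J) (I ⊕ J) ℂ :=
  Matrix.fromBlocks Z 0 0 1

/-- Second matrix of the block pencil. -/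
def pB (I : Type*) [DecidableEq I] (W : Matrix J J ℂ) : Matrix (I ⊕ J) (I ⊕ J) ℂ :=
  Matrix.fromBlocks 1 0 0 W

theorem block_eqs (h1 : Matrix I' I ℂ) (h2 : Matrix I' J ℂ) (h3 : Matrix J' I ℂ)
    (h4 : Matrix J' J ℂ) (g1 : Matrix I' I ℂ) (g2 : Matrix I' J ℂ) (g3 : Matrix J' I ℂ)
    (g4 : Matrix J' J ℂ) (Z : Matrix I I ℂ) (W : Matrix J J ℂ) (Z' : Matrix I' I' ℂ)
    (W' : Matrix J' J' ℂ)
    (hA : (Matrix.fromBlocks h1 h2 h3 h4 : Matrix (I' ⊕ J') (I ⊕ J) ℂ) * pA J Z =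
      pA J' Z' * (Matrix.fromBlocks g1 g2 g3 g4 : Matrix (I' ⊕ J') (I ⊕ J) ℂ))
    (hB : (Matrix.fromBlocks h1 h2 h3 h4 : Matrix (I' ⊕ J') (I ⊕ J) ℂ) * pB I W =
      pB I' W' * (Matrix.fromBlocks g1 g2 g3 g4 : Matrix (I' ⊕ J') (I ⊕ J) ℂ)) :
    g1 = h1 ∧ g4 = h4 ∧ g2 = h2 * W ∧ g3 = h3 * Z ∧ h1 * Z = Z' * h1 ∧ h4 * W = W' * h4 ∧
      h2 = Z' * h2 * W ∧ h3 = W' * h3 * Z := by
  rw [pA, pA, Matrix.fromBlocks_multiply, Matrix.fromBlocks_multiply, Matrix.fromBlocks_inj] at hA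
  rw [pB, pB, Matrix.fromBlocks_multiply, Matrix.fromBlocks_multiply, Matrix.fromBlocks_inj] at hB
  simp only [Matrix.mul_zero, Matrix.zero_mul, Matrix.mul_one, Matrix.one_mul, add_zero,
    zero_add] at hA hB
  obtain ⟨a1, a2, a3, a4⟩ := hA
  obtain ⟨b1, b2, b3, b4⟩ := hB
  refine ⟨b1.symm, a4.symm, b2.symm, a3.symm, ?_, ?_, ?_, ?_⟩
  · rw [a1, b1]
  · rw [b4, a4]
  · rw [Matrix.mul_assoc, b2, ← a2]
  · rw [Matrix.mul_assoc, a3, ← b3]

end

/-! ### Companion matrices -/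

section
variable {N : ℕ}

/-- Index set of the basis attached to a composition. -/
abbrev Ix (a : Fin N → ℕ) := Σ i : Fin N, Fin (a i)

/-- The vectors `Z ^ l v_i` for `l ≤ a i`. -/
def nxt (a : Fin N → ℕ) (c : Fin N → Ix a → ℂ) (i : Fin N) (l : ℕ) : Ix a → ℂ :=
  if h : l < a i then Pi.single ⟨i, ⟨l, h⟩⟩ 1 else c i

/-- The companion matrix. -/
def cmp (a : Fin N → ℕ) (c : Fin N → Ix a → ℂ) : Matrix (Ix a) (Ix a) ℂ :=
  Matrix.of fun x y => nxt a c y.1 (y.2 + 1) x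

/-- The companion vectors. -/
def cvec (a : Fin N → ℕ) (c : Fin N → Ix a → ℂ) : Matrix (Ix a) (Fin N) ℂ :=
  Matrix.of fun x i => nxt a c i 0 x

variable {a : Fin N → ℕ} {c : Fin N → Ix a → ℂ}

theorem nxt_lt (i : Fin N) (l : Fin (a i)) : nxt a c i l = Pi.single ⟨i, l⟩ 1 := by
  rw [nxt, dif_pos l.2]

theorem nxt_ge (i : Fin N) (l : ℕ) (h : a i ≤ l) : nxt a c i l = c i := by
  rw [nxt, dif_neg (not_lt.2 h)]

theorem cmp_single (y : Ix a) : (cmp a c).mulVec (Pi.single y 1) = nxt a c y.1 (y.2 + 1) := by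
  rw [Matrix.mulVec_single_one]
  rfl

theorem cmp_nxt (i : Fin N) (l : ℕ) (h : l < a i) :
    (cmp a c).mulVec (nxt a c i l) = nxt a c i (l + 1) := by
  have := nxt_lt (c := c) i ⟨l, h⟩
  change nxt a c i l = _ at this
  rw [this, cmp_single]

theorem cvec_single (i : Fin N) : (cvec a c).mulVec (Pi.single i 1) = nxt a c i 0 := by
  rw [Matrix.mulVec_single_one]
  rfl

theorem pow_cmp (i : Fin N) (l : ℕ) (h : l ≤ a i) :
    ((cmp a c) ^ l).mulVec (nxt a c i 0) = nxt a c i l := by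
  induction l with
  | zero => simp
  | succ l ih =>
    rw [pow_succ', ← Matrix.mulVec_mulVec, ih (Nat.le_of_succ_le h), cmp_nxt i l h]

/-- Propagation of an intertwining relation. -/
theorem inter_nxt {I : Type*} [Fintype I] [DecidableEq I] (h : Matrix I (Ix a) ℂ)
    (Z : Matrix I I ℂ) (v : Matrix I (Fin N) ℂ) (hZ : h * cmp a c = Z * h)
    (hv : h * cvec a c = v) (i : Fin N) (l : ℕ) (hl : l ≤ a i) :
    h.mulVec (nxt a c i l) = (Z ^ l).mulVec (v.mulVec (Pi.single i 1)) := by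
  induction l with
  | zero =>
    rw [pow_zero, Matrix.one_mulVec, ← hv, ← Matrix.mulVec_mulVec, cvec_single]
  | succ l ih =>
    rw [← cmp_nxt i l hl, Matrix.mulVec_mulVec, hZ, ← Matrix.mulVec_mulVec,
      ih (Nat.le_of_succ_le hl), Matrix.mulVec_mulVec, ← pow_succ']

theorem inter_self (c' : Fin N → Ix a → ℂ) (h : Matrix (Ix a) (Ix a) ℂ)
    (hZ : h * cmp a c = cmp a c' * h) (hv : h * cvec a c = cvec a c') : h = 1 ∧ c' = c := by
  have key : ∀ i l, l ≤ a i → h.mulVec (nxt a c i l) = nxt a c' i l := by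
    intro i l hl
    rw [inter_nxt h _ _ hZ hv i l hl, cvec_single, pow_cmp i l hl]
  have h1 : h = 1 := by
    apply Matrix.ext_of_mulVec_single
    rintro ⟨i, l⟩
    have := key i l l.2.le
    rw [nxt_lt, nxt_lt] at this
    rw [this, Matrix.one_mulVec]
  refine ⟨h1, ?_⟩
  funext i
  have := key i (a i) le_rfl
  rw [nxt_ge _ _ le_rfl, nxt_ge _ _ le_rfl, h1, Matrix.one_mulVec] at this
  exact this.symm

end

end

end Pool.Agent.Work.MP_196328_ag
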