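import Mathlib

set_option autoImplicit false

namespace Pool.Agent.Work.MP_196328_ag

noncomputable section

/-- The face inclusion of standard simplices omitting the vertex `j`. -/
def face {n : ℕ} (j : Fin (n + 1)) : C(stdSimplex ℝ (Fin n), stdSimplex ℝ (Fin (n + 1))) :=
  ⟨stdSimplex.map j.succAbove, stdSimplex.continuous_map _⟩

/-- Singular `i`-simplices of `X`. -/
abbrev SingSimplex (X : Type*) [TopologicalSpace X] (i : ℕ) := C(stdSimplex ℝ (Fin (i + 1)), X)

/-- The coboundary of a singular `i`-cochain with values in `k`. -/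
def coboundary {k : Type*} [Field k] {X : Type*} [TopologicalSpace X] {i : ℕ}
    (φ : SingSimplex X i → k) : SingSimplex X (i + 1) → k :=
  fun σ => ∑ j : Fin (i + 2), (-1 : k) ^ (j : ℕ) * φ (σ.comp (face j))

/-- Vanishing of the `i`-th singular cohomology group of `X` with coefficients in `k`. -/
def CohomologyVanishes (k : Type*) [Field k] (X : Type*) [TopologicalSpace X] : ℕ → Prop
  | 0 => ∀ φ : SingSimplex X 0 → k, coboundary φ = 0 → φ = 0
  | i + 1 => ∀ φ : SingSimplex X (i + 1) → k, coboundary φ = 0 →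
      ∃ ψ : SingSimplex X i → k, coboundary ψ = φ

/-- `n`-tuples of linearly independent vectors of the space of all complex sequences. -/
abbrev Frame (n : ℕ) := {F : Matrix (Fin n) ℕ ℂ // LinearIndependent ℂ F.row}

/-- Regular pencils of complex `n × n` matrices. -/
abbrev Pencil (n : ℕ) :=
  {P : Matrix (Fin n) (Fin n) ℂ × Matrix (Fin n) (Fin n) ℂ //
    ∃ s t : ℂ, (s • P.1 + t • P.2).det ≠ 0}

/-- The orbit relation of `GL_n × GL_n` on pairs of frames with a regular pencil. -/
def OrbitRel (n : ℕ) (x y : Frame n × Frame n × Pencil n) : Prop :=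
  ∃ g h : GL (Fin n) ℂ, y.1.1 = (g : Matrix (Fin n) (Fin n) ℂ) * x.1.1 ∧
    y.2.1.1 = (h : Matrix (Fin n) (Fin n) ℂ) * x.2.1.1 ∧
    y.2.2.1.1 = (h : Matrix (Fin n) (Fin n) ℂ) * x.2.2.1.1 * (g⁻¹ : GL (Fin n) ℂ) ∧
    y.2.2.1.2 = (h : Matrix (Fin n) (Fin n) ℂ) * x.2.2.1.2 * (g⁻¹ : GL (Fin n) ℂ)

/-- The homotopy quotient of the space of regular pencils by `GL_n × GL_n`. -/
abbrev TorsionStack (n : ℕ) := Quot (OrbitRel n)

end

end Pool.Agent.Work.MP_196328_ag
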