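import Pool.Agent.Work.MP_196328_ag.NF

set_option autoImplicit false

namespace Pool.Agent.Work.MP_196328_ag

noncomputable section

open Matrix

section
variable {N : ℕ} {V : Type*} [AddCommGroup V] [Module ℂ V]

/-- Generation in terms of functionals. -/
def GenF (P Q : V →ₗ[ℂ] V) (v : Fin N → V) : Prop :=
  ∀ ξ : V →ₗ[ℂ] ℂ, ξ ≠ 0 → ∀ s t : ℂ, (s, t) ≠ (0, 0) → ξ ∘ₗ (s • P + t • Q) = 0 →
    ∃ i, ξ (v i) ≠ 0

theorem GenF.swap {P Q : V →ₗ[ℂ] V} {v : Fin N → V} (h : GenF P Q v) : GenF Q P v := by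
  intro ξ hξ s t hst h0
  apply h ξ hξ t s
  · intro h1
    apply hst
    rw [Prod.mk.injEq] at h1 ⊢
    exact ⟨h1.2, h1.1⟩
  · rw [add_comm]
    exact h0

theorem proj_comm {V₁ V₂ : Submodule ℂ V} (hc : IsCompl V₁ V₂) (P : V →ₗ[ℂ] V)
    (h1 : ∀ x ∈ V₁, P x ∈ V₁) (h2 : ∀ x ∈ V₂, P x ∈ V₂) (x : V) :
    V₁.projectionOnto V₂ hc (P x) = P.restrict h1 (V₁.projectionOnto V₂ hc x) := by
  have hx : x ∈ V₁ ⊔ V₂ := by
    rw [hc.sup_eq_top]
    trivial
  obtain ⟨y, hy, z, hz, rfl⟩ := Submodule.mem_sup.1 hx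
  rw [map_add, map_add, map_add, Submodule.projectionOnto_apply_of_mem_left hc hy,
    Submodule.projectionOnto_apply_of_mem_left hc (h1 y hy),
    Submodule.projectionOnto_apply_of_mem_right hc hz,
    Submodule.projectionOnto_apply_of_mem_right hc (h2 z hz), add_zero, add_zero]
  rfl

theorem half [FiniteDimensional ℂ V] (P Q : V →ₗ[ℂ] V) (hPQ : P ∘ₗ Q = Q ∘ₗ P) (v : Fin N → V)
    (V₁ V₂ : Submodule ℂ V) (hc : IsCompl V₁ V₂)
    (hP1 : ∀ x ∈ V₁, P x ∈ V₁) (hQ1 : ∀ x ∈ V₁, Q x ∈ V₁)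
    (hP2 : ∀ x ∈ V₂, P x ∈ V₂) (hQ2 : ∀ x ∈ V₂, Q x ∈ V₂)
    (hinj : ∀ x ∈ V₁, Q x = 0 → x = 0) (hgen : GenF P Q v) :
    ∃ (a : Fin N → ℕ) (c : Fin N → Ix a → ℂ) (φ φ' : V₁ ≃ₗ[ℂ] (Ix a → ℂ)),
      (∀ x : V₁, φ (P.restrict hP1 x) = cmp a c *ᵥ φ' x) ∧
      (∀ x : V₁, φ (Q.restrict hQ1 x) = φ' x) ∧
      (∀ i, φ (V₁.projectionOnto V₂ hc (v i)) = nxt a c i 0) ∧
      (∀ i y, i < y.1 → c i y = 0) ∧
      ∀ m, (∀ x ∈ V₁, (P ^ m) x = 0) → (cmp a c) ^ m = 0 := by
  set P1 := P.restrict hP1 with hP1d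
  set Q1 := Q.restrict hQ1 with hQ1d
  have hQ1i : Function.Injective Q1 := by
    rw [injective_iff_map_eq_zero]
    intro x hx
    apply Subtype.ext
    exact hinj x x.2 (congrArg Subtype.val hx)
  let e : V₁ ≃ₗ[ℂ] V₁ := LinearEquiv.ofInjectiveEndo Q1 hQ1i
  have he : ∀ x, e x = Q1 x := fun x => LinearEquiv.coe_ofInjectiveEndo Q1 hQ1i ▸ rfl
  let Z : V₁ →ₗ[ℂ] V₁ := P1 ∘ₗ e.symm.toLinearMap
  have hZQ : ∀ x, Z (Q1 x) = P1 x := by
    intro x
    change P1 (e.symm (Q1 x)) = P1 x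
    rw [← he, e.symm_apply_apply]
  have hcomm1 : ∀ x, P1 (Q1 x) = Q1 (P1 x) := by
    intro x
    apply Subtype.ext
    exact LinearMap.congr_fun hPQ x
  have hQZ : ∀ x, Q1 (Z x) = P1 x := by
    intro x
    change Q1 (P1 (e.symm x)) = P1 x
    rw [← hcomm1, ← he, e.apply_symm_apply]
  let v1 : Fin N → V₁ := fun i => V₁.projectionOnto V₂ hc (v i)
  have hg : ∀ W : Submodule ℂ V₁, (∀ i, v1 i ∈ W) → (∀ x ∈ W, Z x ∈ W) → W = ⊤ := by
    intro W hv hW
    by_contra hne
    have hann : W.dualAnnihilator ≠ ⊥ := by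
      intro h0
      apply hne
      rw [← Subspace.dualAnnihilator_dualCoannihilator_eq (W := W), h0,
        Submodule.dualCoannihilator_bot]
    have hst : ∀ f ∈ W.dualAnnihilator, Z.dualMap f ∈ W.dualAnnihilator := by
      intro f hf
      rw [Submodule.mem_dualAnnihilator] at hf ⊢
      intro w hw
      exact hf _ (hW w hw)
    have : Nontrivial W.dualAnnihilator := Submodule.nontrivial_iff_ne_bot.2 hann
    obtain ⟨l, hl⟩ := Module.End.exists_eigenvalue (Z.dualMap.restrict hst)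
    obtain ⟨f, hf⟩ := hl.exists_hasEigenvector
    have hf0 : (f : Module.Dual ℂ V₁) ≠ 0 := by
      intro h0
      apply hf.2
      apply Subtype.ext
      exact h0
    have hfe : ∀ x, (f : Module.Dual ℂ V₁) (Z x) = l * (f : Module.Dual ℂ V₁) x := by
      intro x
      have h1 := hf.apply_eq_smul
      have h2 := congrArg (fun g : W.dualAnnihilator => (g : Module.Dual ℂ V₁) x) h1
      exact h2
    obtain ⟨i, hi⟩ := hgen ((f : Module.Dual ℂ V₁) ∘ₗ (V₁.projectionOnto V₂ hc))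
      (by
        intro h0
        apply hf0
        ext x
        have := LinearMap.congr_fun h0 x
        rw [LinearMap.comp_apply, Submodule.projectionOnto_apply_left] at this
        exact this)
      1 (-l)
      (by
        intro h0
        rw [Prod.mk.injEq] at h0
        exact one_ne_zero h0.1)
      (by
        ext x
        rw [LinearMap.comp_apply, LinearMap.comp_apply, LinearMap.add_apply,
          LinearMap.smul_apply, LinearMap.smul_apply, map_add, map_smul, map_smul, map_add,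
          map_smul, map_smul, proj_comm hc P hP1 hP2, proj_comm hc Q hQ1 hQ2, ← hP1d, ← hQ1d,
          ← hZQ, hfe]
        simp)
    apply hi
    have := f.2
    rw [Submodule.mem_dualAnnihilator] at this
    exact this _ (hv i)
  obtain ⟨a, c, φ, h1, h2, h3⟩ := nf Z v1 hg
  refine ⟨a, c, φ, e.trans φ, ?_, ?_, h2, h3, ?_⟩
  · intro x
    rw [LinearEquiv.trans_apply, he, ← h1, hZQ]
  · intro x
    rw [LinearEquiv.trans_apply, he]
  · intro m hm
    have hP1m : ∀ j, ∀ x : V₁, ((P1 ^ j) x : V) = (P ^ j) x := by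
      intro j
      induction j with
      | zero => intro x; rfl
      | succ j ih =>
        intro x
        rw [pow_succ, pow_succ, Module.End.mul_apply, Module.End.mul_apply, ih]
        rfl
    have hP10 : P1 ^ m = 0 := by
      ext x
      rw [hP1m, hm x x.2]
      rfl
    have hcm : Commute Z Q1 := by
      ext x
      change ((Z (Q1 x) : V₁) : V) = (Q1 (Z x) : V₁)
      rw [hZQ, hQZ]
    have hmul : Z * Q1 = P1 := by
      ext x
      change ((Z (Q1 x) : V₁) : V) = (P1 x : V₁)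
      rw [hZQ]
    have hpow : Z ^ m * Q1 ^ m = 0 := by
      rw [← hcm.mul_pow, hmul, hP10]
    have hQ1s : ∀ j : ℕ, Function.Surjective (Q1 ^ j) := by
      intro j
      rw [Module.End.coe_pow]
      apply Function.Surjective.iterate
      intro x
      exact ⟨e.symm x, by rw [← he, e.apply_symm_apply]⟩
    have hZm : ∀ x, (Z ^ m) x = 0 := by
      intro x
      obtain ⟨y, rfl⟩ := hQ1s m x
      exact LinearMap.congr_fun hpow y
    have hcz : ∀ j, ∀ x, φ ((Z ^ j) x) = (cmp a c) ^ j *ᵥ φ x := by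
      intro j
      induction j with
      | zero => intro x; simp
      | succ j ih =>
        intro x
        rw [pow_succ_app, h1, ih, Matrix.mulVec_mulVec, ← pow_succ']
    apply Matrix.ext_of_mulVec_single
    intro y
    obtain ⟨x, hx⟩ := φ.surjective (Pi.single y 1)
    rw [← hx, ← hcz, hZm, map_zero, Matrix.zero_mulVec]

end

section
variable {N : ℕ} {I : Type*} [Fintype I] [DecidableEq I]

theorem toMat_mul {a b : Type*} [Fintype a] [DecidableEq a] [Fintype b] [DecidableEq b]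
    (f : (a → ℂ) →ₗ[ℂ] (b → ℂ)) (M : Matrix a a ℂ) :
    LinearMap.toMatrix' f * M = LinearMap.toMatrix' (f ∘ₗ Matrix.toLin' M) := by
  rw [LinearMap.toMatrix'_comp, LinearMap.toMatrix'_toLin']

theorem mul_toMat {a b : Type*} [Fintype a] [DecidableEq a] [Fintype b] [DecidableEq b]
    (f : (a → ℂ) →ₗ[ℂ] (b → ℂ)) (M : Matrix b b ℂ) :
    M * LinearMap.toMatrix' f = LinearMap.toMatrix' (Matrix.toLin' M ∘ₗ f) := by
  rw [LinearMap.toMatrix'_comp, LinearMap.toMatrix'_toLin']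

theorem toMat_inv {a b : Type*} [Fintype a] [DecidableEq a] [Fintype b] [DecidableEq b]
    (f : (a → ℂ) ≃ₗ[ℂ] (b → ℂ)) :
    LinearMap.toMatrix' (f : (a → ℂ) →ₗ[ℂ] (b → ℂ)) *
      LinearMap.toMatrix' (f.symm : (b → ℂ) →ₗ[ℂ] (a → ℂ)) = 1 := by
  rw [← LinearMap.toMatrix'_comp]
  rw [LinearEquiv.comp_symm, LinearMap.toMatrix'_id]

theorem comm_of_sum (A B : Matrix I I ℂ) (s t : ℂ) (hsum : s • A + t • B = 1) :
    A * B = B * A := by
  have e1 : s • (A * B) + t • (B * B) = B := by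
    rw [← Matrix.smul_mul, ← Matrix.smul_mul, ← Matrix.add_mul, hsum, Matrix.one_mul]
  have e2 : s • (B * A) + t • (B * B) = B := by
    rw [← Matrix.mul_smul, ← Matrix.mul_smul, ← Matrix.mul_add, hsum, Matrix.mul_one]
  have e3 : s • (A * A) + t • (B * A) = A := by
    rw [← Matrix.smul_mul, ← Matrix.smul_mul, ← Matrix.add_mul, hsum, Matrix.one_mul]
  have e4 : s • (A * A) + t • (A * B) = A := by
    rw [← Matrix.mul_smul, ← Matrix.mul_smul, ← Matrix.mul_add, hsum, Matrix.mul_one]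
  have f1 : s • (A * B) = s • (B * A) := add_right_cancel (e1.trans e2.symm)
  have f2 : t • (B * A) = t • (A * B) := add_left_cancel (e3.trans e4.symm)
  by_cases hs : s = 0
  · by_cases ht : t = 0
    · rw [hs, ht, zero_smul, zero_smul, add_zero] at hsum
      calc A * B = A * B * 1 := (Matrix.mul_one _).symm
        _ = B * A * 1 := by rw [← hsum, Matrix.mul_zero, Matrix.mul_zero]
        _ = B * A := Matrix.mul_one _
    · exact (smul_right_injective _ ht f2).symm
  · exact smul_right_injective _ hs f1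

/-- Every generated regular pencil has a normal form. -/
theorem exists_std (x : Tri N I) (hx : Gen x) :
    ∃ (a b : Fin N → ℕ) (ω : Kx a b → ℂ), ∑ k, a k + ∑ k, b k = Fintype.card I ∧ Strat ω ∧
      IsoP x (std ω) := by
  obtain ⟨⟨s, t, hst⟩, hg⟩ := hx
  obtain ⟨D, hD⟩ : ∃ D, D = s • x.1 + t • x.2.1 := ⟨_, rfl⟩
  rw [← hD] at hst
  have hu : IsUnit D.det := hst.isUnit
  obtain ⟨A1, hA1⟩ : ∃ A1, A1 = x.1 * D⁻¹ := ⟨_, rfl⟩
  obtain ⟨B1, hB1⟩ : ∃ B1, B1 = x.2.1 * D⁻¹ := ⟨_, rfl⟩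
  have hAD : x.1 = A1 * D := by
    rw [hA1, Matrix.mul_assoc, Matrix.nonsing_inv_mul _ hu, Matrix.mul_one]
  have hBD : x.2.1 = B1 * D := by
    rw [hB1, Matrix.mul_assoc, Matrix.nonsing_inv_mul _ hu, Matrix.mul_one]
  have hsum : s • A1 + t • B1 = 1 := by
    rw [hA1, hB1, ← Matrix.smul_mul, ← Matrix.smul_mul, ← Matrix.add_mul, ← hD,
      Matrix.mul_nonsing_inv _ hu]
  have hcomm : A1 * B1 = B1 * A1 := comm_of_sum A1 B1 s t hsum
  set fA := Matrix.toLin' A1 with hfA
  set fB := Matrix.toLin' B1 with hfB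
  have hfc : fA ∘ₗ fB = fB ∘ₗ fA := by
    rw [hfA, hfB, ← Matrix.toLin'_mul, ← Matrix.toLin'_mul, hcomm]
  have hfsum : ∀ y, y = s • fA y + t • fB y := by
    intro y
    have := congrArg (fun M => M *ᵥ y) hsum
    simp only [Matrix.add_mulVec, Matrix.smul_mulVec, Matrix.one_mulVec] at this
    exact this.symm
  let v : Fin N → I → ℂ := fun i => x.2.2 *ᵥ Pi.single i 1
  have hgen : GenF fA fB v := by
    intro ξ hξ s' t' hne h0
    set w : I → ℂ := fun i => ξ (Pi.single i 1) with hw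
    have hξw : ∀ y, ξ y = w ⬝ᵥ y := by
      intro y
      conv_lhs => rw [← (Pi.basisFun ℂ I).sum_repr y]
      rw [map_sum, dotProduct]
      apply Finset.sum_congr rfl
      intro i _
      rw [map_smul, Pi.basisFun_apply, Pi.basisFun_repr, smul_eq_mul, mul_comm]
    have hw0 : w ≠ 0 := by
      intro h
      apply hξ
      ext i
      rw [LinearMap.comp_apply]
      exact congrFun h i
    have h1 : w ᵥ* (s' • x.1 + t' • x.2.1) = 0 := by
      have h2 : w ᵥ* (s' • A1 + t' • B1) = 0 := by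
        funext j
        have h3 := LinearMap.congr_fun h0 (Pi.single j 1)
        rw [LinearMap.comp_apply, LinearMap.add_apply, LinearMap.smul_apply,
          LinearMap.smul_apply, hξw, hfA, hfB, Matrix.toLin'_apply, Matrix.toLin'_apply,
          ← Matrix.smul_mulVec, ← Matrix.smul_mulVec, ← Matrix.add_mulVec,
          Matrix.dotProduct_mulVec] at h3
        simpa using h3
      rw [hAD, hBD, ← Matrix.smul_mul, ← Matrix.smul_mul, ← Matrix.add_mul,
        ← Matrix.vecMul_vecMul, h2, Matrix.zero_vecMul]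
    have h4 := hg w s' t' hne hw0 h1
    obtain ⟨i, hi⟩ := Function.ne_iff.1 h4
    refine ⟨i, ?_⟩
    rw [hξw]
    change w ⬝ᵥ (x.2.2 *ᵥ Pi.single i 1) ≠ 0
    rw [Matrix.dotProduct_mulVec]
    simpa using hi
  obtain ⟨m0, hm0⟩ := Filter.eventually_atTop.1
    (LinearMap.eventually_isCompl_ker_pow_range_pow fB)
  set m := m0 + 1 with hm
  have hc : IsCompl (LinearMap.range (fB ^ m)) (LinearMap.ker (fB ^ m)) :=
    (hm0 m (Nat.le_succ m0)).symm
  have hcp : ∀ y, fA ((fB ^ m) y) = (fB ^ m) (fA y) := by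
    have : Commute fA (fB ^ m) := (show Commute fA fB from hfc).pow_right m
    intro y
    exact LinearMap.congr_fun this y
  have hcB : ∀ y, fB ((fB ^ m) y) = (fB ^ m) (fB y) := by
    have : Commute fB (fB ^ m) := (Commute.refl fB).pow_right m
    intro y
    exact LinearMap.congr_fun this y
  have hA1s : ∀ y ∈ LinearMap.range (fB ^ m), fA y ∈ LinearMap.range (fB ^ m) := by
    rintro _ ⟨y, rfl⟩
    exact ⟨fA y, (hcp y).symm⟩
  have hB1s : ∀ y ∈ LinearMap.range (fB ^ m), fB y ∈ LinearMap.range (fB ^ m) := by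
    rintro _ ⟨y, rfl⟩
    exact ⟨fB y, (hcB y).symm⟩
  have hA2s : ∀ y ∈ LinearMap.ker (fB ^ m), fA y ∈ LinearMap.ker (fB ^ m) := by
    intro y hy
    rw [LinearMap.mem_ker] at hy ⊢
    rw [← hcp, hy, map_zero]
  have hB2s : ∀ y ∈ LinearMap.ker (fB ^ m), fB y ∈ LinearMap.ker (fB ^ m) := by
    intro y hy
    rw [LinearMap.mem_ker] at hy ⊢
    rw [← hcB, hy, map_zero]
  have hinj1 : ∀ y ∈ LinearMap.range (fB ^ m), fB y = 0 → y = 0 := by
    intro y hy h0
    have hk : y ∈ LinearMap.ker (fB ^ m) := by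
      rw [LinearMap.mem_ker, hm, pow_succ, Module.End.mul_apply, h0, map_zero]
    have := hc.disjoint.le_bot ⟨hy, hk⟩
    exact this
  have hinj2 : ∀ y ∈ LinearMap.ker (fB ^ m), fA y = 0 → y = 0 := by
    intro y hy h0
    have h1 : y = t • fB y := by
      conv_lhs => rw [hfsum y, h0, smul_zero, zero_add]
    have h2 : ∀ j, y = t ^ j • (fB ^ j) y := by
      intro j
      induction j with
      | zero => simp
      | succ j ih =>
        conv_lhs => rw [ih, h1]
        rw [map_smul, smul_smul, ← pow_succ, ← Module.End.mul_apply, ← pow_succ]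
    rw [h2 m]
    rw [LinearMap.mem_ker] at hy
    rw [hy, smul_zero]
  obtain ⟨a, c, φ, φ', p1, p2, p3, p4, -⟩ := half fA fB hfc v _ _ hc hA1s hB1s hA2s hB2s
    hinj1 hgen
  obtain ⟨b, d, θ, θ', q1, q2, q3, q4, q5⟩ := half fB fA hfc.symm v _ _ hc.symm hB2s hA2s
    hB1s hA1s hinj2 hgen.swap
  have hdn : (cmp b d) ^ m = 0 := q5 m (fun y hy => hy)
  -- the two isomorphisms
  let e := Submodule.prodEquivOfIsCompl _ _ hc
  let S := (LinearEquiv.sumArrowLequivProdArrow (Ix a) (Ix b) ℂ ℂ)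
  let ψ : (I → ℂ) ≃ₗ[ℂ] (Ix a ⊕ Ix b → ℂ) := (e.symm.trans (φ.prodCongr θ)).trans S.symm
  let χ : (I → ℂ) ≃ₗ[ℂ] (Ix a ⊕ Ix b → ℂ) := (e.symm.trans (φ'.prodCongr θ')).trans S.symm
  let ω : Kx a b → ℂ := Sum.elim (fun p => c p.1 p.2) (fun p => d p.1 p.2)
  have hψ : ∀ (y : LinearMap.range (fB ^ m)) (z : LinearMap.ker (fB ^ m)),
      ψ ((y : I → ℂ) + z) = Sum.elim (φ y) (θ z) := by
    intro y z
    have : (y : I → ℂ) + z = e (y, z) := rfl
    rw [this]
    change S.symm ((φ.prodCongr θ) (e.symm (e (y, z)))) = _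
    rw [e.symm_apply_apply]
    rfl
  have hχ : ∀ (y : LinearMap.range (fB ^ m)) (z : LinearMap.ker (fB ^ m)),
      χ ((y : I → ℂ) + z) = Sum.elim (φ' y) (θ' z) := by
    intro y z
    have : (y : I → ℂ) + z = e (y, z) := rfl
    rw [this]
    change S.symm ((φ'.prodCongr θ') (e.symm (e (y, z)))) = _
    rw [e.symm_apply_apply]
    rfl
  have hAψ : ψ.toLinearMap ∘ₗ fA = Matrix.toLin' (stdA ω) ∘ₗ χ.toLinearMap := by
    apply LinearMap.ext
    intro y
    obtain ⟨⟨y1, y2⟩, rfl⟩ := e.surjective y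
    change ψ (fA ((y1 : I → ℂ) + y2)) = stdA ω *ᵥ χ ((y1 : I → ℂ) + y2)
    have h1 : fA ((y1 : I → ℂ) + y2) = ((fA.restrict hA1s y1 : LinearMap.range (fB ^ m)) : I → ℂ) +
        ((fA.restrict hA2s y2 : LinearMap.ker (fB ^ m)) : I → ℂ) := by
      rw [map_add]
      rfl
    rw [h1, hψ, hχ, p1, q2, stdA, pA, Matrix.fromBlocks_mulVec]
    funext z
    rcases z with z | z
    · simp
      rfl
    · simp
  have hBψ : ψ.toLinearMap ∘ₗ fB = Matrix.toLin' (stdB ω) ∘ₗ χ.toLinearMap := by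
    apply LinearMap.ext
    intro y
    obtain ⟨⟨y1, y2⟩, rfl⟩ := e.surjective y
    change ψ (fB ((y1 : I → ℂ) + y2)) = stdB ω *ᵥ χ ((y1 : I → ℂ) + y2)
    have h1 : fB ((y1 : I → ℂ) + y2) = ((fB.restrict hB1s y1 : LinearMap.range (fB ^ m)) : I → ℂ) +
        ((fB.restrict hB2s y2 : LinearMap.ker (fB ^ m)) : I → ℂ) := by
      rw [map_add]
      rfl
    rw [h1, hψ, hχ, p2, q1, stdB, pB, Matrix.fromBlocks_mulVec]
    funext z
    rcases z with z | z
    · simp
    · simp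
      rfl
  have hVψ : ∀ i, ψ (v i) = stdV ω *ᵥ Pi.single i 1 := by
    intro i
    have h1 : v i = (((LinearMap.range (fB ^ m)).projectionOnto (LinearMap.ker (fB ^ m)) hc (v i) :
        LinearMap.range (fB ^ m)) : I → ℂ) +
        (((LinearMap.ker (fB ^ m)).projectionOnto (LinearMap.range (fB ^ m)) hc.symm (v i) :
        LinearMap.ker (fB ^ m)) : I → ℂ) := by
      have hx : v i ∈ LinearMap.range (fB ^ m) ⊔ LinearMap.ker (fB ^ m) := by
        rw [hc.sup_eq_top]
        trivial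
      obtain ⟨y, hy, z, hz, hyz⟩ := Submodule.mem_sup.1 hx
      rw [← hyz, map_add, map_add, Submodule.projectionOnto_apply_of_mem_left hc hy,
        Submodule.projectionOnto_apply_of_mem_right hc hz,
        Submodule.projectionOnto_apply_of_mem_left hc.symm hz,
        Submodule.projectionOnto_apply_of_mem_right hc.symm hy]
      simp
    rw [h1, hψ, p3, q3, Matrix.mulVec_single_one]
    funext z
    rcases z with z | z <;> rfl
  have hMA : LinearMap.toMatrix' ψ.toLinearMap * A1 =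
      stdA ω * LinearMap.toMatrix' χ.toLinearMap :=
    (toMat_mul ψ.toLinearMap A1).trans ((congrArg LinearMap.toMatrix' hAψ).trans
      (mul_toMat χ.toLinearMap (stdA ω)).symm)
  have hMB : LinearMap.toMatrix' ψ.toLinearMap * B1 =
      stdB ω * LinearMap.toMatrix' χ.toLinearMap :=
    (toMat_mul ψ.toLinearMap B1).trans ((congrArg LinearMap.toMatrix' hBψ).trans
      (mul_toMat χ.toLinearMap (stdB ω)).symm)
  refine ⟨a, b, ω, ?_, ⟨p4, ?_⟩, LinearMap.toMatrix' ψ.toLinearMap,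
    LinearMap.toMatrix' ψ.symm.toLinearMap, LinearMap.toMatrix' χ.toLinearMap * D,
    D⁻¹ * LinearMap.toMatrix' χ.symm.toLinearMap, toMat_inv ψ, ?_, ?_, ?_, ?_, ?_, ?_⟩
  · have := ψ.finrank_eq
    rw [Module.finrank_fintype_fun_eq_card, Module.finrank_fintype_fun_eq_card,
      Fintype.card_sum, card_Ix, card_Ix] at this
    exact this.symm
  · intro i y hy
    rcases hy.lt_or_eq with h | h
    · exact q4 i y h
    · exact nil_diag q4 m hdn i y h.symm
  · have := toMat_inv ψ.symm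
    exact this
  · rw [Matrix.mul_assoc, ← Matrix.mul_assoc D, Matrix.mul_nonsing_inv _ hu, Matrix.one_mul]
    exact toMat_inv χ
  · rw [Matrix.mul_assoc, ← Matrix.mul_assoc (LinearMap.toMatrix' χ.symm.toLinearMap)]
    have := toMat_inv χ.symm
    have h2 : LinearMap.toMatrix' χ.symm.toLinearMap * LinearMap.toMatrix' χ.toLinearMap = 1 :=
      this
    rw [h2, Matrix.one_mul, Matrix.nonsing_inv_mul _ hu]
  · exact (congrArg (fun M => LinearMap.toMatrix' ψ.toLinearMap * M) hAD).trans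
      ((Matrix.mul_assoc _ _ _).symm.trans ((congrArg (fun M => M * D) hMA).trans
        (Matrix.mul_assoc _ _ _)))
  · exact (congrArg (fun M => LinearMap.toMatrix' ψ.toLinearMap * M) hBD).trans
      ((Matrix.mul_assoc _ _ _).symm.trans ((congrArg (fun M => M * D) hMB).trans
        (Matrix.mul_assoc _ _ _)))
  · change _ * x.2.2 = stdV ω
    apply Matrix.ext_of_mulVec_single
    intro i
    rw [← Matrix.mulVec_mulVec, ← hVψ, LinearMap.toMatrix'_mulVec]
    rfl

end

end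

end Pool.Agent.Work.MP_196328_ag
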