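import Pool.Agent.Work.MP_196328_ag.Htpy

set_option autoImplicit false

namespace Pool.Agent.Work.MP_196328_ag

noncomputable section

open Matrix

section
variable {n : ℕ}

theorem li_iff (F : Matrix (Fin n) ℕ ℂ) :
    LinearIndependent ℂ F.row ↔ ∀ g : Fin n → ℂ, g ᵥ* F = 0 → g = 0 := by
  rw [Fintype.linearIndependent_iff]
  have key : ∀ g : Fin n → ℂ, ∑ i, g i • F.row i = g ᵥ* F := by
    intro g
    funext m
    rw [Finset.sum_apply]
    rfl
  constructor
  · intro h g hg
    funext i
    exact h g ((key g).trans hg) i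
  · intro h g hg i
    exact congrFun (h g ((key g).symm.trans hg)) i

/-- Shift of a frame by `n + 1`. -/
def shf (F : Matrix (Fin n) ℕ ℂ) : Matrix (Fin n) ℕ ℂ :=
  Matrix.of fun i m => if m < n + 1 then 0 else F i (m - (n + 1))

/-- The standard frame. -/
def stf (n : ℕ) : Matrix (Fin n) ℕ ℂ := Matrix.of fun i m => if m = (i : ℕ) then 1 else 0

theorem vecMul_shf (F : Matrix (Fin n) ℕ ℂ) (g : Fin n → ℂ) (m : ℕ) :
    (g ᵥ* shf F) m = if m < n + 1 then 0 else (g ᵥ* F) (m - (n + 1)) := by
  simp only [Matrix.vecMul, dotProduct, shf, Matrix.of_apply]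
  split_ifs with h
  · simp
  · rfl

theorem vecMul_stf (g : Fin n → ℂ) (i : Fin n) : (g ᵥ* stf n) i = g i := by
  simp only [Matrix.vecMul, dotProduct, stf, Matrix.of_apply]
  rw [Finset.sum_eq_single i]
  · simp
  · intro j _ hj
    rw [if_neg, mul_zero]
    intro h
    exact hj (Fin.ext h.symm)
  · intro h
    exact absurd (Finset.mem_univ _) h

theorem vecMul_stf_ge (g : Fin n → ℂ) (m : ℕ) (hm : n ≤ m) : (g ᵥ* stf n) m = 0 := by
  simp only [Matrix.vecMul, dotProduct, stf, Matrix.of_apply]
  apply Finset.sum_eq_zero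
  intro i _
  rw [if_neg, mul_zero]
  have := i.2
  omega

theorem stf_li : LinearIndependent ℂ (stf n).row := by
  rw [li_iff]
  intro g hg
  funext i
  rw [← vecMul_stf g i, hg]
  rfl

theorem shf_li {F : Matrix (Fin n) ℕ ℂ} (hF : LinearIndependent ℂ F.row) :
    LinearIndependent ℂ (shf F).row := by
  rw [li_iff] at hF ⊢
  intro g hg
  apply hF
  funext m
  have := congrFun hg (m + (n + 1))
  rw [vecMul_shf, if_neg (by omega), Nat.add_sub_cancel] at this
  exact this

theorem hom1_li {F : Matrix (Fin n) ℕ ℂ} (hF : LinearIndependent ℂ F.row) (t : ℝ) :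
    LinearIndependent ℂ ((1 - (t : ℂ)) • stf n + (t : ℂ) • shf F).row := by
  rw [li_iff] at hF ⊢
  intro g hg
  rw [Matrix.vecMul_add, Matrix.vecMul_smul, Matrix.vecMul_smul] at hg
  by_cases ht : (t : ℂ) = 1
  · rw [ht, sub_self, zero_smul, zero_add, one_smul] at hg
    apply hF
    funext m
    have := congrFun hg (m + (n + 1))
    rw [vecMul_shf, if_neg (by omega), Nat.add_sub_cancel] at this
    exact this
  · funext i
    have := congrFun hg i
    rw [Pi.add_apply, Pi.smul_apply, Pi.smul_apply, vecMul_stf, vecMul_shf,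
      if_pos (by have := i.2; omega), smul_zero, add_zero, Pi.zero_apply, smul_eq_mul] at this
    rcases mul_eq_zero.1 this with h | h
    · exact absurd (sub_eq_zero.1 h).symm ht
    · exact h

theorem hom2_li {F : Matrix (Fin n) ℕ ℂ} (hF : LinearIndependent ℂ F.row) (t : ℝ) :
    LinearIndependent ℂ ((1 - (t : ℂ)) • shf F + (t : ℂ) • F).row := by
  rw [li_iff] at hF ⊢
  intro g hg
  rw [Matrix.vecMul_add, Matrix.vecMul_smul, Matrix.vecMul_smul] at hg
  apply hF
  by_cases ht : (t : ℂ) = 0
  · rw [ht, sub_zero, zero_smul, add_zero, one_smul] at hg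
    funext m
    have := congrFun hg (m + (n + 1))
    rw [vecMul_shf, if_neg (by omega), Nat.add_sub_cancel] at this
    exact this
  · funext m
    induction m using Nat.strong_induction_on with
    | _ m ih =>
      have := congrFun hg m
      rw [Pi.add_apply, Pi.smul_apply, Pi.smul_apply, vecMul_shf] at this
      have h0 : (if m < n + 1 then 0 else (g ᵥ* F) (m - (n + 1))) = (0 : ℂ) := by
        split_ifs with h
        · rfl
        · exact ih _ (by omega)
      rw [h0, smul_zero, zero_add, Pi.zero_apply, smul_eq_mul] at this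
      exact (mul_eq_zero.1 this).resolve_left ht

theorem continuous_entry : Continuous (fun F : Frame n => F.1) := continuous_subtype_val

theorem continuous_shf {X : Type*} [TopologicalSpace X] {f : X → Matrix (Fin n) ℕ ℂ}
    (hf : Continuous f) : Continuous (fun x => shf (f x)) := by
  apply continuous_pi
  intro i
  apply continuous_pi
  intro m
  by_cases h : m < n + 1
  · simp only [shf, Matrix.of_apply, if_pos h]
    exact continuous_const
  · simp only [shf, Matrix.of_apply, if_neg h]
    exact (continuous_apply _).comp ((continuous_apply i).comp hf)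

/-- The infinite Stiefel space is contractible. -/
theorem ctr_frame (n : ℕ) : Ctr (Frame n) := by
  let B : C(Frame n, Frame n) := ⟨fun F => ⟨shf F.1, shf_li F.2⟩,
    (continuous_shf continuous_subtype_val).subtype_mk _⟩
  have hc2 : Continuous (fun p : unitInterval × Frame n => (((p.1 : ℝ) : ℂ))) :=
    Complex.continuous_ofReal.comp (continuous_subtype_val.comp continuous_fst)
  have hc1 : Continuous (fun p : unitInterval × Frame n => (1 - ((p.1 : ℝ) : ℂ))) :=
    continuous_const.sub hc2
  have hF : Continuous (fun p : unitInterval × Frame n => p.2.1) :=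
    continuous_subtype_val.comp continuous_snd
  let G1 : ContinuousMap.Homotopy (ContinuousMap.const (Frame n) ⟨stf n, stf_li⟩) B :=
    { toFun := fun p => ⟨(1 - ((p.1 : ℝ) : ℂ)) • stf n + ((p.1 : ℝ) : ℂ) • shf p.2.1,
        hom1_li p.2.2 p.1⟩
      continuous_toFun := ((hc1.smul continuous_const).add
        (hc2.smul (continuous_shf hF))).subtype_mk _
      map_zero_left := by
        intro x
        apply Subtype.ext
        simp
      map_one_left := by
        intro x
        apply Subtype.ext
        simp [B] }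
  let G2 : ContinuousMap.Homotopy B (ContinuousMap.id (Frame n)) :=
    { toFun := fun p => ⟨(1 - ((p.1 : ℝ) : ℂ)) • shf p.2.1 + ((p.1 : ℝ) : ℂ) • p.2.1,
        hom2_li p.2.2 p.1⟩
      continuous_toFun := ((hc1.smul (continuous_shf hF)).add (hc2.smul hF)).subtype_mk _
      map_zero_left := by
        intro x
        apply Subtype.ext
        simp [B]
      map_one_left := by
        intro x
        apply Subtype.ext
        simp }
  let G := G1.trans G2
  refine ⟨⟨stf n, stf_li⟩, G.toContinuousMap.comp ⟨fun p => (p.2, p.1), by fun_prop⟩, ?_, ?_⟩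
  · intro x
    exact G.map_zero_left x
  · intro x
    exact G.map_one_left x

end

end

end Pool.Agent.Work.MP_196328_ag
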