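import Pool.Agent.Work.MP_196328_ag.Chart

set_option autoImplicit false

namespace Pool.Agent.Work.MP_196328_ag

noncomputable section

open Matrix

section
variable {N : ℕ} {I I' : Type*} [Fintype I] [DecidableEq I] [Fintype I'] [DecidableEq I']

/-- Triples of a pencil with a tuple of vectors. -/
abbrev Tri (N : ℕ) (I : Type*) := Matrix I I ℂ × Matrix I I ℂ × Matrix I (Fin N) ℂ

/-- The pencil is regular and the vectors generate its cokernel. -/
def Gen (x : Tri N I) : Prop :=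
  (∃ s t : ℂ, (s • x.1 + t • x.2.1).det ≠ 0) ∧
    ∀ (ξ : I → ℂ) (s t : ℂ), (s, t) ≠ (0, 0) → ξ ≠ 0 → ξ ᵥ* (s • x.1 + t • x.2.1) = 0 →
      ξ ᵥ* x.2.2 ≠ 0

/-- Isomorphism of triples. -/
def IsoP (x : Tri N I) (y : Tri N I') : Prop :=
  ∃ (h : Matrix I' I ℂ) (h' : Matrix I I' ℂ) (g : Matrix I' I ℂ) (g' : Matrix I I' ℂ),
    h * h' = 1 ∧ h' * h = 1 ∧ g * g' = 1 ∧ g' * g = 1 ∧
      h * x.1 = y.1 * g ∧ h * x.2.1 = y.2.1 * g ∧ h * x.2.2 = y.2.2

theorem IsoP.symm {x : Tri N I} {y : Tri N I'} (hxy : IsoP x y) : IsoP y x := by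
  obtain ⟨h, h', g, g', h1, h2, h3, h4, h5, h6, h7⟩ := hxy
  refine ⟨h', h, g', g, h2, h1, h4, h3, ?_, ?_, ?_⟩
  · calc h' * y.1 = h' * (y.1 * g) * g' := by
          rw [Matrix.mul_assoc, Matrix.mul_assoc, h3, Matrix.mul_one]
      _ = x.1 * g' := by
          rw [← h5, ← Matrix.mul_assoc, h2, Matrix.one_mul]
  · calc h' * y.2.1 = h' * (y.2.1 * g) * g' := by
          rw [Matrix.mul_assoc, Matrix.mul_assoc, h3, Matrix.mul_one]
      _ = x.2.1 * g' := by
          rw [← h6, ← Matrix.mul_assoc, h2, Matrix.one_mul]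
  · rw [← h7, ← Matrix.mul_assoc, h2, Matrix.one_mul]

theorem IsoP.trans {I'' : Type*} [Fintype I''] [DecidableEq I''] {x : Tri N I} {y : Tri N I'}
    {z : Tri N I''} (hxy : IsoP x y) (hyz : IsoP y z) : IsoP x z := by
  obtain ⟨h, h', g, g', h1, h2, h3, h4, h5, h6, h7⟩ := hxy
  obtain ⟨k, k', l, l', k1, k2, k3, k4, k5, k6, k7⟩ := hyz
  refine ⟨k * h, h' * k', l * g, g' * l', ?_, ?_, ?_, ?_, ?_, ?_, ?_⟩
  · rw [Matrix.mul_assoc, ← Matrix.mul_assoc h, h1, Matrix.one_mul, k1]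
  · rw [Matrix.mul_assoc, ← Matrix.mul_assoc k', k2, Matrix.one_mul, h2]
  · rw [Matrix.mul_assoc, ← Matrix.mul_assoc g, h3, Matrix.one_mul, k3]
  · rw [Matrix.mul_assoc, ← Matrix.mul_assoc l', k4, Matrix.one_mul, h4]
  · rw [Matrix.mul_assoc, h5, ← Matrix.mul_assoc, k5, Matrix.mul_assoc]
  · rw [Matrix.mul_assoc, h6, ← Matrix.mul_assoc, k6, Matrix.mul_assoc]
  · rw [Matrix.mul_assoc, h7, k7]

theorem Gen.iso {x : Tri N I} {y : Tri N I'} (hx : Gen x) (hxy : IsoP x y) : Gen y := by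
  obtain ⟨h, h', g, g', h1, h2, h3, h4, h5, h6, h7⟩ := hxy
  obtain ⟨⟨s, t, hst⟩, hg⟩ := hx
  have hcomb : ∀ s t : ℂ, h * (s • x.1 + t • x.2.1) = (s • y.1 + t • y.2.1) * g := by
    intro s t
    rw [Matrix.mul_add, Matrix.mul_smul, Matrix.mul_smul, h5, h6, Matrix.add_mul,
      Matrix.smul_mul, Matrix.smul_mul]
  refine ⟨⟨s, t, ?_⟩, ?_⟩
  · have hu : IsUnit (s • x.1 + t • x.2.1).det := hst.isUnit
    have : (s • y.1 + t • y.2.1) * (g * (s • x.1 + t • x.2.1)⁻¹ * h') = 1 := by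
      rw [← Matrix.mul_assoc, ← Matrix.mul_assoc, ← hcomb, Matrix.mul_assoc h,
        Matrix.mul_nonsing_inv _ hu, Matrix.mul_one, h1]
    intro h0
    have h8 := congrArg Matrix.det this
    rw [Matrix.det_mul, h0, zero_mul, Matrix.det_one] at h8
    exact zero_ne_one h8
  · intro ξ s t hne hξ h0
    have e1 : (ξ ᵥ* h) ᵥ* (s • x.1 + t • x.2.1) = 0 := by
      rw [Matrix.vecMul_vecMul, hcomb, ← Matrix.vecMul_vecMul, h0, Matrix.zero_vecMul]
    have e2 : ξ ᵥ* h ≠ 0 := by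
      intro h8
      apply hξ
      have : ξ = (ξ ᵥ* h) ᵥ* h' := by
        rw [Matrix.vecMul_vecMul, h1, Matrix.vecMul_one]
      rw [this, h8, Matrix.zero_vecMul]
    have := hg _ s t hne e2 e1
    rw [Matrix.vecMul_vecMul, h7] at this
    exact this

/-- Reindexing of a triple. -/
def reT (e : I' ≃ I) (x : Tri N I) : Tri N I' :=
  (x.1.submatrix e e, x.2.1.submatrix e e, x.2.2.submatrix e id)

theorem isoP_reT (e : I' ≃ I) (x : Tri N I) : IsoP x (reT e x) := by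
  have h1 : ((1 : Matrix I I ℂ).submatrix e id) * ((1 : Matrix I I ℂ).submatrix id e) =
      (1 : Matrix I' I' ℂ) := by
    have := Matrix.submatrix_mul_equiv (1 : Matrix I I ℂ) (1 : Matrix I I ℂ) e (Equiv.refl I) e
    rw [Matrix.one_mul, Matrix.submatrix_one_equiv] at this
    exact this
  have h2 : ((1 : Matrix I I ℂ).submatrix id e) * ((1 : Matrix I I ℂ).submatrix e id) =
      (1 : Matrix I I ℂ) := by
    have := Matrix.submatrix_mul_equiv (1 : Matrix I I ℂ) (1 : Matrix I I ℂ) (Equiv.refl I) e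
      (Equiv.refl I)
    rw [Matrix.one_mul] at this
    exact this
  have h3 : ∀ M : Matrix I I ℂ, ((1 : Matrix I I ℂ).submatrix e id) * M =
      M.submatrix e e * ((1 : Matrix I I ℂ).submatrix e id) := by
    intro M
    have e1 := Matrix.submatrix_mul_equiv (1 : Matrix I I ℂ) M e (Equiv.refl I) (Equiv.refl I)
    have e2 := Matrix.submatrix_mul_equiv M (1 : Matrix I I ℂ) e e (Equiv.refl I)
    rw [Matrix.one_mul] at e1
    rw [Matrix.mul_one] at e2
    exact e1.trans e2.symm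
  refine ⟨(1 : Matrix I I ℂ).submatrix e id, (1 : Matrix I I ℂ).submatrix id e,
    (1 : Matrix I I ℂ).submatrix e id, (1 : Matrix I I ℂ).submatrix id e, h1, h2, h1, h2,
    h3 _, h3 _, ?_⟩
  have := Matrix.submatrix_mul_equiv (1 : Matrix I I ℂ) x.2.2 e (Equiv.refl I)
    (Equiv.refl (Fin N))
  rw [Matrix.one_mul] at this
  exact this

end

section
variable {N : ℕ} {a b : Fin N → ℕ}

/-- The standard triple of the chart. -/
def std (ω : Kx a b → ℂ) : Tri N (Ix a ⊕ Ix b) := (stdA ω, stdB ω, stdV ω)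

theorem eig_pow {I : Type*} [Fintype I] [DecidableEq I] (Z : Matrix I I ℂ) (ξ : I → ℂ) (l : ℂ)
    (h : ξ ᵥ* Z = l • ξ) (m : ℕ) : ξ ᵥ* (Z ^ m) = l ^ m • ξ := by
  induction m with
  | zero => simp
  | succ m ih =>
    rw [pow_succ, ← Matrix.vecMul_vecMul, ih, Matrix.smul_vecMul, h, smul_smul, pow_succ]

theorem eig_bound {I : Type*} [Fintype I] [DecidableEq I] (Z : Matrix I I ℂ) (ξ : I → ℂ) (l : ℂ)
    (hξ : ξ ≠ 0) (h : ξ ᵥ* Z = l • ξ) (m : ℕ) : ‖l‖ ^ m ≤ nrm (Z ^ m) := by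
  have h1 := eig_pow Z ξ l h m
  have hpos : 0 < ∑ i, ‖ξ i‖ := by
    obtain ⟨i, hi⟩ := Function.ne_iff.1 hξ
    exact lt_of_lt_of_le (norm_pos_iff.2 hi)
      (Finset.single_le_sum (f := fun i => ‖ξ i‖) (fun _ _ => norm_nonneg _) (Finset.mem_univ i))
  have h2 : ‖l‖ ^ m * ∑ i, ‖ξ i‖ ≤ (∑ i, ‖ξ i‖) * nrm (Z ^ m) := by
    have h3 : ‖l‖ ^ m * ∑ i, ‖ξ i‖ = ∑ j, ‖(ξ ᵥ* (Z ^ m)) j‖ := by
      rw [h1, Finset.mul_sum]
      apply Finset.sum_congr rfl
      intro j _
      rw [Pi.smul_apply, smul_eq_mul, norm_mul, norm_pow]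
    rw [h3]
    have h4 : ∀ j, ‖(ξ ᵥ* (Z ^ m)) j‖ ≤ ∑ i, ‖ξ i‖ * ‖(Z ^ m) i j‖ := by
      intro j
      simp only [Matrix.vecMul, dotProduct]
      refine (norm_sum_le _ _).trans (le_of_eq ?_)
      apply Finset.sum_congr rfl
      intro i _
      rw [norm_mul]
    refine (Finset.sum_le_sum (fun j _ => h4 j)).trans ?_
    rw [Finset.sum_comm, Finset.sum_mul]
    apply Finset.sum_le_sum
    intro i _
    rw [← Finset.mul_sum]
    apply mul_le_mul_of_nonneg_left _ (norm_nonneg _)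
    exact Finset.single_le_sum (f := fun i => ∑ j, ‖(Z ^ m) i j‖)
      (fun _ _ => Finset.sum_nonneg (fun _ _ => norm_nonneg _)) (Finset.mem_univ i)
  rw [mul_comm (∑ i, ‖ξ i‖)] at h2
  exact le_of_mul_le_mul_right h2 hpos

theorem eig_gen (c : Fin N → Ix a → ℂ) (ξ : Ix a → ℂ) (l : ℂ)
    (h : ξ ᵥ* (cmp a c) = l • ξ) (hv : ξ ᵥ* (cvec a c) = 0) : ξ = 0 := by
  have key : ∀ i m, m ≤ a i → ξ ⬝ᵥ (nxt a c i m) = 0 := by
    intro i m
    induction m with
    | zero =>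
      intro _
      have := congrFun hv i
      exact this
    | succ m ih =>
      intro hm
      rw [← cmp_nxt i m hm, Matrix.dotProduct_mulVec, h, smul_dotProduct,
        ih (Nat.le_of_succ_le hm), smul_zero]
  funext y
  have := key y.1 y.2 y.2.2.le
  rw [nxt_lt] at this
  simpa using this

theorem exists_reg {I J : Type*} [Fintype I] [DecidableEq I] [Fintype J] [DecidableEq J]
    (Z : Matrix I I ℂ) (W : Matrix J J ℂ) :
    ∃ t : ℂ, (Z + t • 1).det ≠ 0 ∧ (1 + t • W).det ≠ 0 := by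
  classical
  obtain ⟨t, ht⟩ := Infinite.exists_notMem_finset
    ((-Z).charpoly.roots.toFinset ∪ (-W).charpoly.roots.toFinset.image (fun x => x⁻¹) ∪ {0})
  simp only [Finset.mem_union, not_or, Finset.mem_image, Multiset.mem_toFinset,
    Finset.mem_singleton, not_exists, not_and] at ht
  obtain ⟨⟨h1, h2⟩, h3⟩ := ht
  refine ⟨t, ?_, ?_⟩
  · intro h0
    apply h1
    rw [Polynomial.mem_roots (Matrix.charpoly_monic _).ne_zero, Polynomial.IsRoot.def,
      Matrix.eval_charpoly]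
    rw [← h0]
    congr 1
    rw [sub_neg_eq_add, add_comm, Matrix.scalar_apply, Matrix.smul_one_eq_diagonal]
  · intro h0
    apply h2 t⁻¹ _ (inv_inv t)
    rw [Polynomial.mem_roots (Matrix.charpoly_monic _).ne_zero, Polynomial.IsRoot.def,
      Matrix.eval_charpoly]
    have : (Matrix.scalar J) t⁻¹ - -W = t⁻¹ • (1 + t • W) := by
      rw [smul_add, smul_smul, inv_mul_cancel₀ h3, one_smul, sub_neg_eq_add, Matrix.scalar_apply,
        Matrix.smul_one_eq_diagonal]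
    rw [this, Matrix.det_smul, h0, mul_zero]

theorem gen_std {n : ℕ} {ω : Kx a b → ℂ} (hω : Dom n ω) : Gen (std ω) := by
  have hcomb : ∀ s t : ℂ, s • stdA ω + t • stdB ω =
      Matrix.fromBlocks (s • cmp a (cpart ω) + t • 1) 0 0 (s • 1 + t • cmp b (dpart ω)) := by
    intro s t
    rw [stdA, stdB, pA, pB, Matrix.fromBlocks_smul, Matrix.fromBlocks_smul,
      Matrix.fromBlocks_add]
    simp
  refine ⟨?_, ?_⟩
  · obtain ⟨t, h1, h2⟩ := exists_reg (cmp a (cpart ω)) (cmp b (dpart ω))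
    refine ⟨1, t, ?_⟩
    change ((1 : ℂ) • stdA ω + t • stdB ω).det ≠ 0
    rw [hcomb, Matrix.det_fromBlocks_zero₁₂, one_smul, one_smul]
    exact mul_ne_zero h1 h2
  · intro ξ s t hne hξ h0 hv
    change ξ ᵥ* (s • stdA ω + t • stdB ω) = 0 at h0
    change ξ ᵥ* stdV ω = 0 at hv
    rw [hcomb, Matrix.vecMul_fromBlocks] at h0
    rw [stdV, Matrix.vecMul_fromRows] at hv
    set ξ₁ := ξ ∘ Sum.inl with hξ₁
    set ξ₂ := ξ ∘ Sum.inr with hξ₂
    have k1 : ξ₁ ᵥ* (s • cmp a (cpart ω) + t • 1) = 0 := by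
      have := congrArg (fun x => x ∘ Sum.inl) h0
      simpa using this
    have k2 : ξ₂ ᵥ* (s • 1 + t • cmp b (dpart ω)) = 0 := by
      have := congrArg (fun x => x ∘ Sum.inr) h0
      simpa using this
    rw [Matrix.vecMul_add, Matrix.vecMul_smul, Matrix.vecMul_smul, Matrix.vecMul_one] at k1 k2
    have m1 : ξ₁ ≠ 0 → s ≠ 0 ∧ ξ₁ ᵥ* cmp a (cpart ω) = (-t / s) • ξ₁ := by
      intro hn
      have hs : s ≠ 0 := by
        rintro rfl
        rw [zero_smul, zero_add] at k1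
        rcases smul_eq_zero.1 k1 with h | h
        · exact hne (by rw [h])
        · exact hn h
      refine ⟨hs, ?_⟩
      funext y
      have := congrFun k1 y
      simp only [Pi.add_apply, Pi.smul_apply, smul_eq_mul, Pi.zero_apply] at this ⊢
      field_simp
      linear_combination this
    have m2 : ξ₂ ≠ 0 → t ≠ 0 ∧ ξ₂ ᵥ* cmp b (dpart ω) = (-s / t) • ξ₂ := by
      intro hn
      have ht : t ≠ 0 := by
        rintro rfl
        rw [zero_smul, add_zero] at k2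
        rcases smul_eq_zero.1 k2 with h | h
        · exact hne (by rw [h])
        · exact hn h
      refine ⟨ht, ?_⟩
      funext y
      have := congrFun k2 y
      simp only [Pi.add_apply, Pi.smul_apply, smul_eq_mul, Pi.zero_apply] at this ⊢
      field_simp
      linear_combination this
    by_cases z1 : ξ₁ = 0
    · have z2 : ξ₂ ≠ 0 := by
        intro z2
        apply hξ
        funext x
        rcases x with x | x
        · exact congrFun z1 x
        · exact congrFun z2 x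
      rw [z1, Matrix.zero_vecMul, zero_add] at hv
      exact z2 (eig_gen _ _ _ (m2 z2).2 hv)
    · by_cases z2 : ξ₂ = 0
      · rw [z2, Matrix.zero_vecMul, add_zero] at hv
        exact z1 (eig_gen _ _ _ (m1 z1).2 hv)
      · obtain ⟨hs, e1⟩ := m1 z1
        obtain ⟨ht, e2⟩ := m2 z2
        have b1 := eig_bound _ _ _ z1 e1 n
        have b2 := eig_bound _ _ _ z2 e2 n
        have hd : nrm ((cmp a (cpart ω)) ^ n) * nrm ((cmp b (dpart ω)) ^ n) < 1 := hω
        have : ‖-t / s‖ ^ n * ‖-s / t‖ ^ n = 1 := by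
          rw [← mul_pow, ← norm_mul]
          have : -t / s * (-s / t) = 1 := by field_simp
          rw [this, norm_one, one_pow]
        have h3 : ‖-t / s‖ ^ n * ‖-s / t‖ ^ n ≤
            nrm ((cmp a (cpart ω)) ^ n) * nrm ((cmp b (dpart ω)) ^ n) :=
          mul_le_mul b1 b2 (by positivity) (nrm_nonneg _)
        linarith

end

end

end Pool.Agent.Work.MP_196328_ag
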