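import Pool.Agent.Work.MP_196328_ag.Small

set_option autoImplicit false

namespace Pool.Agent.Work.MP_196328_ag

noncomputable section

section
variable {V W : Type*} [NormedAddCommGroup V] [NormedSpace ℝ V]
  [NormedAddCommGroup W] [NormedSpace ℝ W]

/-- The cylinder over a convex set. -/
abbrev Cyl (K : Set V) : Set (V × ℝ) := K ×ˢ Set.Icc (0 : ℝ) 1

instance (K : Set V) [hK : Fact (Convex ℝ K)] : Fact (Convex ℝ (Cyl K)) :=
  ⟨hK.out.prod (convex_Icc 0 1)⟩

/-- The section of the cylinder at height `t`. -/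
def lev (K : Set V) (t : unitInterval) : C(K, Cyl K) where
  toFun x := ⟨((x : V), (t : ℝ)), ⟨x.2, t.2⟩⟩
  continuous_toFun := by
    apply Continuous.subtype_mk
    exact continuous_subtype_val.prodMk continuous_const

theorem aff_cyl (K : Set V) [Fact (Convex ℝ K)] {m : ℕ} (p : Fin m → Cyl K) (t : Simp m) :
    ((aff (Cyl K) p t : Cyl K) : V × ℝ) =
      (((aff K (fun i => (⟨(p i).1.1, (p i).2.1⟩ : K)) t : K) : V), ∑ i, t.1 i * (p i).1.2) := by
  rw [aff_coe]
  apply Prod.ext
  · simp only [Prod.fst_sum, Prod.smul_fst]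
    rfl
  · simp only [Prod.snd_sum, Prod.smul_snd, smul_eq_mul]

theorem affMap_lev (K : Set V) [Fact (Convex ℝ K)] (s : unitInterval) : AffMap (lev K s) := by
  intro m p t
  apply Subtype.ext
  rw [aff_cyl]
  apply Prod.ext
  · rfl
  · simp only [lev, ContinuousMap.coe_mk, Function.comp_apply]
    rw [← Finset.sum_mul, t.2.2, one_mul]

/-- The product of a map with the interval. -/
def cylMap {K : Set V} {L : Set W} (φ : C(K, L)) : C(Cyl K, Cyl L) where
  toFun x := ⟨((φ ⟨x.1.1, x.2.1⟩ : W), x.1.2), ⟨(φ ⟨x.1.1, x.2.1⟩).2, x.2.2⟩⟩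
  continuous_toFun := by
    apply Continuous.subtype_mk
    apply Continuous.prodMk
    · apply continuous_subtype_val.comp
      apply φ.continuous.comp
      apply Continuous.subtype_mk
      exact continuous_fst.comp continuous_subtype_val
    · exact continuous_snd.comp continuous_subtype_val

theorem affMap_cylMap {K : Set V} {L : Set W} [Fact (Convex ℝ K)] [Fact (Convex ℝ L)]
    (φ : C(K, L)) (hφ : AffMap φ) : AffMap (cylMap φ) := by
  intro m p t
  apply Subtype.ext
  rw [aff_cyl]
  apply Prod.ext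
  · change (φ ⟨(aff (Cyl K) p t).1.1, _⟩ : W) = _
    have h1 : (⟨(aff (Cyl K) p t).1.1, (aff (Cyl K) p t).2.1⟩ : K) =
        aff K (fun i => (⟨(p i).1.1, (p i).2.1⟩ : K)) t := by
      apply Subtype.ext
      exact congrArg Prod.fst (aff_cyl K p t)
    rw [h1, hφ]
    rfl
  · change (aff (Cyl K) p t).1.2 = _
    rw [aff_cyl]
    rfl

/-- The cone point of the prism. -/
def cpt (K : Set V) [Fact (Convex ℝ K)] {n : ℕ} (p : Fin (n + 1) → K) : Cyl K :=
  lev K ⟨1 / 2, by constructor <;> norm_num⟩ (bary K p)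

variable (k : Type*) [CommRing k]

/-- The prism operator on tuple chains. -/
def Pop (K : Set V) [Fact (Convex ℝ K)] : ∀ n, LC k K n →ₗ[k] LC k (Cyl K) (n + 1) :=
  Dop k (fun n => mapT k (lev K 1) n) (fun n => mapT k (lev K 0) n) (fun _ p => cpt K p)

theorem lbd_Pop (K : Set V) [Fact (Convex ℝ K)] (n : ℕ) (x : LC k K (n + 1)) :
    lbd k (n + 1) (Pop k K (n + 1) x) =
      mapT k (lev K 1) (n + 1) x - mapT k (lev K 0) (n + 1) x - Pop k K n (lbd k n x) := by
  rw [Pop]
  apply lbd_Dop
  · intro n x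
    exact mapT_lbd k _ n x
  · intro n x
    exact mapT_lbd k _ n x
  · intro x
    have : mapT k (lev K 1) 0 = mapT k (lev K 0) 0 := by
      apply hom_ext
      intro p
      rw [mapT_single, mapT_single]
      congr 1
      exact Subsingleton.elim _ _
    rw [this]

theorem Pop_mapT {K : Set V} {L : Set W} [Fact (Convex ℝ K)] [Fact (Convex ℝ L)] (φ : C(K, L))
    (hφ : AffMap φ) (n : ℕ) (c : LC k K n) :
    mapT k (cylMap φ) (n + 1) (Pop k K n c) = Pop k L n (mapT k φ n c) := by
  have hlev : ∀ (t : unitInterval) (n : ℕ) (x : LC k K n),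
      mapT k (cylMap φ) n (mapT k (lev K t) n x) = mapT k (lev L t) n (mapT k φ n x) := by
    intro t n x
    have : (mapT k (cylMap φ) n) ∘ₗ (mapT k (lev K t) n) =
        (mapT k (lev L t) n) ∘ₗ (mapT k φ n) := by
      apply hom_ext
      intro p
      rw [LinearMap.comp_apply, LinearMap.comp_apply, mapT_single, mapT_single, mapT_single,
        mapT_single]
      rfl
    exact LinearMap.congr_fun this x
  rw [Pop, Pop]
  apply Dop_mapT
  · exact hlev 1
  · exact hlev 0
  · intro n p
    rw [cpt, cpt, ← bary_map hφ p]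
    rfl

end

section
variable (k : Type*) [CommRing k] {X Y Z : Type*} [TopologicalSpace X] [TopologicalSpace Y]
  [TopologicalSpace Z]

/-- The product of a simplex with the interval. -/
def sI {V : Type*} [NormedAddCommGroup V] [NormedSpace ℝ V] {K : Set V}
    (σ : C(K, X)) : C(Cyl K, X × unitInterval) where
  toFun x := (σ ⟨x.1.1, x.2.1⟩, ⟨x.1.2, x.2.2⟩)
  continuous_toFun := by
    apply Continuous.prodMk
    · apply σ.continuous.comp
      apply Continuous.subtype_mk
      exact continuous_fst.comp continuous_subtype_val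
    · apply Continuous.subtype_mk
      exact continuous_snd.comp continuous_subtype_val

/-- The chain homotopy given by a homotopy. -/
def chP (H : C(X × unitInterval, Y)) (n : ℕ) : Ch k X n →ₗ[k] Ch k Y (n + 1) :=
  Finsupp.linearCombination k
    (fun σ => push k (H.comp (sI σ)) (n + 1) (Pop k (Simp n) n (Finsupp.single (vert n) 1)))

theorem chP_single (H : C(X × unitInterval, Y)) (n : ℕ) (σ : C(Simp n, X)) :
    chP k H n (Finsupp.single σ 1) =
      push k (H.comp (sI σ)) (n + 1) (Pop k (Simp n) n (Finsupp.single (vert n) 1)) := by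
  rw [chP, Finsupp.linearCombination_single, one_smul]

theorem chP_push {V : Type*} [NormedAddCommGroup V] [NormedSpace ℝ V] {K : Set V}
    [Fact (Convex ℝ K)] (H : C(X × unitInterval, Y)) (σ : C(K, X)) (n : ℕ) (c : LC k K n) :
    chP k H n (push k σ n c) = push k (H.comp (sI σ)) (n + 1) (Pop k K n c) := by
  have : (chP k H n) ∘ₗ (push k σ n) = (push k (H.comp (sI σ)) (n + 1)) ∘ₗ (Pop k K n) := by
    apply hom_ext
    intro p
    rw [LinearMap.comp_apply, LinearMap.comp_apply, push_single, chP_single]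
    have hp : Finsupp.single p (1 : k) = mapT k (aff K p) n (Finsupp.single (vert n) 1) := by
      rw [mapT_single]
      congr 1
      funext i
      apply Subtype.ext
      rw [Function.comp_apply, aff_coe]
      simp only [vert, stdSimplex.vertex]
      rw [Finset.sum_eq_single i]
      · simp
      · intro j _ hji
        rw [Pi.single_apply, if_neg hji, zero_smul]
      · intro h; simp at h
    have ha : AffMap (aff K p : Simp n → K) := by
      apply affMap_of_linear _ (Fintype.linearCombination ℝ (fun i => (p i : V)))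
      intro x
      rw [aff_coe, Fintype.linearCombination_apply]
    rw [hp, ← Pop_mapT k _ ha, push_mapT k _ (affMap_cylMap _ ha)]
    rfl
  exact LinearMap.congr_fun this c

/-- The end maps of a homotopy. -/
def endMap (H : C(X × unitInterval, Y)) (t : unitInterval) : C(X, Y) :=
  H.comp (ContinuousMap.prodMk (ContinuousMap.id X) (ContinuousMap.const X t))

theorem bd_chP (H : C(X × unitInterval, Y)) (n : ℕ) (c : Ch k X (n + 1)) :
    bd k (n + 1) (chP k H (n + 1) c) =
      chMap k (endMap H 1) (n + 1) c - chMap k (endMap H 0) (n + 1) c - chP k H n (bd k n c) := by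
  have : (bd k (n + 1)) ∘ₗ (chP k H (n + 1)) =
      chMap k (endMap H 1) (n + 1) - chMap k (endMap H 0) (n + 1) - (chP k H n) ∘ₗ (bd k n) := by
    apply ch_ext
    intro σ
    simp only [LinearMap.sub_apply, LinearMap.comp_apply]
    rw [← push_vert, ← push_lbd, chP_push, chP_push, ← push_lbd, lbd_Pop, map_sub,
      map_sub, push_mapT k _ (affMap_lev _ _), push_mapT k _ (affMap_lev _ _), chMap_push,
      chMap_push]
    rfl
  exact LinearMap.congr_fun this c

/-- Vanishing of reduced homology in one degree. -/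
def VanS (X : Type*) [TopologicalSpace X] (m : ℕ) : Prop :=
  ∀ z : Ch k X m, IsCyc k m z → ∃ w : Ch k X (m + 1), bd k m w = z

instance (X : Type*) [TopologicalSpace X] : Subsingleton C(Simp 0, X) := by
  constructor
  intro σ τ
  ext t
  have := t.2.2
  simp at this

theorem isCyc_chMap (f : C(X, Y)) (m : ℕ) (z : Ch k X m) (hz : IsCyc k m z) :
    IsCyc k m (chMap k f m z) := by
  cases m with
  | zero => trivial
  | succ m =>
    change bd k m z = 0 at hz
    change bd k m (chMap k f (m + 1) z) = 0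
    rw [← chMap_bd, hz, map_zero]

/-- Homotopy invariance. -/
theorem vanS_of_retract {m : ℕ} (h : VanS k Y m) (f : C(X, Y)) (g : C(Y, X))
    (H : C(X × unitInterval, X)) (H0 : ∀ x, H (x, 0) = g (f x)) (H1 : ∀ x, H (x, 1) = x) :
    VanS k X m := by
  intro z hz
  obtain ⟨w, hw⟩ := h _ (isCyc_chMap k f m z hz)
  have e0 : endMap H 0 = g.comp f := by
    ext x
    exact H0 x
  have e1 : endMap H 1 = ContinuousMap.id X := by
    ext x
    exact H1 x
  cases m with
  | zero =>
    refine ⟨chMap k g 1 w, ?_⟩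
    rw [← chMap_bd, hw]
    have : (chMap k g 0) ∘ₗ (chMap k f 0) = LinearMap.id := by
      apply ch_ext
      intro σ
      rw [LinearMap.comp_apply, chMap_single, chMap_single, LinearMap.id_apply]
      congr 1
      exact Subsingleton.elim _ _
    exact LinearMap.congr_fun this z
  | succ m =>
    change bd k m z = 0 at hz
    refine ⟨chMap k g (m + 2) w + chP k H (m + 1) z, ?_⟩
    rw [map_add, bd_chP, ← chMap_bd, hw, e0, e1, chMap_id, chMap_comp, hz, map_zero, sub_zero]
    abel

theorem vanS_unit (m : ℕ) : VanS k PUnit m := by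
  have hsub : ∀ n, ∀ σ τ : C(Simp n, PUnit), σ = τ := by
    intro n σ τ
    ext t
  have hone : ∀ n, ∀ c : Ch k PUnit n,
      c = c (ContinuousMap.const _ PUnit.unit) •
        Finsupp.single (ContinuousMap.const _ PUnit.unit) (1 : k) := by
    intro n c
    ext σ
    rw [hsub n σ (ContinuousMap.const _ PUnit.unit)]
    simp
  have hbd : ∀ n, bd k n (Finsupp.single (ContinuousMap.const (Simp (n + 1)) PUnit.unit) (1 : k)) =
      (if Even (n + 1) then (0 : k) else 1) •
        Finsupp.single (ContinuousMap.const (Simp n) PUnit.unit) (1 : k) := by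
    intro n
    rw [bd_single, ← Fin.sum_neg_one_pow, Finset.sum_smul]
    rfl
  intro z hz
  by_cases hm : Even m
  · refine ⟨z (ContinuousMap.const _ PUnit.unit) •
      Finsupp.single (ContinuousMap.const _ PUnit.unit) (1 : k), ?_⟩
    rw [map_smul, hbd, if_neg, one_smul, ← hone]
    rw [Nat.even_add_one]
    exact fun h => h hm
  · refine ⟨0, ?_⟩
    rw [map_zero]
    cases m with
    | zero => exact absurd Even.zero hm
    | succ m =>
      change bd k m z = 0 at hz
      rw [hone _ z, map_smul, hbd, if_neg hm, one_smul] at hz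
      have := DFunLike.congr_fun hz (ContinuousMap.const _ PUnit.unit)
      simp at this
      rw [hone _ z, this, zero_smul]

/-- Contraction data. -/
def Ctr (X : Type*) [TopologicalSpace X] : Prop :=
  ∃ (x0 : X) (H : C(X × unitInterval, X)), (∀ x, H (x, 0) = x0) ∧ ∀ x, H (x, 1) = x

theorem vanS_of_ctr (h : Ctr X) (m : ℕ) : VanS k X m := by
  obtain ⟨x0, H, h0, h1⟩ := h
  exact vanS_of_retract k (vanS_unit.{_, 0} k m) (ContinuousMap.const X PUnit.unit)
    (ContinuousMap.const PUnit x0) H h0 h1

theorem vanS_zero [Nonempty X] : VanS k X 0 := by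
  intro z _
  obtain ⟨x0⟩ := ‹Nonempty X›
  refine ⟨z (ContinuousMap.const _ x0) • Finsupp.single (ContinuousMap.const _ x0) 1, ?_⟩
  rw [map_smul, bd_single]
  ext σ
  rw [Subsingleton.elim σ (ContinuousMap.const _ x0)]
  rw [Fin.sum_univ_succ]
  rw [Subsingleton.elim ((ContinuousMap.const (Simp (0 + 1)) x0).comp (face (0 : Fin (0 + 1))))
    (ContinuousMap.const _ x0)]
  simp

theorem vanS_empty [IsEmpty X] (m : ℕ) : VanS k X (m + 1) := by
  intro z _
  refine ⟨0, ?_⟩
  rw [map_zero]
  ext σ
  exact isEmptyElim (σ (vert (m + 1) 0))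

theorem Ctr.prod (hX : Ctr X) (hY : Ctr Y) : Ctr (X × Y) := by
  obtain ⟨x0, H, h0, h1⟩ := hX
  obtain ⟨y0, G, g0, g1⟩ := hY
  refine ⟨(x0, y0), ⟨fun p => (H (p.1.1, p.2), G (p.1.2, p.2)), by fun_prop⟩, ?_, ?_⟩
  · rintro ⟨x, y⟩
    simp [h0, g0]
  · rintro ⟨x, y⟩
    simp [h1, g1]

theorem lift_Sup {m : ℕ} (θ : X → Y) (hθ : Topology.IsEmbedding θ) (z : Ch k Y m)
    (hz : z ∈ Sup k (Set.range θ) m) : ∃ z' : Ch k X m, chMap k ⟨θ, hθ.continuous⟩ m z' = z := by
  rw [Sup, Finsupp.supported_eq_span_single] at hz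
  induction hz using Submodule.span_induction with
  | mem x h =>
    obtain ⟨σ, hσ, rfl⟩ := h
    choose τ hτ using fun t => hσ (Set.mem_range_self t)
    have hcont : Continuous τ := by
      rw [hθ.continuous_iff]
      have : θ ∘ τ = σ := by
        funext t
        exact hτ t
      rw [this]
      exact σ.continuous
    refine ⟨Finsupp.single ⟨τ, hcont⟩ 1, ?_⟩
    rw [chMap_single]
    congr 1
    ext t
    exact hτ t
  | zero => exact ⟨0, map_zero _⟩
  | add x y _ _ hx hy =>
    obtain ⟨a, ha⟩ := hx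
    obtain ⟨b, hb⟩ := hy
    exact ⟨a + b, by rw [map_add, ha, hb]⟩
  | smul a x _ hx =>
    obtain ⟨b, hb⟩ := hx
    exact ⟨a • b, by rw [map_smul, hb]⟩

theorem chMap_injective {m : ℕ} (θ : C(X, Y)) (hθ : Function.Injective θ) :
    Function.Injective (chMap k θ m) := by
  apply Finsupp.mapDomain_injective
  intro σ τ h
  ext t
  exact hθ (DFunLike.congr_fun h t)

/-- Transfer along an embedding. -/
theorem vanOn_of_embedding {m : ℕ} (θ : X → Y) (hθ : Topology.IsEmbedding θ)
    (h : VanS k X m) : VanOn k (Set.range θ) m := by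
  intro z hz hc
  obtain ⟨z', hz'⟩ := lift_Sup k θ hθ z hz
  have hc' : IsCyc k m z' := by
    cases m with
    | zero => trivial
    | succ m =>
      change bd k m z = 0 at hc
      change bd k m z' = 0
      apply chMap_injective k ⟨θ, hθ.continuous⟩ hθ.injective
      rw [chMap_bd, hz', hc, map_zero]
  obtain ⟨w, hw⟩ := h z' hc'
  refine ⟨chMap k ⟨θ, hθ.continuous⟩ (m + 1) w, ?_, ?_⟩
  · apply chMap_mem_Sup k (U := Set.univ) (W := Set.range θ) ⟨θ, hθ.continuous⟩
      (fun x _ => ⟨x, rfl⟩)
    rw [Sup]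
    have : {σ : C(Simp (m + 1), X) | Set.range σ ⊆ Set.univ} = Set.univ := by
      rw [Set.eq_univ_iff_forall]
      exact fun σ => Set.subset_univ _
    rw [this, Finsupp.supported_univ]
    trivial
  · rw [← chMap_bd, hw, hz']

theorem mem_Sup_univ (m : ℕ) (z : Ch k X m) : z ∈ Sup k Set.univ m := by
  rw [Sup]
  have : {σ : C(Simp m, X) | Set.range σ ⊆ Set.univ} = Set.univ := by
    rw [Set.eq_univ_iff_forall]
    exact fun σ => Set.subset_univ _
  rw [this, Finsupp.supported_univ]
  trivial

theorem vanS_of_vanOn {m : ℕ} (h : VanOn k (Set.univ : Set X) m) : VanS k X m := by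
  intro z hz
  obtain ⟨w, -, hw⟩ := h z (mem_Sup_univ k m z) hz
  exact ⟨w, hw⟩

theorem vanOn_empty (m : ℕ) : VanOn k (∅ : Set X) (m + 1) := by
  intro z hz _
  refine ⟨0, Submodule.zero_mem _, ?_⟩
  rw [map_zero]
  rw [Sup] at hz
  have : {σ : C(Simp (m + 1), X) | Set.range σ ⊆ ∅} = ∅ := by
    rw [Set.eq_empty_iff_forall_notMem]
    intro σ hσ
    exact hσ (Set.mem_range_self (vert (m + 1) 0))
  rw [this, Finsupp.supported_empty] at hz
  exact ((Submodule.mem_bot k).1 hz).symm

end

end

end Pool.Agent.Work.MP_196328_ag
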