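import Pool.Agent.Work.MP_196328_ag.Gen

set_option autoImplicit false

namespace Pool.Agent.Work.MP_196328_ag

noncomputable section

open Matrix

section
variable {N : ℕ}

/-- Partial sums. -/
def ps (a : Fin N → ℕ) (i : Fin N) : ℕ := ∑ k ∈ Finset.Iic i, a k

/-- The filtration rank of a basis index. -/
def rk (b : Fin N → ℕ) (y : Ix b) : ℕ := (∑ k ∈ Finset.Iio y.1, b k) + (b y.1 - 1 - y.2)

theorem ps_eq (a : Fin N → ℕ) (i : Fin N) : ps a i = (∑ k ∈ Finset.Iio i, a k) + a i := by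
  rw [ps, ← Finset.Iio_insert, Finset.sum_insert (by simp), add_comm]

theorem ps_le (a : Fin N → ℕ) (i : Fin N) : ps a i ≤ ∑ k, a k :=
  Finset.sum_le_sum_of_subset (Finset.subset_univ _)

theorem rk_lt (b : Fin N → ℕ) (y : Ix b) : rk b y < ∑ k, b k := by
  refine lt_of_lt_of_le ?_ (ps_le b y.1)
  rw [ps_eq, rk]
  have := y.2.2
  omega

theorem rk_nxt (b : Fin N → ℕ) (d : Fin N → Ix b → ℂ) (hd : ∀ i y, i ≤ y.1 → d i y = 0)
    (y y' : Ix b) (h : nxt b d y.1 (y.2 + 1) y' ≠ 0) : rk b y' < rk b y := by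
  by_cases hl : (y.2 : ℕ) + 1 < b y.1
  · rw [nxt, dif_pos hl] at h
    have : y' = ⟨y.1, ⟨y.2 + 1, hl⟩⟩ := by
      by_contra hne
      exact h (Pi.single_eq_of_ne hne 1)
    subst this
    simp only [rk]
    omega
  · rw [nxt, dif_neg hl] at h
    have hlt : y'.1 < y.1 := by
      by_contra hge
      exact h (hd _ _ (not_lt.1 hge))
    have h1 : rk b y' < ps b y'.1 := by
      rw [ps_eq, rk]
      have := y'.2.2
      omega
    have h2 : ps b y'.1 ≤ ∑ k ∈ Finset.Iio y.1, b k := by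
      apply Finset.sum_le_sum_of_subset
      intro k hk
      rw [Finset.mem_Iic] at hk
      rw [Finset.mem_Iio]
      exact lt_of_le_of_lt hk hlt
    have h3 : ∑ k ∈ Finset.Iio y.1, b k ≤ rk b y := Nat.le_add_right _ _
    omega

theorem nil_pow (b : Fin N → ℕ) (d : Fin N → Ix b → ℂ) (hd : ∀ i y, i ≤ y.1 → d i y = 0)
    (n : ℕ) (hn : ∑ k, b k ≤ n) : (cmp b d) ^ n = 0 := by
  have key : ∀ m (x : Ix b → ℂ), (∀ y, m ≤ rk b y → x y = 0) → ((cmp b d) ^ m) *ᵥ x = 0 := by
    intro m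
    induction m with
    | zero =>
      intro x hx
      have : x = 0 := by
        funext y
        exact hx y (Nat.zero_le _)
      rw [this, Matrix.mulVec_zero]
    | succ m ih =>
      intro x hx
      rw [pow_succ, ← Matrix.mulVec_mulVec]
      apply ih
      intro y' hy'
      simp only [Matrix.mulVec, dotProduct]
      apply Finset.sum_eq_zero
      intro y _
      by_cases h1 : nxt b d y.1 (y.2 + 1) y' = 0
      · have : cmp b d y' y = 0 := h1
        rw [this, zero_mul]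
      · have h2 := rk_nxt b d hd y y' h1
        rw [hx y (by omega), mul_zero]
  apply Matrix.ext_of_mulVec_single
  intro y
  rw [key n _ (fun y' hy' => ?_), Matrix.zero_mulVec]
  have := rk_lt b y'
  omega

/-- Compatibility with the flag of coordinate subspaces. -/
theorem cmp_stable {a : Fin N → ℕ} {c : Fin N → Ix a → ℂ} (hc : ∀ i y, i < y.1 → c i y = 0)
    (i : Fin N) (x : Ix a → ℂ) (hx : ∀ y, i < y.1 → x y = 0) (y' : Ix a) (hy' : i < y'.1) :
    ((cmp a c) *ᵥ x) y' = 0 := by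
  simp only [Matrix.mulVec, dotProduct]
  apply Finset.sum_eq_zero
  intro y _
  rcases le_or_gt y.1 i with h | h
  · have : cmp a c y' y = 0 := by
      change nxt a c y.1 (y.2 + 1) y' = 0
      have hlt : y.1 < y'.1 := lt_of_le_of_lt h hy'
      by_cases hl : (y.2 : ℕ) + 1 < a y.1
      · rw [nxt, dif_pos hl]
        apply Pi.single_eq_of_ne
        rintro rfl
        exact lt_irrefl _ hlt
      · rw [nxt, dif_neg hl]
        exact hc _ _ hlt
    rw [this, zero_mul]
  · rw [hx y h, mul_zero]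

theorem nxt_supp {a : Fin N → ℕ} {c : Fin N → Ix a → ℂ} (hc : ∀ i y, i < y.1 → c i y = 0)
    (k : Fin N) (l : ℕ) (y' : Ix a) (hy' : k < y'.1) : nxt a c k l y' = 0 := by
  by_cases hl : l < a k
  · rw [nxt, dif_pos hl]
    apply Pi.single_eq_of_ne
    rintro rfl
    exact lt_irrefl _ hy'
  · rw [nxt, dif_neg hl]
    exact hc _ _ hy'

theorem pow_stable {a : Fin N → ℕ} {c : Fin N → Ix a → ℂ} (hc : ∀ i y, i < y.1 → c i y = 0)
    (i : Fin N) (l : ℕ) : ∀ y : Ix a, i < y.1 → (((cmp a c) ^ l) *ᵥ (nxt a c i 0)) y = 0 := by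
  induction l with
  | zero =>
    intro y hy
    rw [pow_zero, Matrix.one_mulVec]
    exact nxt_supp hc i 0 y hy
  | succ l ih =>
    intro y hy
    rw [pow_succ', ← Matrix.mulVec_mulVec]
    exact cmp_stable hc i _ ih y hy

theorem card_le (a : Fin N → ℕ) (i : Fin N) :
    Fintype.card {y : Ix a // y.1 ≤ i} = ps a i := by
  classical
  have e : {y : Ix a // y.1 ≤ i} ≃ Σ k : {k : Fin N // k ≤ i}, Fin (a k) :=
    { toFun := fun y => ⟨⟨y.1.1, y.2⟩, y.1.2⟩
      invFun := fun z => ⟨⟨z.1.1, z.2⟩, z.1.2⟩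
      left_inv := fun _ => rfl
      right_inv := fun _ => rfl }
  rw [Fintype.card_congr e, Fintype.card_sigma]
  simp only [Fintype.card_fin]
  rw [ps, ← Finset.sum_subtype]
  intro k
  rw [Finset.mem_Iic]

theorem sum_ext {I : Type*} [Fintype I] (p : I → Prop) [DecidablePred p] (f : I → ℂ)
    (x : {y // p y} → ℂ) :
    ∑ y, f y * (if h : p y then x ⟨y, h⟩ else 0) = ∑ y : {y // p y}, f y * x y := by
  rw [← Fintype.sum_subtype_add_sum_subtype p]
  have h1 : ∑ i : {y // ¬ p y}, f i * (if h : p i then x ⟨i, h⟩ else 0) = 0 := by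
    apply Finset.sum_eq_zero
    intro y _
    rw [dif_neg y.2, mul_zero]
  rw [h1, add_zero]
  apply Finset.sum_congr rfl
  intro y _
  rw [dif_pos y.2]

/-- Comparison of two companion forms of the same module. -/
theorem cmp_compare {a α : Fin N → ℕ} {c : Fin N → Ix a → ℂ} {γ : Fin N → Ix α → ℂ}
    (hc : ∀ i y, i < y.1 → c i y = 0) (h : Matrix (Ix α) (Ix a) ℂ) (h' : Matrix (Ix a) (Ix α) ℂ)
    (hh : h * h' = 1) (hh' : h' * h = 1) (hZ : h * cmp a c = cmp α γ * h)
    (hv : h * cvec a c = cvec α γ) (i : Fin N) :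
    ps α i ≤ ps a i ∧ (ps α i = ps a i → ∀ y, i < y.1 → γ i y = 0) := by
  classical
  have hZ' : h' * cmp α γ = cmp a c * h' := by
    calc h' * cmp α γ = h' * (cmp α γ * h) * h' := by
          rw [Matrix.mul_assoc, Matrix.mul_assoc, hh, Matrix.mul_one]
      _ = cmp a c * h' := by
          rw [← hZ, ← Matrix.mul_assoc, hh', Matrix.one_mul]
  have hv' : h' * cvec α γ = cvec a c := by
    rw [← hv, ← Matrix.mul_assoc, hh', Matrix.one_mul]
  have htri : ∀ (y : Ix α) (y' : Ix a), y.1 < y'.1 → h' y' y = 0 := by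
    intro y y' hlt
    have h1 := inter_nxt h' _ _ hZ' hv' y.1 y.2 y.2.2.le
    rw [nxt_lt, cvec_single, Matrix.mulVec_single_one] at h1
    have h2 := congrFun h1 y'
    rw [pow_stable hc y.1 y.2 y' hlt] at h2
    exact h2
  let φ : ({y : Ix α // y.1 ≤ i} → ℂ) →ₗ[ℂ] ({y : Ix a // y.1 ≤ i} → ℂ) :=
    Matrix.mulVecLin (h'.submatrix Subtype.val Subtype.val)
  have hext : ∀ x : {y : Ix α // y.1 ≤ i} → ℂ, ∀ y' : Ix a,
      (h' *ᵥ (fun y => if h : y.1 ≤ i then x ⟨y, h⟩ else 0)) y' =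
        if hy : y'.1 ≤ i then φ x ⟨y', hy⟩ else 0 := by
    intro x y'
    simp only [Matrix.mulVec, dotProduct]
    rw [sum_ext (fun y : Ix α => y.1 ≤ i) (fun y => h' y' y) x]
    split_ifs with hy
    · rfl
    · apply Finset.sum_eq_zero
      intro y _
      rw [htri y.1 y' (lt_of_le_of_lt y.2 (not_le.1 hy)), zero_mul]
  have hinj : Function.Injective φ := by
    rw [injective_iff_map_eq_zero]
    intro x hx
    have h1 : h' *ᵥ (fun y => if h : y.1 ≤ i then x ⟨y, h⟩ else 0) = 0 := by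
      funext y'
      rw [hext, hx]
      split_ifs <;> rfl
    have h2 : (fun y : Ix α => if h : y.1 ≤ i then x ⟨y, h⟩ else 0) = 0 := by
      have := congrArg (fun z => h *ᵥ z) h1
      simpa only [Matrix.mulVec_mulVec, hh, Matrix.one_mulVec, Matrix.mulVec_zero] using this
    funext y
    have := congrFun h2 y.1
    simp only [dif_pos y.2] at this
    exact this
  have hfin := LinearMap.finrank_le_finrank_of_injective hinj
  rw [Module.finrank_fintype_fun_eq_card, Module.finrank_fintype_fun_eq_card, card_le,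
    card_le] at hfin
  refine ⟨hfin, ?_⟩
  intro heq
  have hsurj : Function.Surjective φ := by
    apply (LinearMap.injective_iff_surjective_of_finrank_eq_finrank _).1 hinj
    rw [Module.finrank_fintype_fun_eq_card, Module.finrank_fintype_fun_eq_card, card_le,
      card_le, heq]
  set u := ((cmp a c) ^ (α i)) *ᵥ (nxt a c i 0) with hu
  obtain ⟨x, hx⟩ := hsurj (fun y => u y.1)
  have h1 : h' *ᵥ (fun y => if h : y.1 ≤ i then x ⟨y, h⟩ else 0) = u := by
    funext y'
    rw [hext, hx]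
    split_ifs with hy
    · rfl
    · exact (pow_stable hc i (α i) y' (not_le.1 hy)).symm
  have h2 : h *ᵥ u = fun y => if h : y.1 ≤ i then x ⟨y, h⟩ else 0 := by
    rw [← h1, Matrix.mulVec_mulVec, hh, Matrix.one_mulVec]
  have h3 : h *ᵥ u = γ i := by
    have e1 : ∀ l, h * (cmp a c) ^ l = (cmp α γ) ^ l * h := by
      intro l
      induction l with
      | zero => rw [pow_zero, pow_zero, Matrix.one_mul, Matrix.mul_one]
      | succ l ih =>
        rw [pow_succ, ← Matrix.mul_assoc, ih, Matrix.mul_assoc, hZ, ← Matrix.mul_assoc, ← pow_succ]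
    rw [hu, Matrix.mulVec_mulVec, e1, ← cvec_single (c := c) i, Matrix.mulVec_mulVec,
      Matrix.mul_assoc, hv, ← Matrix.mulVec_mulVec, cvec_single, pow_cmp i (α i) le_rfl,
      nxt_ge i (α i) le_rfl]
  intro y hy
  rw [← h3, h2]
  simp only [dif_neg (not_le.2 hy)]

/-- The coordinate subspace of the indices before `i`. -/
def flagS (b : Fin N → ℕ) (i : Fin N) : Submodule ℂ (Ix b → ℂ) where
  carrier := {x | ∀ y : Ix b, i ≤ y.1 → x y = 0}
  zero_mem' := fun _ _ => rfl
  add_mem' := by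
    intro x y hx hy z hz
    rw [Pi.add_apply, hx z hz, hy z hz, add_zero]
  smul_mem' := by
    intro r x hx z hz
    rw [Pi.smul_apply, hx z hz, smul_zero]

theorem flagS_cmp {b : Fin N → ℕ} {d : Fin N → Ix b → ℂ} (hd : ∀ i y, i < y.1 → d i y = 0)
    (i : Fin N) (x : Ix b → ℂ) (hx : x ∈ flagS b i) : (cmp b d) *ᵥ x ∈ flagS b i := by
  intro y' hy'
  simp only [Matrix.mulVec, dotProduct]
  apply Finset.sum_eq_zero
  intro y _
  rcases lt_or_ge y.1 i with h | h
  · have hlt : y.1 < y'.1 := lt_of_lt_of_le h hy'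
    have : cmp b d y' y = 0 := nxt_supp hd y.1 (y.2 + 1) y' hlt
    rw [this, zero_mul]
  · rw [hx y h, mul_zero]

theorem flagS_pow {b : Fin N → ℕ} {d : Fin N → Ix b → ℂ} (hd : ∀ i y, i < y.1 → d i y = 0)
    (i : Fin N) (m : ℕ) (x : Ix b → ℂ) (hx : x ∈ flagS b i) :
    ((cmp b d) ^ m) *ᵥ x ∈ flagS b i := by
  induction m with
  | zero => rwa [pow_zero, Matrix.one_mulVec]
  | succ m ih =>
    rw [pow_succ', ← Matrix.mulVec_mulVec]
    exact flagS_cmp hd i _ ih

/-- Nilpotency forces the diagonal coefficients to vanish. -/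
theorem nil_diag {b : Fin N → ℕ} {d : Fin N → Ix b → ℂ} (hd : ∀ i y, i < y.1 → d i y = 0)
    (n : ℕ) (hn : (cmp b d) ^ n = 0) (i : Fin N) (y : Ix b) (hy : y.1 = i) : d i y = 0 := by
  classical
  by_contra hne
  have hex : ∃ l : ℕ, ∃ h : l < b i, d i ⟨i, ⟨l, h⟩⟩ ≠ 0 := by
    obtain ⟨k, l⟩ := y
    simp only at hy
    subst hy
    exact ⟨l, l.2, hne⟩
  obtain ⟨m, ⟨hm, hdm⟩, hmin⟩ : ∃ m, (∃ h : m < b i, d i ⟨i, ⟨m, h⟩⟩ ≠ 0) ∧
      ∀ l, l < m → ¬ ∃ h : l < b i, d i ⟨i, ⟨l, h⟩⟩ ≠ 0 :=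
    ⟨Nat.find hex, Nat.find_spec hex, fun l hl => Nat.find_min hex hl⟩
  set M := cmp b d with hM
  set w : Ix b → ℂ := Pi.single ⟨i, ⟨m, hm⟩⟩ 1 with hw
  have hwP : ¬ w ∈ flagS b i := by
    intro hP
    have := hP ⟨i, ⟨m, hm⟩⟩ le_rfl
    rw [hw, Pi.single_eq_same] at this
    exact one_ne_zero this
  have hexr : ∃ r : ℕ, (M ^ r) *ᵥ w ∈ flagS b i := by
    refine ⟨n, ?_⟩
    rw [hn, Matrix.zero_mulVec]
    exact Submodule.zero_mem _
  obtain ⟨r, hrspec, hrmin⟩ : ∃ r, (M ^ r) *ᵥ w ∈ flagS b i ∧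
      ∀ l, l < r → ¬ (M ^ l) *ᵥ w ∈ flagS b i :=
    ⟨Nat.find hexr, Nat.find_spec hexr, fun l hl => Nat.find_min hexr hl⟩
  have hr0 : r ≠ 0 := by
    intro h0
    rw [h0, pow_zero, Matrix.one_mulVec] at hrspec
    exact hwP hrspec
  have hge : ∀ s, r ≤ s → (M ^ s) *ᵥ w ∈ flagS b i := by
    intro s hs
    have : M ^ s = M ^ (s - r) * M ^ r := by
      rw [← pow_add]
      congr 1
      omega
    rw [this, ← Matrix.mulVec_mulVec]
    exact flagS_pow hd i _ _ hrspec
  have hshift : ∀ l, (hl : m + l < b i) →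
      (M ^ l) *ᵥ w = Pi.single (⟨i, ⟨m + l, hl⟩⟩ : Ix b) (1 : ℂ) := by
    intro l
    induction l with
    | zero =>
      intro hl
      rw [pow_zero, Matrix.one_mulVec]
      rfl
    | succ l ih =>
      intro hl
      rw [pow_succ', ← Matrix.mulVec_mulVec, ih (by omega), hM, cmp_single]
      have := nxt_lt (c := d) i ⟨m + (l + 1), hl⟩
      exact this
  obtain ⟨q, hq⟩ : ∃ q, b i = m + (q + 1) := ⟨b i - m - 1, by omega⟩
  have htop : (M ^ (q + 1)) *ᵥ w = d i := by
    rw [pow_succ', ← Matrix.mulVec_mulVec, hshift q (by omega), hM, cmp_single]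
    simp only
    rw [nxt_ge i (m + q + 1) (by omega)]
  have hdec : d i - ∑ l : Fin (q + 1), d i ⟨i, ⟨m + l, by omega⟩⟩ • ((M ^ (l : ℕ)) *ᵥ w) ∈
      flagS b i := by
    intro y hy
    have hterm : ∀ l : Fin (q + 1), (M ^ (l : ℕ)) *ᵥ w =
        Pi.single (⟨i, ⟨m + l, by omega⟩⟩ : Ix b) (1 : ℂ) := fun l => hshift l _
    simp only [hterm]
    rw [Pi.sub_apply, Finset.sum_apply]
    rcases hy.lt_or_eq with h | h
    · rw [hd i y h, zero_sub, neg_eq_zero]
      apply Finset.sum_eq_zero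
      intro l _
      rw [Pi.smul_apply, Pi.single_eq_of_ne, smul_zero]
      intro heq
      rw [heq] at h
      exact lt_irrefl _ h
    · obtain ⟨k, l⟩ := y
      simp only at h
      subst h
      rcases lt_or_ge (l : ℕ) m with hlm | hlm
      · have h1 : d i ⟨i, l⟩ = 0 := by
          by_contra hne'
          exact hmin l hlm ⟨l.2, hne'⟩
        rw [h1, zero_sub, neg_eq_zero]
        apply Finset.sum_eq_zero
        intro l' _
        rw [Pi.smul_apply, Pi.single_eq_of_ne, smul_zero]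
        intro heq
        have := congrArg (fun z : Ix b => (z.2 : ℕ)) heq
        simp only at this
        omega
      · rw [Finset.sum_eq_single ⟨(l : ℕ) - m, by omega⟩]
        · have h2 : (⟨i, ⟨m + ((l : ℕ) - m), by omega⟩⟩ : Ix b) = ⟨i, l⟩ := by
            congr 1
            apply Fin.ext
            simp only
            omega
          simp only [Pi.smul_apply, smul_eq_mul]
          rw [h2, Pi.single_eq_same, mul_one, sub_self]
        · intro l' _ hne'
          rw [Pi.smul_apply, Pi.single_eq_of_ne, smul_zero]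
          intro heq
          have := congrArg (fun z : Ix b => (z.2 : ℕ)) heq
          simp only at this
          apply hne'
          apply Fin.ext
          simp only
          omega
        · intro h'
          exact absurd (Finset.mem_univ _) h'
  have h1 := flagS_pow hd i (r - 1) _ hdec
  rw [Matrix.mulVec_sub, Fin.sum_univ_succ, Matrix.mulVec_add] at h1
  have h2 : (M ^ (r - 1)) *ᵥ (d i) ∈ flagS b i := by
    rw [← htop, Matrix.mulVec_mulVec, ← pow_add]
    exact hge _ (by omega)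
  have h3 : (M ^ (r - 1)) *ᵥ (∑ l : Fin q, d i ⟨i, ⟨m + (l.succ : Fin (q + 1)), by omega⟩⟩ •
      ((M ^ ((l.succ : Fin (q + 1)) : ℕ)) *ᵥ w)) ∈ flagS b i := by
    rw [Matrix.mulVec_sum]
    apply Submodule.sum_mem
    intro l _
    rw [Matrix.mulVec_smul, Matrix.mulVec_mulVec, ← pow_add]
    apply Submodule.smul_mem
    apply hge
    rw [Fin.val_succ]
    omega
  have h4 : (M ^ (r - 1)) *ᵥ (d i ⟨i, ⟨m + ((0 : Fin (q + 1)) : ℕ), by
      rw [Fin.val_zero]; omega⟩⟩ • ((M ^ ((0 : Fin (q + 1)) : ℕ)) *ᵥ w)) ∈ flagS b i := by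
    have h5 := Submodule.sub_mem _ (Submodule.sub_mem _ h2 h1) h3
    convert h5 using 1
    abel
  rw [Matrix.mulVec_smul] at h4
  have h6 : d i ⟨i, ⟨m + ((0 : Fin (q + 1)) : ℕ), by rw [Fin.val_zero]; omega⟩⟩ ≠ 0 := by
    have : (⟨i, ⟨m + ((0 : Fin (q + 1)) : ℕ), by rw [Fin.val_zero]; omega⟩⟩ : Ix b) =
        ⟨i, ⟨m, hm⟩⟩ := rfl
    rw [this]
    exact hdm
  have h7 := (Submodule.smul_mem_iff _ h6).1 h4
  rw [Fin.val_zero, pow_zero, Matrix.one_mulVec] at h7
  exact hrmin (r - 1) (by omega) h7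

/-- Normal form conditions cutting out the stratum. -/
def Strat {a b : Fin N → ℕ} (ω : Kx a b → ℂ) : Prop :=
  (∀ i (y : Ix a), i < y.1 → cpart ω i y = 0) ∧ ∀ i (y : Ix b), i ≤ y.1 → dpart ω i y = 0

theorem Strat.dom {a b : Fin N → ℕ} {ω : Kx a b → ℂ} (h : Strat ω) {n : ℕ}
    (hn : ∑ k, b k ≤ n) : Dom n ω := by
  rw [Dom, nil_pow b (dpart ω) h.2 n hn, nrm_zero, mul_zero]
  exact one_pos

/-- Sum of the partial sums. -/
def hh (a : Fin N → ℕ) : ℕ := ∑ i, ps a i

/-- The height of a stratum. -/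
def hgt (n : ℕ) (a b : Fin N → ℕ) : ℤ :=
  ((N * n + 1 : ℕ) : ℤ) * ((∑ k, b k : ℕ) : ℤ) - (hh a : ℤ) - (hh b : ℤ)

theorem card_Ix (a : Fin N → ℕ) : Fintype.card (Ix a) = ∑ k, a k := by
  rw [Fintype.card_sigma]
  simp only [Fintype.card_fin]

theorem eq_of_ps {a α : Fin N → ℕ} (h : ∀ i, ps α i = ps a i) : a = α := by
  have key : ∀ m : ℕ, ∀ i : Fin N, (i : ℕ) < m → a i = α i := by
    intro m
    induction m with
    | zero => intro i hi; omega
    | succ m ih =>
      intro i hi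
      have h1 := h i
      rw [ps_eq, ps_eq] at h1
      have h2 : ∑ k ∈ Finset.Iio i, α k = ∑ k ∈ Finset.Iio i, a k := by
        apply Finset.sum_congr rfl
        intro k hk
        rw [Finset.mem_Iio] at hk
        exact (ih k (by have := Fin.lt_def.1 hk; omega)).symm
      omega
  funext i
  exact key _ i (Nat.lt_succ_self _)

theorem hh_bound {n : ℕ} {a b : Fin N → ℕ} (hn : ∑ k, a k + ∑ k, b k = n) :
    hh a + hh b ≤ N * n := by
  rw [hh, hh, ← Finset.sum_add_distrib]
  have : ∀ i ∈ (Finset.univ : Finset (Fin N)), ps a i + ps b i ≤ n := by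
    intro i _
    have h1 := ps_le a i
    have h2 := ps_le b i
    omega
  refine (Finset.sum_le_sum this).trans ?_
  simp

/-- The key lemma: closure relations between the strata. -/
theorem key_lemma {n : ℕ} {a b α β : Fin N → ℕ} (hn : ∑ k, a k + ∑ k, b k = n)
    (hn' : ∑ k, α k + ∑ k, β k = n) {ω : Kx a b → ℂ} {ω' : Kx α β → ℂ} (hs : Strat ω)
    (hiso : IsoP (std ω) (std ω')) :
    hgt n a b < hgt n α β ∨ (a = α ∧ b = β ∧ Strat ω') := by
  obtain ⟨h, h', g, g', e1, e2, e3, e4, e5, e6, e7⟩ := hiso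
  obtain ⟨h1, h2, h3, h4, rfl⟩ := blocks h
  obtain ⟨k1, k2, k3, k4, rfl⟩ := blocks h'
  obtain ⟨g1, g2, g3, g4, rfl⟩ := blocks g
  obtain ⟨-, -, -, -, f1, f4, f2, f3⟩ := block_eqs h1 h2 h3 h4 g1 g2 g3 g4 _ _ _ _ e5 e6
  change _ * stdV ω = stdV ω' at e7
  rw [stdV, stdV, Matrix.fromBlocks_mul_fromRows] at e7
  obtain ⟨v1, v2⟩ := Matrix.fromRows_inj e7
  have hW : (cmp b (dpart ω)) ^ n = 0 := nil_pow b _ hs.2 n (by omega)
  have h20 : h2 = 0 := by
    have := iter_eq (I' := Ix α) (J' := Ix b) _ _ _ f2 n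
    rw [hW, Matrix.mul_zero] at this
    exact this
  subst h20
  rw [Matrix.fromBlocks_multiply, ← Matrix.fromBlocks_one, Matrix.fromBlocks_inj] at e1 e2
  simp only [Matrix.mul_zero, Matrix.zero_mul, add_zero, zero_add] at e1 e2
  obtain ⟨p1, p2, p3, p4⟩ := e1
  obtain ⟨q1, q2, q3, q4⟩ := e2
  -- dimension comparison
  have hle : ∑ k, b k ≤ ∑ k, β k := by
    have hinj : Function.Injective (Matrix.mulVecLin h4) := by
      rw [injective_iff_map_eq_zero]
      intro x hx
      have : x = k4 *ᵥ (h4 *ᵥ x) := by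
        rw [Matrix.mulVec_mulVec, q4, Matrix.one_mulVec]
      rw [this]
      have hx' : h4 *ᵥ x = 0 := hx
      rw [hx', Matrix.mulVec_zero]
    have := LinearMap.finrank_le_finrank_of_injective hinj
    rwa [Module.finrank_fintype_fun_eq_card, Module.finrank_fintype_fun_eq_card, card_Ix,
      card_Ix] at this
  have hb1 := hh_bound hn'
  rcases hle.lt_or_eq with hlt | heq
  · left
    have t1 : ((∑ k, b k : ℕ) : ℤ) + 1 ≤ ((∑ k, β k : ℕ) : ℤ) := by exact_mod_cast hlt
    have t2 : (hh α : ℤ) + (hh β : ℤ) ≤ ((N * n : ℕ) : ℤ) := by exact_mod_cast hb1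
    have t3 : (0 : ℤ) ≤ ((N * n : ℕ) : ℤ) := by positivity
    have t4 : (0 : ℤ) ≤ (hh a : ℤ) := by positivity
    have t5 : (0 : ℤ) ≤ (hh b : ℤ) := by positivity
    rw [hgt, hgt]
    have t6 : ((N * n + 1 : ℕ) : ℤ) = ((N * n : ℕ) : ℤ) + 1 := by push_cast; ring
    rw [t6]
    nlinarith
  · have hcard : Fintype.card (Ix β) = Fintype.card (Ix b) := by
      rw [card_Ix, card_Ix, heq]
    have q4' : h4 * k4 = 1 :=
      (Matrix.mul_eq_one_comm_of_equiv (Fintype.equivOfCardEq hcard.symm)).1 q4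
    have k20 : k2 = 0 := by
      calc k2 = k2 * (h4 * k4) := by rw [q4', Matrix.mul_one]
        _ = 0 := by rw [← Matrix.mul_assoc, q2, Matrix.zero_mul]
    subst k20
    rw [Matrix.zero_mul, add_zero] at q1
    rw [Matrix.zero_mul, add_zero] at v1
    have hW' : (cmp β (dpart ω')) ^ n = 0 := by
      have : ∀ m, h4 * (cmp b (dpart ω)) ^ m = (cmp β (dpart ω')) ^ m * h4 := by
        intro m
        induction m with
        | zero => rw [pow_zero, pow_zero, Matrix.one_mul, Matrix.mul_one]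
        | succ m ih =>
          rw [pow_succ, ← Matrix.mul_assoc, ih, Matrix.mul_assoc, f4, ← Matrix.mul_assoc,
            ← pow_succ]
      calc (cmp β (dpart ω')) ^ n = (cmp β (dpart ω')) ^ n * (h4 * k4) := by
            rw [q4', Matrix.mul_one]
        _ = 0 := by rw [← Matrix.mul_assoc, ← this n, hW, Matrix.mul_zero, Matrix.zero_mul]
    have h30 : h3 = 0 := by
      have := iter_eq (I' := Ix β) (J' := Ix a) _ _ _ f3 n
      rw [hW', Matrix.zero_mul, Matrix.zero_mul] at this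
      exact this
    subst h30
    rw [Matrix.zero_mul, zero_add] at v2
    have cA := cmp_compare hs.1 h1 k1 p1 q1 f1 v1
    have cB := cmp_compare (fun i y hy => hs.2 i y hy.le) h4 k4 q4' q4 f4 v2
    have lA : hh α ≤ hh a := Finset.sum_le_sum (fun i _ => (cA i).1)
    have lB : hh β ≤ hh b := Finset.sum_le_sum (fun i _ => (cB i).1)
    rcases (add_le_add lA lB).lt_or_eq with hlt | heq2
    · left
      rw [hgt, hgt, heq]
      have : ((hh α + hh β : ℕ) : ℤ) < ((hh a + hh b : ℕ) : ℤ) := by exact_mod_cast hlt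
      push_cast at this ⊢
      linarith
    · right
      have eA : hh α = hh a := by omega
      have eB : hh β = hh b := by omega
      have sA : ∀ i, ps α i = ps a i := by
        have := (Finset.sum_eq_sum_iff_of_le (fun i _ => (cA i).1)).1 eA
        exact fun i => this i (Finset.mem_univ i)
      have sB : ∀ i, ps β i = ps b i := by
        have := (Finset.sum_eq_sum_iff_of_le (fun i _ => (cB i).1)).1 eB
        exact fun i => this i (Finset.mem_univ i)
      refine ⟨eq_of_ps sA, eq_of_ps sB, ?_, ?_⟩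
      · intro i y hy
        exact (cA i).2 (sA i) y hy
      · intro i y hy
        have hd : ∀ i y, i < y.1 → dpart ω' i y = 0 := fun i y hy => (cB i).2 (sB i) y hy
        rcases hy.lt_or_eq with hlt | heq3
        · exact hd i y hlt
        · exact nil_diag hd n hW' i y heq3.symm

end

end

end Pool.Agent.Work.MP_196328_ag
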