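import Mathlib

set_option autoImplicit false

namespace Pool.Agent.Work.MP_196328_ag

noncomputable section

/-- Formal chains of `n`-tuples of points (augmented, degree shifted by one). -/
abbrev LC (k : Type*) [CommRing k] (V : Type*) (n : ℕ) := (Fin n → V) →₀ k

section
variable (k : Type*) [CommRing k] {V W : Type*}

/-- Boundary of a tuple chain. -/
def lbd (n : ℕ) : LC k V (n + 1) →ₗ[k] LC k V n :=
  Finsupp.linearCombination k (fun p : Fin (n + 1) → V =>
    ∑ i : Fin (n + 1), (-1 : k) ^ (i : ℕ) • Finsupp.single (p ∘ i.succAbove) (1 : k))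

theorem lbd_single (n : ℕ) (p : Fin (n + 1) → V) :
    lbd k n (Finsupp.single p 1) =
      ∑ i : Fin (n + 1), (-1 : k) ^ (i : ℕ) • Finsupp.single (p ∘ i.succAbove) (1 : k) := by
  rw [lbd, Finsupp.linearCombination_single, one_smul]

/-- Cone on a tuple chain. -/
def cone {n : ℕ} (b : V) : LC k V n →ₗ[k] LC k V (n + 1) :=
  Finsupp.lmapDomain k k (fun p : Fin n → V => (Fin.cons b p : Fin (n + 1) → V))

theorem cone_single {n : ℕ} (b : V) (p : Fin n → V) :
    cone k b (Finsupp.single p 1) = Finsupp.single (Fin.cons b p : Fin (n + 1) → V) (1 : k) := by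
  rw [cone, Finsupp.lmapDomain_apply, Finsupp.mapDomain_single]

theorem cons_comp_zero {n : ℕ} (b : V) (p : Fin n → V) :
    (Fin.cons b p : Fin (n + 1) → V) ∘ (0 : Fin (n + 1)).succAbove = p := by
  funext j
  simp

theorem cons_comp_succ {n : ℕ} (b : V) (p : Fin (n + 1) → V) (i : Fin (n + 1)) :
    (Fin.cons b p : Fin (n + 2) → V) ∘ (i.succ).succAbove =
      (Fin.cons b (p ∘ i.succAbove) : Fin (n + 1) → V) := by
  funext j
  refine Fin.cases ?_ (fun j => ?_) j
  · simp
  · simp [Fin.succ_succAbove_succ]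

theorem hom_ext {n : ℕ} {M : Type*} [AddCommGroup M] [Module k M] {f g : LC k V n →ₗ[k] M}
    (h : ∀ p, f (Finsupp.single p 1) = g (Finsupp.single p 1)) : f = g := by
  apply Finsupp.lhom_ext'
  intro p
  ext
  exact h p

theorem lbd_cone_zero (b : V) (c : LC k V 0) : lbd k 0 (cone k b c) = c := by
  have : (lbd k 0) ∘ₗ (cone k b) = (LinearMap.id : LC k V 0 →ₗ[k] LC k V 0) := by
    apply hom_ext
    intro p
    rw [LinearMap.comp_apply, cone_single, lbd_single]
    simp only [Fin.sum_univ_succ, Fin.val_zero, pow_zero, one_smul, cons_comp_zero,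
      Finset.univ_eq_empty, Finset.sum_empty, add_zero, LinearMap.id_apply]
  exact LinearMap.congr_fun this c

theorem lbd_cone_succ (n : ℕ) (b : V) (c : LC k V (n + 1)) :
    lbd k (n + 1) (cone k b c) = c - cone k b (lbd k n c) := by
  have : (lbd k (n + 1)) ∘ₗ (cone k b) =
      (LinearMap.id : LC k V (n + 1) →ₗ[k] LC k V (n + 1)) - (cone k b) ∘ₗ (lbd k n) := by
    apply hom_ext
    intro p
    rw [LinearMap.comp_apply, cone_single, lbd_single, LinearMap.sub_apply, LinearMap.comp_apply,
      lbd_single, Fin.sum_univ_succ, LinearMap.id_apply, map_sum]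
    simp only [Fin.val_zero, pow_zero, one_smul, cons_comp_zero, cons_comp_succ, Fin.val_succ,
      map_smul, cone_single]
    rw [sub_eq_add_neg, ← Finset.sum_neg_distrib]
    congr 1
    apply Finset.sum_congr rfl
    intro i _
    rw [pow_succ, mul_neg_one, neg_smul]
  exact LinearMap.congr_fun this c

theorem lbd_comp_lbd (n : ℕ) :
    (lbd k n) ∘ₗ (lbd k (n + 1)) = (0 : LC k V (n + 2) →ₗ[k] LC k V n) := by
  induction n with
  | zero =>
    apply hom_ext
    intro p
    have hp : Finsupp.single p (1 : k) = cone k (p 0) (Finsupp.single (Fin.tail p) 1) := by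
      rw [cone_single, Fin.cons_self_tail]
    rw [LinearMap.comp_apply, hp, lbd_cone_succ, map_sub, lbd_cone_zero, sub_self]
    rfl
  | succ n ih =>
    apply hom_ext
    intro p
    have hp : Finsupp.single p (1 : k) = cone k (p 0) (Finsupp.single (Fin.tail p) 1) := by
      rw [cone_single, Fin.cons_self_tail]
    rw [LinearMap.comp_apply, hp, lbd_cone_succ, map_sub, lbd_cone_succ, sub_sub_cancel]
    have := LinearMap.congr_fun ih (Finsupp.single (Fin.tail p) 1)
    rw [LinearMap.comp_apply] at this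
    rw [this, LinearMap.zero_apply, map_zero, LinearMap.zero_apply]

theorem lbd_lbd (n : ℕ) (c : LC k V (n + 2)) : lbd k n (lbd k (n + 1) c) = 0 :=
  LinearMap.congr_fun (lbd_comp_lbd k n) c

/-- Pushforward of tuple chains. -/
def mapT (φ : V → W) (n : ℕ) : LC k V n →ₗ[k] LC k W n :=
  Finsupp.lmapDomain k k (fun p : Fin n → V => φ ∘ p)

theorem mapT_single (φ : V → W) (n : ℕ) (p : Fin n → V) :
    mapT k φ n (Finsupp.single p 1) = Finsupp.single (φ ∘ p) (1 : k) := by
  rw [mapT, Finsupp.lmapDomain_apply, Finsupp.mapDomain_single]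

theorem mapT_lbd (φ : V → W) (n : ℕ) (c : LC k V (n + 1)) :
    mapT k φ n (lbd k n c) = lbd k n (mapT k φ (n + 1) c) := by
  have : (mapT k φ n) ∘ₗ (lbd k n) = (lbd k n) ∘ₗ (mapT k φ (n + 1)) := by
    apply hom_ext
    intro p
    rw [LinearMap.comp_apply, LinearMap.comp_apply, lbd_single, mapT_single, lbd_single, map_sum]
    apply Finset.sum_congr rfl
    intro i _
    rw [map_smul, mapT_single]
    rfl
  exact LinearMap.congr_fun this c

theorem mapT_cone (φ : V → W) (n : ℕ) (b : V) (c : LC k V n) :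
    mapT k φ (n + 1) (cone k b c) = cone k (φ b) (mapT k φ n c) := by
  have : (mapT k φ (n + 1)) ∘ₗ (cone k b) = (cone k (φ b)) ∘ₗ (mapT k φ n) := by
    apply hom_ext
    intro p
    rw [LinearMap.comp_apply, LinearMap.comp_apply, cone_single, mapT_single, mapT_single,
      cone_single]
    congr 1
    funext j
    refine Fin.cases ?_ (fun j => ?_) j
    · simp
    · simp
  exact LinearMap.congr_fun this c

/-- The chain homotopy built by coning off. -/
def Dop (α β : ∀ n, LC k V n →ₗ[k] LC k W n) (c : ∀ n, (Fin (n + 1) → V) → W) :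
    ∀ n, LC k V n →ₗ[k] LC k W (n + 1)
  | 0 => 0
  | n + 1 => Finsupp.linearCombination k (fun p : Fin (n + 1) → V =>
      cone k (c n p) (α (n + 1) (Finsupp.single p 1) - β (n + 1) (Finsupp.single p 1) -
        Dop α β c n (lbd k n (Finsupp.single p 1))))

theorem Dop_zero (α β : ∀ n, LC k V n →ₗ[k] LC k W n) (c : ∀ n, (Fin (n + 1) → V) → W) :
    Dop k α β c 0 = 0 := rfl

theorem Dop_single (α β : ∀ n, LC k V n →ₗ[k] LC k W n) (c : ∀ n, (Fin (n + 1) → V) → W)
    (n : ℕ) (p : Fin (n + 1) → V) :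
    Dop k α β c (n + 1) (Finsupp.single p 1) =
      cone k (c n p) (α (n + 1) (Finsupp.single p 1) - β (n + 1) (Finsupp.single p 1) -
        Dop k α β c n (lbd k n (Finsupp.single p 1))) := by
  rw [Dop, Finsupp.linearCombination_single, one_smul]

theorem lbd_Dop (α β : ∀ n, LC k V n →ₗ[k] LC k W n) (c : ∀ n, (Fin (n + 1) → V) → W)
    (hα : ∀ n x, α n (lbd k n x) = lbd k n (α (n + 1) x))
    (hβ : ∀ n x, β n (lbd k n x) = lbd k n (β (n + 1) x))
    (h0 : ∀ x, α 0 x = β 0 x) :
    ∀ n (x : LC k V (n + 1)), lbd k (n + 1) (Dop k α β c (n + 1) x) =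
      α (n + 1) x - β (n + 1) x - Dop k α β c n (lbd k n x) := by
  intro n
  induction n with
  | zero =>
    intro x
    have : (lbd k 1) ∘ₗ (Dop k α β c 1) = α 1 - β 1 - (Dop k α β c 0) ∘ₗ (lbd k 0) := by
      apply hom_ext
      intro p
      rw [LinearMap.comp_apply, Dop_single, lbd_cone_succ]
      simp only [Dop_zero, LinearMap.zero_apply, sub_zero, LinearMap.zero_comp, map_sub,
        LinearMap.sub_apply]
      rw [← hα, ← hβ, h0]
      simp
    exact LinearMap.congr_fun this x
  | succ n ih =>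
    intro x
    have : (lbd k (n + 2)) ∘ₗ (Dop k α β c (n + 2)) =
        α (n + 2) - β (n + 2) - (Dop k α β c (n + 1)) ∘ₗ (lbd k (n + 1)) := by
      apply hom_ext
      intro p
      rw [LinearMap.comp_apply, Dop_single, lbd_cone_succ]
      simp only [LinearMap.sub_apply, LinearMap.comp_apply]
      have e1 : lbd k (n + 1) (α (n + 2) (Finsupp.single p 1) - β (n + 2) (Finsupp.single p 1)) =
          α (n + 1) (lbd k (n + 1) (Finsupp.single p 1)) -
            β (n + 1) (lbd k (n + 1) (Finsupp.single p 1)) := by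
        rw [(lbd k (n + 1)).map_sub, hα (n + 1), hβ (n + 1)]
      rw [sub_eq_self, (lbd k (n + 1)).map_sub, ih, lbd_lbd, map_zero, sub_zero, e1]
      rw [sub_self, map_zero]
    exact LinearMap.congr_fun this x

end

end

end Pool.Agent.Work.MP_196328_ag
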