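import Pool.Agent.Work.MP_196328_ag.Opn
import Pool.Agent.Work.MP_196328_ag.Gen

set_option autoImplicit false

namespace Pool.Agent.Work.MP_196328_ag

noncomputable section

open Matrix Topology

section
variable {N n : ℕ} {a b : Fin N → ℕ} {L : Type*} [Fintype L] [DecidableEq L]
  (e : L ≃ Ix a ⊕ Ix b)

/-- The chart with reindexed matrices. -/
def chart (ω : Kx a b → ℂ) : Tri N L := reT e (std ω)

theorem sub_mul_self (M P : Matrix L L ℂ) :
    (M * P).submatrix e.symm e.symm = M.submatrix e.symm e.symm * P.submatrix e.symm e.symm :=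
  (Matrix.submatrix_mul_equiv M P e.symm e.symm e.symm).symm

theorem sub_sub (M : Matrix (Ix a ⊕ Ix b) (Ix a ⊕ Ix b) ℂ) :
    (M.submatrix e e).submatrix e.symm e.symm = M := by
  ext i j
  simp

theorem sub_sub' (M : Matrix L L ℂ) :
    (M.submatrix e.symm e.symm).submatrix e e = M := by
  ext i j
  simp

theorem chart_inj {ω ω' : Kx a b → ℂ} (hω : Dom n ω) (hω' : Dom n ω')
    (h g : Matrix L L ℂ) (hdet : h.det ≠ 0)
    (hA : h * (chart e ω).1 = (chart e ω').1 * g)
    (hB : h * (chart e ω).2.1 = (chart e ω').2.1 * g)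
    (hV : h * (chart e ω).2.2 = (chart e ω').2.2) : h = 1 ∧ g = 1 ∧ ω' = ω := by
  have hA' := congrArg (fun M => M.submatrix e.symm e.symm) hA
  have hB' := congrArg (fun M => M.submatrix e.symm e.symm) hB
  have hV' := congrArg (fun M => M.submatrix e.symm id) hV
  simp only [sub_mul_self] at hA' hB'
  have e1 : (h * (chart e ω).2.2).submatrix e.symm id =
      h.submatrix e.symm e.symm * (chart e ω).2.2.submatrix e.symm id :=
    (Matrix.submatrix_mul_equiv h (chart e ω).2.2 e.symm e.symm id).symm
  simp only [e1] at hV'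
  have c1 : ∀ ω : Kx a b → ℂ, (chart e ω).1.submatrix e.symm e.symm = stdA ω :=
    fun ω => sub_sub e (stdA ω)
  have c2 : ∀ ω : Kx a b → ℂ, (chart e ω).2.1.submatrix e.symm e.symm = stdB ω :=
    fun ω => sub_sub e (stdB ω)
  have c3 : ∀ ω : Kx a b → ℂ, (chart e ω).2.2.submatrix e.symm id = stdV ω := by
    intro ω
    ext i j
    simp [chart, reT, std]
  rw [c1, c1] at hA'
  rw [c2, c2] at hB'
  rw [c3, c3] at hV'
  obtain ⟨r1, r2, r3⟩ := std_inj hω hω' _ _
    (by rw [Matrix.det_submatrix_equiv_self]; exact hdet) hA' hB' hV'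
  refine ⟨?_, ?_, r3⟩
  · rw [← sub_sub' e h, r1, Matrix.submatrix_one_equiv]
  · rw [← sub_sub' e g, r2, Matrix.submatrix_one_equiv]

/-- The orbit map for reindexed charts. -/
def orbF (p : Matrix L L ℂ × Matrix L L ℂ × (Kx a b → ℂ)) : Tri N L :=
  (p.1 * (chart e p.2.2).1 * p.2.1, p.1 * (chart e p.2.2).2.1 * p.2.1, p.1 * (chart e p.2.2).2.2)

/-- Reindexing as a homeomorphism. -/
def reM : Matrix L L ℂ ≃ₜ Matrix (Ix a ⊕ Ix b) (Ix a ⊕ Ix b) ℂ where
  toFun M := M.submatrix e.symm e.symm
  invFun M := M.submatrix e e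
  left_inv M := sub_sub' e M
  right_inv M := sub_sub e M
  continuous_toFun := continuous_id.matrix_submatrix _ _
  continuous_invFun := continuous_id.matrix_submatrix _ _

/-- Reindexing of triples as a homeomorphism. -/
def reTh : Tri N (Ix a ⊕ Ix b) ≃ₜ Tri N L where
  toFun x := reT e x
  invFun x := reT e.symm x
  left_inv x := by
    refine Prod.ext ?_ (Prod.ext ?_ ?_)
    · ext i j
      simp [reT]
    · ext i j
      simp [reT]
    · ext i j
      simp [reT]
  right_inv x := by
    refine Prod.ext ?_ (Prod.ext ?_ ?_)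
    · ext i j
      simp [reT]
    · ext i j
      simp [reT]
    · ext i j
      simp [reT]
  continuous_toFun := by
    apply Continuous.prodMk
    · exact continuous_fst.matrix_submatrix _ _
    · apply Continuous.prodMk
      · exact (continuous_fst.comp continuous_snd).matrix_submatrix _ _
      · exact (continuous_snd.comp continuous_snd).matrix_submatrix _ _
  continuous_invFun := by
    apply Continuous.prodMk
    · exact continuous_fst.matrix_submatrix _ _
    · apply Continuous.prodMk
      · exact (continuous_fst.comp continuous_snd).matrix_submatrix _ _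
      · exact (continuous_snd.comp continuous_snd).matrix_submatrix _ _

theorem orbF_eq (p : Matrix L L ℂ × Matrix L L ℂ × (Kx a b → ℂ)) :
    orbF e p = reTh e (orb (reM e p.1, reM e p.2.1, p.2.2)) := by
  obtain ⟨h, g, ω⟩ := p
  have key : ∀ M : Matrix (Ix a ⊕ Ix b) (Ix a ⊕ Ix b) ℂ,
      h * (M.submatrix e e) * g =
        (h.submatrix e.symm e.symm * M * g.submatrix e.symm e.symm).submatrix e e := by
    intro M
    rw [← Matrix.submatrix_mul_equiv (h.submatrix e.symm e.symm * M) _ e e e,
      ← Matrix.submatrix_mul_equiv (h.submatrix e.symm e.symm) M e e e, sub_sub', sub_sub']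
  have key2 : ∀ M : Matrix (Ix a ⊕ Ix b) (Fin N) ℂ,
      h * (M.submatrix e id) = (h.submatrix e.symm e.symm * M).submatrix e id := by
    intro M
    rw [← Matrix.submatrix_mul_equiv (h.submatrix e.symm e.symm) M e e id, sub_sub']
  exact Prod.ext (key _) (Prod.ext (key _) (key2 _))

theorem map_nhds_orbF (h g : Matrix L L ℂ) (ω : Kx a b → ℂ) (hh : h.det ≠ 0) (hg : g.det ≠ 0)
    (hω : Dom n ω) : Filter.map (orbF e) (𝓝 (h, g, ω)) = 𝓝 (orbF e (h, g, ω)) := by
  let R : (Matrix L L ℂ × Matrix L L ℂ × (Kx a b → ℂ)) ≃ₜ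
      (Matrix (Ix a ⊕ Ix b) (Ix a ⊕ Ix b) ℂ × Matrix (Ix a ⊕ Ix b) (Ix a ⊕ Ix b) ℂ ×
        (Kx a b → ℂ)) :=
    (reM e).prodCongr ((reM e).prodCongr (Homeomorph.refl _))
  have h1 : orbF e = (reTh e) ∘ (orb (a := a) (b := b)) ∘ R := by
    funext p
    exact orbF_eq e p
  rw [h1, ← Filter.map_map, ← Filter.map_map, R.map_nhds_eq]
  have h2 : R (h, g, ω) = (reM e h, reM e g, ω) := rfl
  rw [h2, map_nhds_orb (n := n) _ _ _ _ _ hω, (reTh e).map_nhds_eq]
  · rfl
  · change (h.submatrix e.symm e.symm).det ≠ 0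
    rw [Matrix.det_submatrix_equiv_self]
    exact hh
  · change (g.submatrix e.symm e.symm).det ≠ 0
    rw [Matrix.det_submatrix_equiv_self]
    exact hg

theorem continuous_nxt (a : Fin N → ℕ) (i : Fin N) (l : ℕ) (x : Ix a) {E : Type*}
    [TopologicalSpace E] (c : E → Fin N → Ix a → ℂ)
    (hc : ∀ i x, Continuous (fun e => c e i x)) :
    Continuous (fun e => nxt a (c e) i l x) := by
  by_cases h : l < a i
  · simp only [nxt, dif_pos h]
    exact continuous_const
  · simp only [nxt, dif_neg h]
    exact hc i x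

theorem continuous_cmp (a : Fin N → ℕ) {E : Type*} [TopologicalSpace E]
    (c : E → Fin N → Ix a → ℂ) (hc : ∀ i x, Continuous (fun e => c e i x)) :
    Continuous (fun e => cmp a (c e)) :=
  continuous_pi (fun x => continuous_pi (fun y => continuous_nxt a y.1 (y.2 + 1) x c hc))

theorem isOpen_dom (n : ℕ) : IsOpen {ω : Kx a b → ℂ | Dom n ω} := by
  have h1 : Continuous (fun ω : Kx a b → ℂ => cmp a (cpart ω)) :=
    continuous_cmp a _ (fun i x => continuous_apply _)
  have h2 : Continuous (fun ω : Kx a b → ℂ => cmp b (dpart ω)) :=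
    continuous_cmp b _ (fun i x => continuous_apply _)
  exact isOpen_lt ((continuous_nrm.comp (h1.pow n)).mul (continuous_nrm.comp (h2.pow n)))
    continuous_const

theorem continuous_chart : Continuous (chart e : (Kx a b → ℂ) → Tri N L) := by
  have h1 : Continuous (fun ω : Kx a b → ℂ => (std ω : Tri N (Ix a ⊕ Ix b))) := by
    apply Continuous.prodMk
    · exact continuous_pi (fun i => continuous_pi (fun j => (contDiff_stdA i j).continuous))
    · apply Continuous.prodMk
      · exact continuous_pi (fun i => continuous_pi (fun j => (contDiff_stdB i j).continuous))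
      · exact continuous_pi (fun i => continuous_pi (fun j => (contDiff_stdV i j).continuous))
  exact (reTh e).continuous.comp h1

theorem gen_chart {ω : Kx a b → ℂ} (hω : Dom n ω) : Gen (chart e ω) :=
  (gen_std hω).iso (isoP_reT e _)

end

end

end Pool.Agent.Work.MP_196328_ag
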