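import Pool.Agent.Work.MP_196328_ag.Key

set_option autoImplicit false

namespace Pool.Agent.Work.MP_196328_ag

noncomputable section

open Matrix

section
variable {N : ℕ} {V : Type*} [AddCommGroup V] [Module ℂ V]

/-- The span of the iterates before `Z ^ l v_i`. -/
def pre (Z : V →ₗ[ℂ] V) (v : Fin N → V) (i : Fin N) (l : ℕ) : Submodule ℂ V :=
  Submodule.span ℂ {x | ∃ (k : Fin N) (m : ℕ), (k < i ∨ (k = i ∧ m < l)) ∧ x = (Z ^ m) (v k)}

theorem mem_pre {Z : V →ₗ[ℂ] V} {v : Fin N → V} {i : Fin N} {l : ℕ} {k : Fin N} {m : ℕ}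
    (h : k < i ∨ (k = i ∧ m < l)) : (Z ^ m) (v k) ∈ pre Z v i l :=
  Submodule.subset_span ⟨k, m, h, rfl⟩

theorem pre_mono (Z : V →ₗ[ℂ] V) (v : Fin N → V) (i : Fin N) : Monotone (pre Z v i) := by
  intro l l' hl
  apply Submodule.span_mono
  rintro x ⟨k, m, h, rfl⟩
  refine ⟨k, m, ?_, rfl⟩
  rcases h with h | h
  · exact Or.inl h
  · exact Or.inr ⟨h.1, lt_of_lt_of_le h.2 hl⟩

theorem exists_pre [FiniteDimensional ℂ V] (Z : V →ₗ[ℂ] V) (v : Fin N → V) (i : Fin N) :
    ∃ l, (Z ^ l) (v i) ∈ pre Z v i l := by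
  obtain ⟨l, hl⟩ := monotone_stabilizes_iff_noetherian.2
    (inferInstance : IsNoetherian ℂ V) ⟨pre Z v i, pre_mono Z v i⟩
  refine ⟨l, ?_⟩
  have h1 : pre Z v i l = pre Z v i (l + 1) := hl (l + 1) (Nat.le_succ l)
  rw [h1]
  exact mem_pre (Or.inr ⟨rfl, Nat.lt_succ_self l⟩)

/-- Coordinate flag, closed version. -/
def flagL (a : Fin N → ℕ) (i : Fin N) : Submodule ℂ (Ix a → ℂ) where
  carrier := {x | ∀ y : Ix a, i < y.1 → x y = 0}
  zero_mem' := fun _ _ => rfl
  add_mem' := by
    intro x y hx hy z hz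
    rw [Pi.add_apply, hx z hz, hy z hz, add_zero]
  smul_mem' := by
    intro r x hx z hz
    rw [Pi.smul_apply, hx z hz, smul_zero]

theorem pow_succ_app (Z : V →ₗ[ℂ] V) (m : ℕ) (x : V) : (Z ^ (m + 1)) x = Z ((Z ^ m) x) := by
  rw [pow_succ', Module.End.mul_apply]

/-- Normal form of a finitely generated module with a tuple of generators. -/
theorem nf [FiniteDimensional ℂ V] (Z : V →ₗ[ℂ] V) (v : Fin N → V)
    (hgen : ∀ W : Submodule ℂ V, (∀ i, v i ∈ W) → (∀ x ∈ W, Z x ∈ W) → W = ⊤) :
    ∃ (a : Fin N → ℕ) (c : Fin N → Ix a → ℂ) (φ : V ≃ₗ[ℂ] (Ix a → ℂ)),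
      (∀ x, φ (Z x) = cmp a c *ᵥ φ x) ∧ (∀ i, φ (v i) = nxt a c i 0) ∧
        ∀ i y, i < y.1 → c i y = 0 := by
  classical
  choose a ha hmin using fun i => (⟨Nat.find (exists_pre Z v i), Nat.find_spec (exists_pre Z v i),
    fun l hl => Nat.find_min (exists_pre Z v i) hl⟩ :
      ∃ l, (Z ^ l) (v i) ∈ pre Z v i l ∧ ∀ l', l' < l → ¬ (Z ^ l') (v i) ∈ pre Z v i l')
  let u : Ix a → V := fun y => (Z ^ (y.2 : ℕ)) (v y.1)
  -- stability of the truncated span
  have hstab : ∀ i, ∀ x ∈ pre Z v i (a i), Z x ∈ pre Z v i (a i) := by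
    intro i x hx
    have : pre Z v i (a i) ≤ (pre Z v i (a i)).comap Z := by
      rw [pre, Submodule.span_le]
      rintro _ ⟨k, m, h, rfl⟩
      change Z ((Z ^ m) (v k)) ∈ pre Z v i (a i)
      rw [← pow_succ_app]
      rcases h with h | ⟨h, hm⟩
      · exact mem_pre (Or.inl h)
      · subst h
        rcases (Nat.succ_le_of_lt hm).lt_or_eq with h' | h'
        · exact mem_pre (Or.inr ⟨rfl, h'⟩)
        · have h'' : m + 1 = a k := h'
          rw [h'']
          exact ha k
    exact this hx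
  have hall : ∀ i l, (Z ^ l) (v i) ∈ pre Z v i (a i) := by
    intro i l
    induction l with
    | zero =>
      rcases Nat.eq_zero_or_pos (a i) with h0 | h0
      · have := ha i
        rw [h0] at this
        rw [h0]
        exact this
      · exact mem_pre (Or.inr ⟨rfl, h0⟩)
    | succ l ih =>
      rw [pow_succ_app]
      exact hstab i _ ih
  -- spanning, with the flag
  have hflag : ∀ n : ℕ, ∀ i : Fin N, (i : ℕ) < n → ∀ l,
      (Z ^ l) (v i) ∈ Submodule.span ℂ (u '' {y | y.1 ≤ i}) := by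
    intro n
    induction n with
    | zero => intro i hi; omega
    | succ n ih =>
      intro i hi l
      have hle : pre Z v i (a i) ≤ Submodule.span ℂ (u '' {y | y.1 ≤ i}) := by
        rw [pre, Submodule.span_le]
        rintro _ ⟨k, m, h, rfl⟩
        rcases h with h | ⟨h, hm⟩
        · apply Submodule.span_mono _ (ih k (by have := Fin.lt_def.1 h; omega) m)
          apply Set.image_mono
          intro y hy
          exact le_trans hy h.le
        · subst h
          exact Submodule.subset_span ⟨⟨k, ⟨m, hm⟩⟩, le_refl k, rfl⟩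
      exact hle (hall i l)
  have hflag' : ∀ (i : Fin N) l, (Z ^ l) (v i) ∈ Submodule.span ℂ (u '' {y | y.1 ≤ i}) :=
    fun i l => hflag _ i (Nat.lt_succ_self _) l
  have hspan : Submodule.span ℂ (Set.range u) = ⊤ := by
    apply hgen
    · intro i
      exact Submodule.span_mono (Set.image_subset_range _ _) (hflag' i 0)
    · intro x hx
      have : Submodule.span ℂ (Set.range u) ≤ (Submodule.span ℂ (Set.range u)).comap Z := by
        rw [Submodule.span_le]
        rintro _ ⟨y, rfl⟩
        change Z ((Z ^ (y.2 : ℕ)) (v y.1)) ∈ Submodule.span ℂ (Set.range u)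
        rw [← pow_succ_app]
        exact Submodule.span_mono (Set.image_subset_range _ _) (hflag' y.1 _)
      exact this hx
  -- independence
  have hli : LinearIndependent ℂ u := by
    rw [Fintype.linearIndependent_iff]
    intro g hg
    by_contra hne
    push Not at hne
    obtain ⟨y0, hy0⟩ := hne
    obtain ⟨y, hy, hmax⟩ := Finset.exists_max_image (Finset.univ.filter (fun y => g y ≠ 0))
      (fun y : Ix a => (toLex (y.1, (y.2 : ℕ)) : Fin N ×ₗ ℕ)) ⟨y0, by simpa using hy0⟩
    rw [Finset.mem_filter] at hy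
    apply hmin y.1 y.2 y.2.2
    have h1 : g y • u y ∈ pre Z v y.1 y.2 := by
      have h2 : g y • u y = - ∑ y' ∈ Finset.univ.erase y, g y' • u y' := by
        rw [← Finset.add_sum_erase _ _ (Finset.mem_univ y)] at hg
        exact eq_neg_of_add_eq_zero_left hg
      rw [h2]
      apply Submodule.neg_mem
      apply Submodule.sum_mem
      intro y' hy'
      by_cases h0 : g y' = 0
      · rw [h0, zero_smul]
        exact Submodule.zero_mem _
      · apply Submodule.smul_mem
        apply mem_pre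
        have h3 := hmax y' (by simpa using h0)
        rw [Prod.Lex.toLex_le_toLex] at h3
        rcases h3 with h3 | ⟨h3, h4⟩
        · exact Or.inl h3
        · right
          refine ⟨h3, lt_of_le_of_ne h4 ?_⟩
          intro h5
          apply (Finset.mem_erase.1 hy').1
          obtain ⟨i, l⟩ := y
          obtain ⟨i', l'⟩ := y'
          simp only at h3
          subst h3
          congr 1
          exact Fin.ext h5
    exact (Submodule.smul_mem_iff _ hy.2).1 h1
  let B : Module.Basis (Ix a) ℂ V := Module.Basis.mk hli (le_of_eq hspan.symm)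
  have hB : ∀ y, B y = u y := fun y => Module.Basis.mk_apply hli _ y
  let φ : V ≃ₗ[ℂ] (Ix a → ℂ) := B.equivFun
  have hφu : ∀ y, φ (u y) = Pi.single y 1 := by
    intro y
    rw [← hB]
    funext z
    rw [B.equivFun_self]
    by_cases h : y = z
    · rw [if_pos h, h, Pi.single_eq_same]
    · rw [if_neg h, Pi.single_eq_of_ne (Ne.symm h)]
  let c : Fin N → Ix a → ℂ := fun i => φ ((Z ^ (a i)) (v i))
  have hnxt : ∀ i l, l ≤ a i → φ ((Z ^ l) (v i)) = nxt a c i l := by
    intro i l hl
    rcases hl.lt_or_eq with h | h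
    · have := hφu ⟨i, ⟨l, h⟩⟩
      rw [nxt, dif_pos h]
      exact this
    · subst h
      rw [nxt_ge i (a i) le_rfl]
  refine ⟨a, c, φ, ?_, ?_, ?_⟩
  · have : φ.toLinearMap ∘ₗ Z = (Matrix.mulVecLin (cmp a c)) ∘ₗ φ.toLinearMap := by
      apply B.ext
      intro y
      rw [hB]
      change φ (Z (u y)) = cmp a c *ᵥ φ (u y)
      rw [hφu, cmp_single]
      change φ (Z ((Z ^ (y.2 : ℕ)) (v y.1))) = _
      rw [← pow_succ_app]
      exact hnxt y.1 _ y.2.2
    intro x
    exact LinearMap.congr_fun this x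
  · intro i
    exact hnxt i 0 (Nat.zero_le _)
  · intro i y hy
    have hle : Submodule.span ℂ (u '' {y | y.1 ≤ i}) ≤ (flagL a i).comap φ.toLinearMap := by
      rw [Submodule.span_le]
      rintro _ ⟨y', hy', rfl⟩
      intro z hz
      change φ (u y') z = 0
      rw [hφu]
      apply Pi.single_eq_of_ne
      rintro rfl
      exact absurd hz (not_lt.2 hy')
    exact hle (hflag' i (a i)) y hy

end

end

end Pool.Agent.Work.MP_196328_ag
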