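import Pool.Agent.Work.MP_196328_ag.Chart

set_option autoImplicit false

namespace Pool.Agent.Work.MP_196328_ag

noncomputable section

open Filter Topology

section
variable {E F : Type*} [NormedAddCommGroup E] [NormedSpace ℂ E] [FiniteDimensional ℂ E]
  [NormedAddCommGroup F] [NormedSpace ℂ F] [FiniteDimensional ℂ F]

theorem open_of_inj (f : E → F) (x : E) (hf : ContDiffAt ℂ 1 f x)
    (hdim : Module.finrank ℂ E = Module.finrank ℂ F)
    (hinj : ∀ v, HasDerivAt (fun t : ℂ => f (x + t • v)) 0 0 → v = 0) :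
    Filter.map f (𝓝 x) = 𝓝 (f x) := by
  have : CompleteSpace E := FiniteDimensional.complete ℂ E
  have : CompleteSpace F := FiniteDimensional.complete ℂ F
  have hs := hf.hasStrictFDerivAt one_ne_zero
  have hi : Function.Injective (fderiv ℂ f x : E →ₗ[ℂ] F) := by
    rw [injective_iff_map_eq_zero]
    intro v hv
    apply hinj
    have h1 : HasFDerivAt f (fderiv ℂ f x) (x + (0 : ℂ) • v) := by
      rw [zero_smul, add_zero]
      exact hs.hasFDerivAt
    have h2 : HasDerivAt (fun t : ℂ => x + t • v) v 0 := by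
      have := ((hasDerivAt_id (0 : ℂ)).smul_const v).const_add x
      rw [one_smul] at this
      exact this
    have h3 := h1.comp_hasDerivAt (0 : ℂ) h2
    have h4 : fderiv ℂ f x v = 0 := hv
    rw [h4] at h3
    exact h3
  apply hs.map_nhds_eq_of_surj
  rw [LinearMap.range_eq_top]
  exact (LinearMap.injective_iff_surjective_of_finrank_eq_finrank hdim).1 hi

theorem hasDerivAt_poly (C L Q R : F) :
    HasDerivAt (fun t : ℂ => C + t • L + t ^ 2 • Q + t ^ 3 • R) L 0 := by
  have h1 := ((hasDerivAt_id (0 : ℂ)).smul_const L).const_add C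
  have h2 := ((hasDerivAt_pow 2 (0 : ℂ))).smul_const Q
  have h3 := ((hasDerivAt_pow 3 (0 : ℂ))).smul_const R
  have h4 := (h1.add h2).add h3
  have e : (1 : ℂ) • L + (((2 : ℕ) : ℂ) * 0 ^ (2 - 1)) • Q + (((3 : ℕ) : ℂ) * 0 ^ (3 - 1)) • R = L := by
    simp
  rw [e] at h4
  exact h4

end

section
variable {N : ℕ} {a b : Fin N → ℕ}

open scoped Matrix.Norms.Elementwise

theorem contDiff_nxt (a : Fin N → ℕ) (i : Fin N) (l : ℕ) (x : Ix a) {E : Type*}
    [NormedAddCommGroup E] [NormedSpace ℂ E] (c : E → Fin N → Ix a → ℂ)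
    (hc : ∀ i x, ContDiff ℂ 1 (fun e => c e i x)) :
    ContDiff ℂ 1 (fun e => nxt a (c e) i l x) := by
  by_cases h : l < a i
  · simp only [nxt, dif_pos h]
    exact contDiff_const
  · simp only [nxt, dif_neg h]
    exact hc i x

theorem contDiff_stdA (i j : Ix a ⊕ Ix b) : ContDiff ℂ 1 (fun ω : Kx a b → ℂ => stdA ω i j) := by
  rcases i with x | x <;> rcases j with y | y
  · exact contDiff_nxt a y.1 (y.2 + 1) x (fun ω : Kx a b → ℂ => cpart ω)
      (fun i x => contDiff_apply ℂ ℂ _)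
  · exact contDiff_const
  · exact contDiff_const
  · exact contDiff_const

theorem contDiff_stdB (i j : Ix a ⊕ Ix b) : ContDiff ℂ 1 (fun ω : Kx a b → ℂ => stdB ω i j) := by
  rcases i with x | x <;> rcases j with y | y
  · exact contDiff_const
  · exact contDiff_const
  · exact contDiff_const
  · exact contDiff_nxt b y.1 (y.2 + 1) x (fun ω : Kx a b → ℂ => dpart ω)
      (fun i x => contDiff_apply ℂ ℂ _)

theorem contDiff_stdV (i : Ix a ⊕ Ix b) (j : Fin N) :
    ContDiff ℂ 1 (fun ω : Kx a b → ℂ => stdV ω i j) := by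
  rcases i with x | x
  · exact contDiff_nxt a j 0 x (fun ω : Kx a b → ℂ => cpart ω)
      (fun i x => contDiff_apply ℂ ℂ _)
  · exact contDiff_nxt b j 0 x (fun ω : Kx a b → ℂ => dpart ω)
      (fun i x => contDiff_apply ℂ ℂ _)

/-- The orbit map of the chart, `g` in the role of an inverse. -/
def orb (p : Matrix (Ix a ⊕ Ix b) (Ix a ⊕ Ix b) ℂ × Matrix (Ix a ⊕ Ix b) (Ix a ⊕ Ix b) ℂ ×
    (Kx a b → ℂ)) : Matrix (Ix a ⊕ Ix b) (Ix a ⊕ Ix b) ℂ ×
    Matrix (Ix a ⊕ Ix b) (Ix a ⊕ Ix b) ℂ × Matrix (Ix a ⊕ Ix b) (Fin N) ℂ :=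
  (p.1 * stdA p.2.2 * p.2.1, p.1 * stdB p.2.2 * p.2.1, p.1 * stdV p.2.2)

theorem contDiff_entry {E : Type*} [NormedAddCommGroup E] [NormedSpace ℂ E] {I J L : Type*}
    [Fintype I] [Fintype J] [Fintype L] (X : E → Matrix I J ℂ) (Y : E → Matrix J L ℂ)
    (hX : ∀ i j, ContDiff ℂ 1 (fun e => X e i j)) (hY : ∀ i j, ContDiff ℂ 1 (fun e => Y e i j)) :
    ∀ i j, ContDiff ℂ 1 (fun e => (X e * Y e) i j) := by
  intro i j
  simp only [Matrix.mul_apply]
  apply ContDiff.sum
  intro l _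
  exact (hX i l).mul (hY l j)

theorem contDiff_mat {E : Type*} [NormedAddCommGroup E] [NormedSpace ℂ E] {I J : Type*}
    [Fintype I] [Fintype J] (X : E → Matrix I J ℂ)
    (hX : ∀ i j, ContDiff ℂ 1 (fun e => X e i j)) : ContDiff ℂ 1 X :=
  contDiff_pi.2 (fun i => contDiff_pi.2 (fun j => hX i j))

theorem contDiff_orb : ContDiff ℂ 1 (orb (a := a) (b := b)) := by
  have e1 : ∀ i j, ContDiff ℂ 1 (fun p : Matrix (Ix a ⊕ Ix b) (Ix a ⊕ Ix b) ℂ ×
      Matrix (Ix a ⊕ Ix b) (Ix a ⊕ Ix b) ℂ × (Kx a b → ℂ) => p.1 i j) := by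
    intro i j
    exact ((contDiff_apply ℂ ℂ j).comp (contDiff_apply ℂ (Ix a ⊕ Ix b → ℂ) i)).comp contDiff_fst
  have e2 : ∀ i j, ContDiff ℂ 1 (fun p : Matrix (Ix a ⊕ Ix b) (Ix a ⊕ Ix b) ℂ ×
      Matrix (Ix a ⊕ Ix b) (Ix a ⊕ Ix b) ℂ × (Kx a b → ℂ) => p.2.1 i j) := by
    intro i j
    exact ((contDiff_apply ℂ ℂ j).comp (contDiff_apply ℂ (Ix a ⊕ Ix b → ℂ) i)).comp
      (contDiff_fst.comp contDiff_snd)
  have e3 : ContDiff ℂ 1 (fun p : Matrix (Ix a ⊕ Ix b) (Ix a ⊕ Ix b) ℂ ×
      Matrix (Ix a ⊕ Ix b) (Ix a ⊕ Ix b) ℂ × (Kx a b → ℂ) => p.2.2) :=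
    contDiff_snd.comp contDiff_snd
  apply ContDiff.prodMk
  · apply contDiff_mat
    exact contDiff_entry _ _ (contDiff_entry _ _ e1 (fun i j => (contDiff_stdA i j).comp e3)) e2
  · apply ContDiff.prodMk
    · apply contDiff_mat
      exact contDiff_entry _ _ (contDiff_entry _ _ e1 (fun i j => (contDiff_stdB i j).comp e3)) e2
    · apply contDiff_mat
      exact contDiff_entry _ _ e1 (fun i j => (contDiff_stdV i j).comp e3)

theorem map_nhds_orb {n : ℕ} (h g : Matrix (Ix a ⊕ Ix b) (Ix a ⊕ Ix b) ℂ) (ω : Kx a b → ℂ)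
    (hh : h.det ≠ 0) (hg : g.det ≠ 0) (hω : Dom n ω) :
    Filter.map (orb (a := a) (b := b)) (𝓝 (h, g, ω)) = 𝓝 (orb (h, g, ω)) := by
  apply open_of_inj
  · exact contDiff_orb.contDiffAt
  · simp only [Module.finrank_prod, Module.finrank_matrix, Module.finrank_fintype_fun_eq_card,
      Fintype.card_sum, Fintype.card_prod, Fintype.card_fin, Module.finrank_self]
    ring
  · rintro ⟨H, G, δ⟩ hder
    have hexp : ∀ t : ℂ, orb ((h, g, ω) + t • (H, G, δ)) =
        (h * stdA ω * g, h * stdB ω * g, h * stdV ω) +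
        t • (H * stdA ω * g + h * stdA0 δ * g + h * stdA ω * G,
          H * stdB ω * g + h * stdB0 δ * g + h * stdB ω * G, H * stdV ω + h * stdV0 δ) +
        t ^ 2 • (H * stdA0 δ * g + H * stdA ω * G + h * stdA0 δ * G,
          H * stdB0 δ * g + H * stdB ω * G + h * stdB0 δ * G, H * stdV0 δ) +
        t ^ 3 • (H * stdA0 δ * G, H * stdB0 δ * G, (0 : Matrix (Ix a ⊕ Ix b) (Fin N) ℂ)) := by
      intro t
      simp only [orb, Prod.fst_add, Prod.snd_add, Prod.smul_fst, Prod.smul_snd, stdA_add,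
        stdB_add, stdV_add]
      refine Prod.ext ?_ (Prod.ext ?_ ?_)
      · simp only [Prod.fst_add, Prod.smul_fst, Matrix.add_mul, Matrix.mul_add, Matrix.smul_mul,
          Matrix.mul_smul]
        module
      · simp only [Prod.fst_add, Prod.snd_add, Prod.smul_fst, Prod.smul_snd, Matrix.add_mul,
          Matrix.mul_add, Matrix.smul_mul, Matrix.mul_smul]
        module
      · simp only [Prod.snd_add, Prod.smul_snd, Matrix.add_mul,
          Matrix.mul_add, Matrix.smul_mul, Matrix.mul_smul]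
        module
    have h1 := hasDerivAt_poly (h * stdA ω * g, h * stdB ω * g, h * stdV ω)
      (H * stdA ω * g + h * stdA0 δ * g + h * stdA ω * G,
          H * stdB ω * g + h * stdB0 δ * g + h * stdB ω * G, H * stdV ω + h * stdV0 δ)
      (H * stdA0 δ * g + H * stdA ω * G + h * stdA0 δ * G,
          H * stdB0 δ * g + H * stdB ω * G + h * stdB0 δ * G, H * stdV0 δ)
      (H * stdA0 δ * G, H * stdB0 δ * G, (0 : Matrix (Ix a ⊕ Ix b) (Fin N) ℂ))
    simp only [hexp] at hder
    have h2 := hder.unique h1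
    have hA : H * stdA ω * g + h * stdA0 δ * g + h * stdA ω * G = 0 :=
      (congrArg (fun x => x.1) h2).symm
    have hB : H * stdB ω * g + h * stdB0 δ * g + h * stdB ω * G = 0 :=
      (congrArg (fun x => x.2.1) h2).symm
    have hV : H * stdV ω + h * stdV0 δ = 0 := (congrArg (fun x => x.2.2) h2).symm
    have uh : IsUnit h.det := hh.isUnit
    have ug : IsUnit g.det := hg.isUnit
    obtain ⟨r1, r2, r3⟩ := std_lin hω δ (h⁻¹ * H) (G * g⁻¹)
      (by
        have := congrArg (fun M => h⁻¹ * M * g⁻¹) hA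
        simp only [Matrix.mul_add, Matrix.add_mul, Matrix.mul_zero, Matrix.zero_mul] at this
        rw [← this]
        simp only [Matrix.mul_assoc, Matrix.mul_nonsing_inv _ ug, Matrix.mul_one]
        simp only [← Matrix.mul_assoc, Matrix.nonsing_inv_mul _ uh, Matrix.one_mul]
        abel)
      (by
        have := congrArg (fun M => h⁻¹ * M * g⁻¹) hB
        simp only [Matrix.mul_add, Matrix.add_mul, Matrix.mul_zero, Matrix.zero_mul] at this
        rw [← this]
        simp only [Matrix.mul_assoc, Matrix.mul_nonsing_inv _ ug, Matrix.mul_one]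
        simp only [← Matrix.mul_assoc, Matrix.nonsing_inv_mul _ uh, Matrix.one_mul]
        abel)
      (by
        have := congrArg (fun M => h⁻¹ * M) hV
        simp only [Matrix.mul_add, Matrix.mul_zero] at this
        rw [← this]
        simp only [← Matrix.mul_assoc, Matrix.nonsing_inv_mul _ uh, Matrix.one_mul])
    have s1 : H = 0 := by
      calc H = h * (h⁻¹ * H) := by
            rw [← Matrix.mul_assoc, Matrix.mul_nonsing_inv _ uh, Matrix.one_mul]
        _ = 0 := by rw [r1, Matrix.mul_zero]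
    have s2 : G = 0 := by
      calc G = (G * g⁻¹) * g := by
            rw [Matrix.mul_assoc, Matrix.nonsing_inv_mul _ ug, Matrix.mul_one]
        _ = 0 := by rw [r2, Matrix.zero_mul]
    rw [s1, s2, r3]
    rfl

end

end

end Pool.Agent.Work.MP_196328_ag
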