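import Pool.Agent.Work.MP_196328_ag.Loc
import Pool.Agent.Work.MP_196328_ag.FrameC

set_option autoImplicit false

namespace Pool.Agent.Work.MP_196328_ag

noncomputable section

open Matrix Topology

section
variable {N n : ℕ}

theorem li_mul {F : Matrix (Fin n) ℕ ℂ} (hF : LinearIndependent ℂ F.row)
    (g : Matrix (Fin n) (Fin n) ℂ) (hg : g.det ≠ 0) : LinearIndependent ℂ (g * F).row := by
  rw [li_iff] at hF ⊢
  intro ξ hξ
  have h1 : (ξ ᵥ* g) ᵥ* F = 0 := by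
    funext m
    have := congrFun hξ m
    rw [Matrix.vecMul, dotProduct] at this ⊢
    simp only [Matrix.mul_apply, Finset.mul_sum] at this
    rw [Finset.sum_comm] at this
    rw [← this]
    apply Finset.sum_congr rfl
    intro i _
    simp only [Matrix.vecMul, dotProduct, Finset.sum_mul]
    apply Finset.sum_congr rfl
    intro j _
    ring
  have h2 := hF _ h1
  have hu : IsUnit g.det := hg.isUnit
  calc ξ = (ξ ᵥ* g) ᵥ* g⁻¹ := by
        rw [Matrix.vecMul_vecMul, Matrix.mul_nonsing_inv _ hu, Matrix.vecMul_one]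
    _ = 0 := by rw [h2, Matrix.zero_vecMul]

/-- Change of frame. -/
def mulF (g : Matrix (Fin n) (Fin n) ℂ) (hg : g.det ≠ 0) (F : Frame n) : Frame n :=
  ⟨g * F.1, li_mul F.2 g hg⟩

abbrev GenT (N n : ℕ) := {x : Tri N (Fin n) // Gen x}

abbrev YN (N n : ℕ) := Frame n × Frame n × GenT N n

/-- Orbit relation on framed generated pencils. -/
def relN (x y : YN N n) : Prop :=
  ∃ g h : GL (Fin n) ℂ, y.1.1 = (g : Matrix (Fin n) (Fin n) ℂ) * x.1.1 ∧
    y.2.1.1 = (h : Matrix (Fin n) (Fin n) ℂ) * x.2.1.1 ∧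
    y.2.2.1.1 = (h : Matrix (Fin n) (Fin n) ℂ) * x.2.2.1.1 * (g⁻¹ : GL (Fin n) ℂ) ∧
    y.2.2.1.2.1 = (h : Matrix (Fin n) (Fin n) ℂ) * x.2.2.1.2.1 * (g⁻¹ : GL (Fin n) ℂ) ∧
    y.2.2.1.2.2 = (h : Matrix (Fin n) (Fin n) ℂ) * x.2.2.1.2.2

theorem mul_frame {p : Type*} (g h : Matrix (Fin n) (Fin n) ℂ) (F : Matrix (Fin n) p ℂ) :
    g * (h * F) = (g * h) * F := (Matrix.mul_assoc g h F).symm

theorem relN_equiv : Equivalence (relN (N := N) (n := n)) := by
  refine ⟨?_, ?_, ?_⟩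
  · intro x
    refine ⟨1, 1, ?_, ?_, ?_, ?_, ?_⟩ <;> simp
  · rintro x y ⟨g, h, h1, h2, h3, h4, h5⟩
    refine ⟨g⁻¹, h⁻¹, ?_, ?_, ?_, ?_, ?_⟩
    · rw [h1, mul_frame, ← Units.val_mul, inv_mul_cancel, Units.val_one, Matrix.one_mul]
    · rw [h2, mul_frame, ← Units.val_mul, inv_mul_cancel, Units.val_one, Matrix.one_mul]
    · rw [h3, inv_inv, Matrix.mul_assoc, Matrix.mul_assoc, Matrix.mul_assoc, ← Units.val_mul,
        inv_mul_cancel, Units.val_one, Matrix.mul_one, ← Matrix.mul_assoc, ← Units.val_mul,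
        inv_mul_cancel, Units.val_one, Matrix.one_mul]
    · rw [h4, inv_inv, Matrix.mul_assoc, Matrix.mul_assoc, Matrix.mul_assoc, ← Units.val_mul,
        inv_mul_cancel, Units.val_one, Matrix.mul_one, ← Matrix.mul_assoc, ← Units.val_mul,
        inv_mul_cancel, Units.val_one, Matrix.one_mul]
    · rw [h5, mul_frame, ← Units.val_mul, inv_mul_cancel, Units.val_one, Matrix.one_mul]
  · rintro x y z ⟨g, h, h1, h2, h3, h4, h5⟩ ⟨g', h', k1, k2, k3, k4, k5⟩
    refine ⟨g' * g, h' * h, ?_, ?_, ?_, ?_, ?_⟩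
    · rw [k1, h1, mul_frame, ← Units.val_mul]
    · rw [k2, h2, mul_frame, ← Units.val_mul]
    · rw [k3, h3, _root_.mul_inv_rev, Units.val_mul, Units.val_mul]
      simp only [Matrix.mul_assoc]
    · rw [k4, h4, _root_.mul_inv_rev, Units.val_mul, Units.val_mul]
      simp only [Matrix.mul_assoc]
    · rw [k5, h5, mul_frame, ← Units.val_mul]

def stN (N n : ℕ) : Setoid (YN N n) := ⟨relN, relN_equiv⟩

/-- The homotopy quotient of the space of generated pencils. -/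
abbrev RN (N n : ℕ) := Quotient (stN N n)

variable {a b : Fin N → ℕ} (e : Fin n ≃ Ix a ⊕ Ix b)

/-- The tautological lift of the chart. -/
def kapY (p : Frame n × Frame n × {ω : Kx a b → ℂ // Dom n ω}) : YN N n :=
  (p.1, p.2.1, ⟨chart e p.2.2.1, gen_chart e p.2.2.2⟩)

/-- The chart on the quotient. -/
def kap (p : Frame n × Frame n × {ω : Kx a b → ℂ // Dom n ω}) : RN N n :=
  Quotient.mk (stN N n) (kapY e p)

theorem continuous_kap : Continuous (kap e) := by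
  apply continuous_quotient_mk'.comp
  apply Continuous.prodMk continuous_fst
  apply Continuous.prodMk (continuous_fst.comp continuous_snd)
  apply Continuous.subtype_mk
  exact (continuous_chart e).comp
    (continuous_subtype_val.comp (continuous_snd.comp continuous_snd))

theorem kap_injective : Function.Injective (kap e) := by
  rintro ⟨F, H, ω⟩ ⟨F', H', ω'⟩ heq
  obtain ⟨g, h, h1, h2, h3, h4, h5⟩ : relN _ _ := Quotient.exact heq
  simp only [kapY] at h1 h2 h3 h4 h5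
  have hgi : ((g⁻¹ : GL (Fin n) ℂ) : Matrix (Fin n) (Fin n) ℂ) * (g : Matrix (Fin n) (Fin n) ℂ) =
      1 := by
    rw [← Units.val_mul, inv_mul_cancel, Units.val_one]
  have hdet : (h : Matrix (Fin n) (Fin n) ℂ).det ≠ 0 :=
    ((Matrix.isUnit_iff_isUnit_det _).1 h.isUnit).ne_zero
  obtain ⟨r1, r2, r3⟩ := chart_inj e ω.2 ω'.2 (h : Matrix (Fin n) (Fin n) ℂ)
    (g : Matrix (Fin n) (Fin n) ℂ) hdet
    (by rw [h3, Matrix.mul_assoc, hgi, Matrix.mul_one])
    (by rw [h4, Matrix.mul_assoc, hgi, Matrix.mul_one]) h5.symm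
  rw [r2, Matrix.one_mul] at h1
  rw [r1, Matrix.one_mul] at h2
  refine Prod.ext (Subtype.ext h1.symm) (Prod.ext (Subtype.ext h2.symm) (Subtype.ext r3.symm))

theorem isOpenMap_kap : IsOpenMap (kap e) := by
  intro U hU
  -- `U` comes from an open set of the ambient space
  let ι : Frame n × Frame n × {ω : Kx a b → ℂ // Dom n ω} →
      Matrix (Fin n) ℕ ℂ × Matrix (Fin n) ℕ ℂ × (Kx a b → ℂ) :=
    Prod.map Subtype.val (Prod.map Subtype.val Subtype.val)
  have hι : IsInducing ι := IsInducing.subtypeVal.prodMap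
    (IsInducing.subtypeVal.prodMap IsInducing.subtypeVal)
  obtain ⟨O, hO, hOU⟩ := hι.isOpen_iff.1 hU
  rw [isOpen_coinduced]
  rw [isOpen_iff_mem_nhds]
  rintro ⟨F', H', T⟩ hy
  obtain ⟨⟨F, H, ω⟩, hmem, heq⟩ := hy
  obtain ⟨g, h, h1, h2, h3, h4, h5⟩ : relN _ _ := Quotient.exact heq
  simp only [kapY] at h1 h2 h3 h4 h5
  have hgi : ((g⁻¹ : GL (Fin n) ℂ) : Matrix (Fin n) (Fin n) ℂ) * (g : Matrix (Fin n) (Fin n) ℂ) =
      1 := by
    rw [← Units.val_mul, inv_mul_cancel, Units.val_one]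
  have hdeth : (h : Matrix (Fin n) (Fin n) ℂ).det ≠ 0 :=
    ((Matrix.isUnit_iff_isUnit_det _).1 h.isUnit).ne_zero
  have hdetg : ((g⁻¹ : GL (Fin n) ℂ) : Matrix (Fin n) (Fin n) ℂ).det ≠ 0 :=
    ((Matrix.isUnit_iff_isUnit_det _).1 (g⁻¹).isUnit).ne_zero
  -- the neighbourhood in the source of the orbit map
  let W : Set ((Frame n × Frame n) × (Matrix (Fin n) (Fin n) ℂ × Matrix (Fin n) (Fin n) ℂ ×
      (Kx a b → ℂ))) := {q | q.2.1.det ≠ 0 ∧ q.2.2.1.det ≠ 0 ∧ Dom n q.2.2.2 ∧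
        (q.2.2.1 * q.1.1.1, q.2.1⁻¹ * q.1.2.1, q.2.2.2) ∈ O}
  have hW : W ∈ 𝓝 ((F', H'), ((h : Matrix (Fin n) (Fin n) ℂ),
      ((g⁻¹ : GL (Fin n) ℂ) : Matrix (Fin n) (Fin n) ℂ), ω.1)) := by
    have c1 : Continuous (fun q : (Frame n × Frame n) × (Matrix (Fin n) (Fin n) ℂ ×
        Matrix (Fin n) (Fin n) ℂ × (Kx a b → ℂ)) => q.2.1) := continuous_fst.comp continuous_snd
    have c2 : Continuous (fun q : (Frame n × Frame n) × (Matrix (Fin n) (Fin n) ℂ ×
        Matrix (Fin n) (Fin n) ℂ × (Kx a b → ℂ)) => q.2.2.1) :=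
      continuous_fst.comp (continuous_snd.comp continuous_snd)
    have c3 : Continuous (fun q : (Frame n × Frame n) × (Matrix (Fin n) (Fin n) ℂ ×
        Matrix (Fin n) (Fin n) ℂ × (Kx a b → ℂ)) => q.2.2.2) :=
      continuous_snd.comp (continuous_snd.comp continuous_snd)
    have c4 : Continuous (fun q : (Frame n × Frame n) × (Matrix (Fin n) (Fin n) ℂ ×
        Matrix (Fin n) (Fin n) ℂ × (Kx a b → ℂ)) => q.1.1.1) :=
      continuous_subtype_val.comp (continuous_fst.comp continuous_fst)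
    have c5 : Continuous (fun q : (Frame n × Frame n) × (Matrix (Fin n) (Fin n) ℂ ×
        Matrix (Fin n) (Fin n) ℂ × (Kx a b → ℂ)) => q.1.2.1) :=
      continuous_subtype_val.comp (continuous_snd.comp continuous_fst)
    have o1 : ∀ᶠ q in 𝓝 ((F', H'), ((h : Matrix (Fin n) (Fin n) ℂ),
        ((g⁻¹ : GL (Fin n) ℂ) : Matrix (Fin n) (Fin n) ℂ), ω.1)), q.2.1.det ≠ 0 :=
      (isOpen_ne.preimage c1.matrix_det).mem_nhds hdeth
    have o2 : ∀ᶠ q in 𝓝 ((F', H'), ((h : Matrix (Fin n) (Fin n) ℂ),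
        ((g⁻¹ : GL (Fin n) ℂ) : Matrix (Fin n) (Fin n) ℂ), ω.1)), q.2.2.1.det ≠ 0 :=
      (isOpen_ne.preimage c2.matrix_det).mem_nhds hdetg
    have o3 : ∀ᶠ q in 𝓝 ((F', H'), ((h : Matrix (Fin n) (Fin n) ℂ),
        ((g⁻¹ : GL (Fin n) ℂ) : Matrix (Fin n) (Fin n) ℂ), ω.1)), Dom n q.2.2.2 :=
      ((isOpen_dom n).preimage c3).mem_nhds ω.2
    have hinv : ContinuousAt (fun q : (Frame n × Frame n) × (Matrix (Fin n) (Fin n) ℂ ×
        Matrix (Fin n) (Fin n) ℂ × (Kx a b → ℂ)) => q.2.1⁻¹)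
        ((F', H'), ((h : Matrix (Fin n) (Fin n) ℂ),
        ((g⁻¹ : GL (Fin n) ℂ) : Matrix (Fin n) (Fin n) ℂ), ω.1)) := by
      simp only [Matrix.inv_def, Ring.inverse_eq_inv']
      exact (c1.matrix_det.continuousAt.inv₀ hdeth).smul c1.matrix_adjugate.continuousAt
    have hcont : ContinuousAt (fun q : (Frame n × Frame n) × (Matrix (Fin n) (Fin n) ℂ ×
        Matrix (Fin n) (Fin n) ℂ × (Kx a b → ℂ)) =>
          ((q.2.2.1 * q.1.1.1, q.2.1⁻¹ * q.1.2.1, q.2.2.2) :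
            Matrix (Fin n) ℕ ℂ × Matrix (Fin n) ℕ ℂ × (Kx a b → ℂ)))
        ((F', H'), ((h : Matrix (Fin n) (Fin n) ℂ),
        ((g⁻¹ : GL (Fin n) ℂ) : Matrix (Fin n) (Fin n) ℂ), ω.1)) := by
      apply ContinuousAt.prodMk
      · exact (c2.matrix_mul c4).continuousAt
      · apply ContinuousAt.prodMk
        · have hm : Continuous (fun z : Matrix (Fin n) (Fin n) ℂ × Matrix (Fin n) ℕ ℂ =>
              z.1 * z.2) := continuous_fst.matrix_mul continuous_snd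
          exact hm.continuousAt.comp (hinv.prodMk c5.continuousAt)
        · exact c3.continuousAt
    have hval : ((((g⁻¹ : GL (Fin n) ℂ) : Matrix (Fin n) (Fin n) ℂ) * F'.1,
        ((h : Matrix (Fin n) (Fin n) ℂ))⁻¹ * H'.1, ω.1) :
          Matrix (Fin n) ℕ ℂ × Matrix (Fin n) ℕ ℂ × (Kx a b → ℂ)) = ι (F, H, ω) := by
      refine Prod.ext ?_ (Prod.ext ?_ rfl)
      · change ((g⁻¹ : GL (Fin n) ℂ) : Matrix (Fin n) (Fin n) ℂ) * F'.1 = F.1
        rw [h1, mul_frame, hgi, Matrix.one_mul]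
      · change ((h : Matrix (Fin n) (Fin n) ℂ))⁻¹ * H'.1 = H.1
        rw [h2, mul_frame, Matrix.nonsing_inv_mul _ hdeth.isUnit, Matrix.one_mul]
    have hin : ι (F, H, ω) ∈ O := by
      rw [← hOU] at hmem
      exact hmem
    have o4 := hcont.eventually (hO.mem_nhds (by
      change ((((g⁻¹ : GL (Fin n) ℂ) : Matrix (Fin n) (Fin n) ℂ) * F'.1,
        ((h : Matrix (Fin n) (Fin n) ℂ))⁻¹ * H'.1, ω.1) :
          Matrix (Fin n) ℕ ℂ × Matrix (Fin n) ℕ ℂ × (Kx a b → ℂ)) ∈ O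
      rw [hval]
      exact hin))
    filter_upwards [o1, o2, o3, o4] with q q1 q2 q3 q4
    exact ⟨q1, q2, q3, q4⟩
  rw [nhds_prod_eq, Filter.mem_prod_iff] at hW
  obtain ⟨V1, hV1, V2, hV2, hVW⟩ := hW
  have hT : T.1 = orbF e ((h : Matrix (Fin n) (Fin n) ℂ),
      ((g⁻¹ : GL (Fin n) ℂ) : Matrix (Fin n) (Fin n) ℂ), ω.1) :=
    Prod.ext h3 (Prod.ext h4 h5)
  have himg : orbF e '' V2 ∈ 𝓝 T.1 := by
    rw [hT, ← map_nhds_orbF e (n := n) _ _ _ hdeth hdetg ω.2]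
    exact Filter.image_mem_map hV2
  have hn1 : ∀ᶠ y : YN N n in 𝓝 (F', H', T), (y.1, y.2.1) ∈ V1 := by
    have : Continuous (fun y : YN N n => (y.1, y.2.1)) := by fun_prop
    exact this.continuousAt.eventually hV1
  have hn2 : ∀ᶠ y : YN N n in 𝓝 (F', H', T), y.2.2.1 ∈ orbF e '' V2 := by
    have : Continuous (fun y : YN N n => y.2.2.1) :=
      continuous_subtype_val.comp (continuous_snd.comp continuous_snd)
    exact this.continuousAt.eventually himg
  filter_upwards [hn1, hn2] with y y1 y2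
  obtain ⟨⟨h', g', ω'⟩, hin, hy⟩ := y2
  obtain ⟨w1, w2, w3, w4⟩ := hVW (Set.mk_mem_prod y1 hin)
  simp only at w1 w2 w3 w4
  have u1 : IsUnit h'.det := w1.isUnit
  have u2 : IsUnit g'.det := w2.isUnit
  have w1' : (h'⁻¹).det ≠ 0 := by
    intro h0
    have := congrArg Matrix.det (Matrix.nonsing_inv_mul h' u1)
    rw [Matrix.det_mul, h0, zero_mul, Matrix.det_one] at this
    exact zero_ne_one this
  refine ⟨(mulF g' w2 y.1, mulF h'⁻¹ w1' y.2.1, ⟨ω', w3⟩), ?_, ?_⟩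
  · rw [← hOU]
    exact w4
  · apply Quotient.sound
    change relN _ _
    let G := Matrix.GeneralLinearGroup.mkOfDetNeZero g' w2
    let H := Matrix.GeneralLinearGroup.mkOfDetNeZero h' w1
    have hG : (G : Matrix (Fin n) (Fin n) ℂ) = g' := rfl
    have hGi : ((G⁻¹ : GL (Fin n) ℂ) : Matrix (Fin n) (Fin n) ℂ) * g' = 1 := by
      rw [← hG, ← Units.val_mul, inv_mul_cancel, Units.val_one]
    refine ⟨G⁻¹, H, ?_, ?_, ?_, ?_, ?_⟩
    · change y.1.1 = ((G⁻¹ : GL (Fin n) ℂ) : Matrix (Fin n) (Fin n) ℂ) * (g' * y.1.1)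
      rw [mul_frame, hGi, Matrix.one_mul]
    · change y.2.1.1 = h' * (h'⁻¹ * y.2.1.1)
      rw [mul_frame, Matrix.mul_nonsing_inv _ u1, Matrix.one_mul]
    · rw [inv_inv]
      exact (congrArg (fun z => z.1) hy).symm
    · rw [inv_inv]
      exact (congrArg (fun z => z.2.1) hy).symm
    · exact (congrArg (fun z => z.2.2) hy).symm

theorem isOpenEmbedding_kap : IsOpenEmbedding (kap e) :=
  IsOpenEmbedding.of_continuous_injective_isOpenMap (continuous_kap e) (kap_injective e)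
    (isOpenMap_kap e)

end

end

end Pool.Agent.Work.MP_196328_ag
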