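import Pool.Agent.Work.MP_196328_ag.Lin
import Pool.Agent.Work.MP_196328_ag.Defs

set_option autoImplicit false

namespace Pool.Agent.Work.MP_196328_ag

noncomputable section

/-- The standard simplex with `n` vertices. -/
abbrev Simp (n : ℕ) : Set (Fin n → ℝ) := stdSimplex ℝ (Fin n)

/-- Augmented singular chains with shifted degree: `Ch k X n` is spanned by simplices
with `n` vertices. -/
abbrev Ch (k : Type*) [CommRing k] (X : Type*) [TopologicalSpace X] (n : ℕ) :=
  C(Simp n, X) →₀ k

section
variable (k : Type*) [CommRing k] {X Y Z : Type*} [TopologicalSpace X] [TopologicalSpace Y]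
  [TopologicalSpace Z]

def bd (n : ℕ) : Ch k X (n + 1) →ₗ[k] Ch k X n :=
  Finsupp.linearCombination k (fun σ : C(Simp (n + 1), X) =>
    ∑ i : Fin (n + 1), (-1 : k) ^ (i : ℕ) • Finsupp.single (σ.comp (face i)) (1 : k))

theorem bd_single (n : ℕ) (σ : C(Simp (n + 1), X)) :
    bd k n (Finsupp.single σ 1) =
      ∑ i : Fin (n + 1), (-1 : k) ^ (i : ℕ) • Finsupp.single (σ.comp (face i)) (1 : k) := by
  rw [bd, Finsupp.linearCombination_single, one_smul]

theorem ch_ext {n : ℕ} {M : Type*} [AddCommGroup M] [Module k M] {f g : Ch k X n →ₗ[k] M}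
    (h : ∀ σ, f (Finsupp.single σ 1) = g (Finsupp.single σ 1)) : f = g := by
  apply Finsupp.lhom_ext'
  intro p
  ext
  exact h p

/-- Pushforward of singular chains. -/
def chMap (f : C(X, Y)) (n : ℕ) : Ch k X n →ₗ[k] Ch k Y n :=
  Finsupp.lmapDomain k k (fun σ => f.comp σ)

theorem chMap_single (f : C(X, Y)) (n : ℕ) (σ : C(Simp n, X)) :
    chMap k f n (Finsupp.single σ 1) = Finsupp.single (f.comp σ) (1 : k) := by
  rw [chMap, Finsupp.lmapDomain_apply, Finsupp.mapDomain_single]

theorem chMap_bd (f : C(X, Y)) (n : ℕ) (c : Ch k X (n + 1)) :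
    chMap k f n (bd k n c) = bd k n (chMap k f (n + 1) c) := by
  have : (chMap k f n) ∘ₗ (bd k n) = (bd k n) ∘ₗ (chMap k f (n + 1)) := by
    apply ch_ext
    intro p
    rw [LinearMap.comp_apply, LinearMap.comp_apply, bd_single, chMap_single, bd_single, map_sum]
    apply Finset.sum_congr rfl
    intro i _
    rw [map_smul, chMap_single]
    rfl
  exact LinearMap.congr_fun this c

theorem chMap_id (n : ℕ) (c : Ch k X n) : chMap k (ContinuousMap.id X) n c = c := by
  have : (chMap k (ContinuousMap.id X) n) = LinearMap.id := by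
    apply ch_ext
    intro p
    rw [chMap_single, ContinuousMap.id_comp, LinearMap.id_apply]
  rw [this, LinearMap.id_apply]

theorem chMap_comp (g : C(Y, Z)) (f : C(X, Y)) (n : ℕ) (c : Ch k X n) :
    chMap k (g.comp f) n c = chMap k g n (chMap k f n c) := by
  have : (chMap k (g.comp f) n) = (chMap k g n) ∘ₗ (chMap k f n) := by
    apply ch_ext
    intro p
    rw [LinearMap.comp_apply, chMap_single, chMap_single, chMap_single, ContinuousMap.comp_assoc]
  rw [this, LinearMap.comp_apply]

end

section
variable {V W : Type*} [NormedAddCommGroup V] [NormedSpace ℝ V]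
  [NormedAddCommGroup W] [NormedSpace ℝ W]

instance (n : ℕ) : Fact (Convex ℝ (Simp n)) := ⟨convex_stdSimplex ℝ _⟩

/-- The affine simplex in a convex set with prescribed vertices. -/
def aff (K : Set V) [hK : Fact (Convex ℝ K)] {m : ℕ} (p : Fin m → K) : C(Simp m, K) where
  toFun t := ⟨∑ i, t.1 i • (p i : V),
    hK.out.sum_mem (fun i _ => t.2.1 i) t.2.2 (fun i _ => (p i).2)⟩
  continuous_toFun := by
    apply Continuous.subtype_mk
    apply continuous_finsetSum
    intro i _
    exact ((continuous_apply i).comp continuous_subtype_val).smul continuous_const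

theorem aff_coe (K : Set V) [hK : Fact (Convex ℝ K)] {m : ℕ} (p : Fin m → K) (t : Simp m) :
    ((aff K p t : K) : V) = ∑ i, t.1 i • (p i : V) := rfl

theorem map_succAbove_self {n : ℕ} (i : Fin (n + 1)) (t : Simp n) :
    (stdSimplex.map (S := ℝ) i.succAbove t).1 i = 0 := by
  change FunOnFinite.linearMap ℝ ℝ i.succAbove t.1 i = 0
  rw [FunOnFinite.linearMap_apply_apply]
  apply Finset.sum_eq_zero
  intro j hj
  simp only [Finset.mem_filter, Finset.mem_univ, true_and] at hj
  exact absurd hj (Fin.succAbove_ne i j)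

theorem map_succAbove_succAbove {n : ℕ} (i : Fin (n + 1)) (t : Simp n) (j : Fin n) :
    (stdSimplex.map (S := ℝ) i.succAbove t).1 (i.succAbove j) = t.1 j := by
  change FunOnFinite.linearMap ℝ ℝ i.succAbove t.1 (i.succAbove j) = t.1 j
  rw [FunOnFinite.linearMap_apply_apply]
  rw [Finset.sum_eq_single j]
  · intro l hl hne
    simp only [Finset.mem_filter, Finset.mem_univ, true_and] at hl
    exact absurd (Fin.succAbove_right_injective hl) hne
  · intro h
    simp at h

theorem aff_face (K : Set V) [hK : Fact (Convex ℝ K)] {m : ℕ} (p : Fin (m + 1) → K)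
    (i : Fin (m + 1)) : (aff K p).comp (face i) = aff K (p ∘ i.succAbove) := by
  ext t
  rw [ContinuousMap.comp_apply, aff_coe, aff_coe, Fin.sum_univ_succAbove _ i]
  change (stdSimplex.map (S := ℝ) i.succAbove t).1 i • _ + ∑ j,
    (stdSimplex.map (S := ℝ) i.succAbove t).1 (i.succAbove j) • _ = _
  rw [map_succAbove_self, zero_smul, zero_add]
  apply Finset.sum_congr rfl
  intro j _
  rw [map_succAbove_succAbove]
  rfl

/-- The tuple of vertices. -/
def vert (n : ℕ) : Fin n → Simp n := fun i => stdSimplex.vertex i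

theorem aff_vert (n : ℕ) : aff (Simp n) (vert n) = ContinuousMap.id _ := by
  apply ContinuousMap.ext
  intro t
  apply Subtype.ext
  funext j
  rw [aff_coe]
  simp only [vert, stdSimplex.vertex, Finset.sum_apply, Pi.smul_apply, smul_eq_mul,
    ContinuousMap.id_apply]
  rw [Finset.sum_eq_single j]
  · simp
  · intro i _ hij
    rw [Pi.single_apply, if_neg (Ne.symm hij), mul_zero]
  · intro h; simp at h

/-- Maps of convex sets preserving convex combinations. -/
def AffMap {K : Set V} {L : Set W} [Fact (Convex ℝ K)] [Fact (Convex ℝ L)] (φ : K → L) : Prop :=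
  ∀ (m : ℕ) (p : Fin m → K) (t : Simp m), φ (aff K p t) = aff L (φ ∘ p) t

theorem affMap_of_linear {K : Set V} {L : Set W} [Fact (Convex ℝ K)] [Fact (Convex ℝ L)]
    (φ : K → L) (f : V →ₗ[ℝ] W) (h : ∀ x, (φ x : W) = f x) : AffMap φ := by
  intro m p t
  apply Subtype.ext
  rw [h, aff_coe, aff_coe, map_sum]
  apply Finset.sum_congr rfl
  intro i _
  rw [map_smul, Function.comp_apply, h]

theorem affMap_face {n : ℕ} (i : Fin (n + 1)) : AffMap (face i : Simp n → Simp (n + 1)) :=
  affMap_of_linear _ (FunOnFinite.linearMap ℝ ℝ i.succAbove) (fun _ => rfl)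

/-- The barycentre of a tuple. -/
def bary (K : Set V) [hK : Fact (Convex ℝ K)] {n : ℕ} (p : Fin (n + 1) → K) : K :=
  aff K p stdSimplex.barycenter

theorem bary_map {K : Set V} {L : Set W} [Fact (Convex ℝ K)] [Fact (Convex ℝ L)] {φ : K → L}
    (hφ : AffMap φ) {n : ℕ} (p : Fin (n + 1) → K) : φ (bary K p) = bary L (φ ∘ p) :=
  hφ _ p _

variable (k : Type*) [CommRing k]

/-- Barycentric subdivision of tuple chains. -/
def Sop (K : Set V) [Fact (Convex ℝ K)] : ∀ n, LC k K n →ₗ[k] LC k K n
  | 0 => LinearMap.id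
  | n + 1 => Finsupp.linearCombination k (fun p : Fin (n + 1) → K =>
      cone k (bary K p) (Sop K n (lbd k n (Finsupp.single p 1))))

theorem Sop_single (K : Set V) [Fact (Convex ℝ K)] (n : ℕ) (p : Fin (n + 1) → K) :
    Sop k K (n + 1) (Finsupp.single p 1) =
      cone k (bary K p) (Sop k K n (lbd k n (Finsupp.single p 1))) := by
  rw [Sop, Finsupp.linearCombination_single, one_smul]

theorem Sop_lbd (K : Set V) [Fact (Convex ℝ K)] (n : ℕ) (c : LC k K (n + 1)) :
    Sop k K n (lbd k n c) = lbd k n (Sop k K (n + 1) c) := by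
  suffices h : (Sop k K n) ∘ₗ (lbd k n) = (lbd k n) ∘ₗ (Sop k K (n + 1)) from
    LinearMap.congr_fun h c
  clear c
  induction n with
  | zero =>
    apply hom_ext
    intro p
    rw [LinearMap.comp_apply, LinearMap.comp_apply, Sop_single, lbd_cone_zero]
  | succ n ih =>
    apply hom_ext
    intro p
    rw [LinearMap.comp_apply, LinearMap.comp_apply, Sop_single, lbd_cone_succ]
    have h1 := LinearMap.congr_fun ih (lbd k (n + 1) (Finsupp.single p 1))
    rw [LinearMap.comp_apply, LinearMap.comp_apply, lbd_lbd, map_zero] at h1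
    rw [← h1, map_zero, sub_zero]

theorem Sop_mapT {K : Set V} {L : Set W} [Fact (Convex ℝ K)] [Fact (Convex ℝ L)] {φ : K → L}
    (hφ : AffMap φ) (n : ℕ) (c : LC k K n) :
    mapT k φ n (Sop k K n c) = Sop k L n (mapT k φ n c) := by
  suffices h : (mapT k φ n) ∘ₗ (Sop k K n) = (Sop k L n) ∘ₗ (mapT k φ n) from
    LinearMap.congr_fun h c
  clear c
  induction n with
  | zero => rfl
  | succ n ih =>
    apply hom_ext
    intro p
    rw [LinearMap.comp_apply, LinearMap.comp_apply, Sop_single, mapT_single, Sop_single,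
      mapT_cone, bary_map hφ]
    have h1 := LinearMap.congr_fun ih (lbd k n (Finsupp.single p 1))
    rw [LinearMap.comp_apply, LinearMap.comp_apply] at h1
    rw [h1, mapT_lbd, mapT_single]

theorem Dop_mapT {V' W' : Type*} {V W : Type*} (φ : V → V') (ψ : W → W')
    (α β : ∀ n, LC k V n →ₗ[k] LC k W n) (c : ∀ n, (Fin (n + 1) → V) → W)
    (α' β' : ∀ n, LC k V' n →ₗ[k] LC k W' n) (c' : ∀ n, (Fin (n + 1) → V') → W')
    (hα : ∀ n x, mapT k ψ n (α n x) = α' n (mapT k φ n x))
    (hβ : ∀ n x, mapT k ψ n (β n x) = β' n (mapT k φ n x))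
    (hc : ∀ n p, ψ (c n p) = c' n (φ ∘ p)) (n : ℕ) (x : LC k V n) :
    mapT k ψ (n + 1) (Dop k α β c n x) = Dop k α' β' c' n (mapT k φ n x) := by
  suffices h : (mapT k ψ (n + 1)) ∘ₗ (Dop k α β c n) = (Dop k α' β' c' n) ∘ₗ (mapT k φ n) from
    LinearMap.congr_fun h x
  clear x
  induction n with
  | zero =>
    rw [Dop_zero, Dop_zero, LinearMap.comp_zero, LinearMap.zero_comp]
  | succ n ih =>
    apply hom_ext
    intro p
    rw [LinearMap.comp_apply, LinearMap.comp_apply, Dop_single, mapT_single, Dop_single,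
      mapT_cone, hc]
    have h1 := LinearMap.congr_fun ih (lbd k n (Finsupp.single p 1))
    rw [LinearMap.comp_apply, LinearMap.comp_apply] at h1
    rw [(mapT k ψ (n + 1)).map_sub, (mapT k ψ (n + 1)).map_sub, h1, hα, hβ, mapT_lbd, mapT_single]

/-- The chain homotopy between the identity and subdivision. -/
def Tlin (K : Set V) [Fact (Convex ℝ K)] : ∀ n, LC k K n →ₗ[k] LC k K (n + 1) :=
  Dop k (fun n => (LinearMap.id : LC k K n →ₗ[k] LC k K n)) (Sop k K) (fun _ p => bary K p)

theorem lbd_Tlin (K : Set V) [Fact (Convex ℝ K)] (n : ℕ) (x : LC k K (n + 1)) :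
    lbd k (n + 1) (Tlin k K (n + 1) x) = x - Sop k K (n + 1) x - Tlin k K n (lbd k n x) := by
  have h := lbd_Dop k (fun n => (LinearMap.id : LC k K n →ₗ[k] LC k K n)) (Sop k K)
    (fun _ p => bary K p) (fun _ _ => by rw [LinearMap.id_apply, LinearMap.id_apply])
    (Sop_lbd k K) (fun _ => by rw [Sop]) n x
  rw [LinearMap.id_apply] at h
  rw [Tlin]
  exact h

theorem Tlin_mapT {K : Set V} {L : Set W} [Fact (Convex ℝ K)] [Fact (Convex ℝ L)] {φ : K → L}
    (hφ : AffMap φ) (n : ℕ) (c : LC k K n) :
    mapT k φ (n + 1) (Tlin k K n c) = Tlin k L n (mapT k φ n c) := by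
  rw [Tlin, Tlin]
  exact Dop_mapT k φ φ (fun n => (LinearMap.id : LC k K n →ₗ[k] LC k K n)) (Sop k K)
    (fun _ p => bary K p) (fun n => (LinearMap.id : LC k L n →ₗ[k] LC k L n)) (Sop k L)
    (fun _ p => bary L p) (fun _ _ => by rw [LinearMap.id_apply, LinearMap.id_apply])
    (Sop_mapT k hφ) (fun _ p => bary_map hφ p) n c

variable {X Y : Type*} [TopologicalSpace X] [TopologicalSpace Y]

/-- The singular chain attached to a tuple chain in a convex set mapping to `X`. -/
def push {K : Set V} [Fact (Convex ℝ K)] (σ : C(K, X)) (m : ℕ) : LC k K m →ₗ[k] Ch k X m :=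
  Finsupp.lmapDomain k k (fun p => σ.comp (aff K p))

theorem push_single {K : Set V} [Fact (Convex ℝ K)] (σ : C(K, X)) (m : ℕ) (p : Fin m → K) :
    push k σ m (Finsupp.single p 1) = Finsupp.single (σ.comp (aff K p)) (1 : k) := by
  rw [push, Finsupp.lmapDomain_apply, Finsupp.mapDomain_single]

theorem push_lbd {K : Set V} [Fact (Convex ℝ K)] (σ : C(K, X)) (m : ℕ) (c : LC k K (m + 1)) :
    push k σ m (lbd k m c) = bd k m (push k σ (m + 1) c) := by
  have : (push k σ m) ∘ₗ (lbd k m) = (bd k m) ∘ₗ (push k σ (m + 1)) := by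
    apply hom_ext
    intro p
    rw [LinearMap.comp_apply, LinearMap.comp_apply, lbd_single, push_single, bd_single, map_sum]
    apply Finset.sum_congr rfl
    intro i _
    rw [map_smul, push_single, ContinuousMap.comp_assoc, aff_face]
  exact LinearMap.congr_fun this c

theorem push_mapT {K : Set V} {L : Set W} [Fact (Convex ℝ K)] [Fact (Convex ℝ L)] (φ : C(K, L))
    (hφ : AffMap φ) (σ : C(L, X)) (m : ℕ) (c : LC k K m) :
    push k σ m (mapT k φ m c) = push k (σ.comp φ) m c := by
  have : (push k σ m) ∘ₗ (mapT k φ m) = push k (σ.comp φ) m := by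
    apply hom_ext
    intro p
    rw [LinearMap.comp_apply, mapT_single, push_single, push_single]
    congr 1
    ext t
    simp only [ContinuousMap.comp_apply]
    rw [hφ]
  exact LinearMap.congr_fun this c

theorem push_vert (n : ℕ) (σ : C(Simp n, X)) :
    push k σ n (Finsupp.single (vert n) 1) = Finsupp.single σ (1 : k) := by
  rw [push_single, aff_vert, ContinuousMap.comp_id]

theorem chMap_push {K : Set V} [Fact (Convex ℝ K)] (f : C(X, Y)) (σ : C(K, X)) (m : ℕ)
    (c : LC k K m) : chMap k f m (push k σ m c) = push k (f.comp σ) m c := by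
  have : (chMap k f m) ∘ₗ (push k σ m) = push k (f.comp σ) m := by
    apply hom_ext
    intro p
    rw [LinearMap.comp_apply, push_single, chMap_single, push_single]
    rfl
  exact LinearMap.congr_fun this c

theorem bd_bd (n : ℕ) (c : Ch k X (n + 2)) : bd k n (bd k (n + 1) c) = 0 := by
  have : (bd k n) ∘ₗ (bd k (n + 1)) = (0 : Ch k X (n + 2) →ₗ[k] Ch k X n) := by
    apply ch_ext
    intro σ
    rw [LinearMap.comp_apply, ← push_vert, ← push_lbd, ← push_lbd, lbd_lbd, map_zero]
    rfl
  exact LinearMap.congr_fun this c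

theorem vert_succAbove (n : ℕ) (i : Fin (n + 1)) :
    (vert (n + 1)) ∘ i.succAbove = (face i) ∘ (vert n) := by
  funext j
  simp only [Function.comp_apply, vert, face, ContinuousMap.coe_mk]
  rw [stdSimplex.map_vertex]

/-- Subdivision of singular chains. -/
def chS (n : ℕ) : Ch k X n →ₗ[k] Ch k X n :=
  Finsupp.linearCombination k (fun σ => push k σ n (Sop k (Simp n) n (Finsupp.single (vert n) 1)))

def chT (n : ℕ) : Ch k X n →ₗ[k] Ch k X (n + 1) :=
  Finsupp.linearCombination k
    (fun σ => push k σ (n + 1) (Tlin k (Simp n) n (Finsupp.single (vert n) 1)))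

theorem chS_single (n : ℕ) (σ : C(Simp n, X)) : chS k n (Finsupp.single σ 1) =
    push k σ n (Sop k (Simp n) n (Finsupp.single (vert n) 1)) := by
  rw [chS, Finsupp.linearCombination_single, one_smul]

theorem chT_single (n : ℕ) (σ : C(Simp n, X)) : chT k n (Finsupp.single σ 1) =
    push k σ (n + 1) (Tlin k (Simp n) n (Finsupp.single (vert n) 1)) := by
  rw [chT, Finsupp.linearCombination_single, one_smul]

/-- Subdivision commutes with pushing forward tuple chains. -/
theorem chS_push {K : Set V} [Fact (Convex ℝ K)] (σ : C(K, X)) (n : ℕ) (c : LC k K n) :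
    chS k n (push k σ n c) = push k σ n (Sop k K n c) := by
  have : (chS k n) ∘ₗ (push k σ n) = (push k σ n) ∘ₗ (Sop k K n) := by
    apply hom_ext
    intro p
    rw [LinearMap.comp_apply, LinearMap.comp_apply, push_single, chS_single]
    have hp : Finsupp.single p (1 : k) = mapT k (aff K p) n (Finsupp.single (vert n) 1) := by
      rw [mapT_single]
      congr 1
      funext i
      apply Subtype.ext
      rw [Function.comp_apply, aff_coe]
      simp only [vert, stdSimplex.vertex]
      rw [Finset.sum_eq_single i]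
      · simp
      · intro j _ hji
        rw [Pi.single_apply, if_neg hji, zero_smul]
      · intro h; simp at h
    have ha : AffMap (aff K p : Simp n → K) := by
      apply affMap_of_linear _ (Fintype.linearCombination ℝ (fun i => (p i : V)))
      intro x
      rw [aff_coe, Fintype.linearCombination_apply]
    rw [hp, ← Sop_mapT k ha, push_mapT k _ ha]
  exact LinearMap.congr_fun this c

theorem chS_bd (n : ℕ) (c : Ch k X (n + 1)) : chS k n (bd k n c) = bd k n (chS k (n + 1) c) := by
  have : (chS k n) ∘ₗ (bd k n) = (bd k n) ∘ₗ (chS k (X := X) (n + 1)) := by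
    apply ch_ext
    intro σ
    rw [LinearMap.comp_apply, LinearMap.comp_apply, ← push_vert, ← push_lbd, chS_push, chS_push,
      ← push_lbd, Sop_lbd]
  exact LinearMap.congr_fun this c

/-- The homotopy operator commutes with pushing forward tuple chains. -/
theorem chT_push {K : Set V} [Fact (Convex ℝ K)] (σ : C(K, X)) (n : ℕ) (c : LC k K n) :
    chT k n (push k σ n c) = push k σ (n + 1) (Tlin k K n c) := by
  have : (chT k n) ∘ₗ (push k σ n) = (push k σ (n + 1)) ∘ₗ (Tlin k K n) := by
    apply hom_ext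
    intro p
    rw [LinearMap.comp_apply, LinearMap.comp_apply, push_single, chT_single]
    have hp : Finsupp.single p (1 : k) = mapT k (aff K p) n (Finsupp.single (vert n) 1) := by
      rw [mapT_single]
      congr 1
      funext i
      apply Subtype.ext
      rw [Function.comp_apply, aff_coe]
      simp only [vert, stdSimplex.vertex]
      rw [Finset.sum_eq_single i]
      · simp
      · intro j _ hji
        rw [Pi.single_apply, if_neg hji, zero_smul]
      · intro h; simp at h
    have ha : AffMap (aff K p : Simp n → K) := by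
      apply affMap_of_linear _ (Fintype.linearCombination ℝ (fun i => (p i : V)))
      intro x
      rw [aff_coe, Fintype.linearCombination_apply]
    rw [hp, ← Tlin_mapT k ha, push_mapT k _ ha]
  exact LinearMap.congr_fun this c

theorem bd_chT (n : ℕ) (c : Ch k X (n + 1)) :
    bd k (n + 1) (chT k (n + 1) c) = c - chS k (n + 1) c - chT k n (bd k n c) := by
  have : (bd k (n + 1)) ∘ₗ (chT k (X := X) (n + 1)) =
      LinearMap.id - chS k (n + 1) - (chT k n) ∘ₗ (bd k n) := by
    apply ch_ext
    intro σ
    simp only [LinearMap.sub_apply, LinearMap.comp_apply, LinearMap.id_apply]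
    rw [← push_vert, ← push_lbd, chT_push, chS_push, chT_push, ← push_lbd, lbd_Tlin, map_sub,
      map_sub]
  exact LinearMap.congr_fun this c

end

end

end Pool.Agent.Work.MP_196328_ag
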