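import Pool.Agent.Work.MP_196328_ag.Sing

set_option autoImplicit false

namespace Pool.Agent.Work.MP_196328_ag

noncomputable section

section
variable {k : Type*} [CommRing k]

theorem mem_of_supported {α M : Type*} [AddCommGroup M] [Module k M] (f : (α →₀ k) →ₗ[k] M)
    (N : Submodule k M) (S : Set α) (h : ∀ a ∈ S, f (Finsupp.single a 1) ∈ N) {c : α →₀ k}
    (hc : c ∈ Finsupp.supported k k S) : f c ∈ N := by
  rw [Finsupp.supported_eq_span_single] at hc
  have : Submodule.span k ((fun i => Finsupp.single i (1 : k)) '' S) ≤ N.comap f := by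
    rw [Submodule.span_le]
    rintro _ ⟨a, ha, rfl⟩
    exact h a ha
  exact this hc

theorem single_mem_supp {α : Type*} {S : Set α} {a : α} (h : a ∈ S) :
    Finsupp.single a (1 : k) ∈ Finsupp.supported k k S := Finsupp.single_mem_supported _ _ h

end

section
variable {V : Type*} [NormedAddCommGroup V] [NormedSpace ℝ V]

/-- Metric form of membership in the convex hull. -/
def Hull {m : ℕ} (p : Fin m → V) (y : V) : Prop :=
  ∀ (x : V) (r : ℝ), (∀ j, dist x (p j) ≤ r) → dist x y ≤ r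

/-- Diameter bound for a tuple. -/
def Diam {m : ℕ} (p : Fin m → V) (r : ℝ) : Prop := ∀ i j, dist (p i) (p j) ≤ r

theorem hull_aff (K : Set V) [Fact (Convex ℝ K)] {m : ℕ} (p : Fin m → K) (t : Simp m) :
    Hull (fun j => (p j : V)) (aff K p t : V) := by
  intro x r h
  rw [dist_comm, ← Metric.mem_closedBall, aff_coe]
  apply (convex_closedBall x r).sum_mem (fun i _ => t.2.1 i) t.2.2
  intro i _
  rw [Metric.mem_closedBall, dist_comm]
  exact h i

theorem dist_bary (K : Set V) [Fact (Convex ℝ K)] {m : ℕ} (p : Fin (m + 1) → K) (r : ℝ)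
    (h : Diam (fun j => (p j : V)) r) (l : Fin (m + 1)) :
    dist (bary K p : V) (p l : V) ≤ (((m + 1 : ℕ) : ℝ) - 1) / ((m + 1 : ℕ) : ℝ) * r := by
  have hm : (0 : ℝ) < ((m + 1 : ℕ) : ℝ) := by positivity
  have e1 : (bary K p : V) - (p l : V) =
      ∑ i : Fin m, (((m + 1 : ℕ) : ℝ)⁻¹) • ((p (l.succAbove i) : V) - (p l : V)) := by
    have e2 : (bary K p : V) = ∑ i : Fin (m + 1), (((m + 1 : ℕ) : ℝ)⁻¹) • (p i : V) := by
      rw [bary, aff_coe]
      apply Finset.sum_congr rfl
      intro i _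
      have := stdSimplex.barycenter_apply (𝕜 := ℝ) (X := Fin (m + 1)) i
      rw [Fintype.card_fin] at this
      rw [← this]
    have e3 : (p l : V) = ∑ i : Fin (m + 1), (((m + 1 : ℕ) : ℝ)⁻¹) • (p l : V) := by
      rw [Finset.sum_const, Finset.card_univ, Fintype.card_fin, ← Nat.cast_smul_eq_nsmul ℝ,
        smul_smul, mul_inv_cancel₀ hm.ne', one_smul]
    rw [e2]
    conv_lhs => rw [e3]
    rw [← Finset.sum_sub_distrib]
    have e4 : ∀ i, (((m + 1 : ℕ) : ℝ)⁻¹) • (p i : V) - (((m + 1 : ℕ) : ℝ)⁻¹) • (p l : V) =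
        (((m + 1 : ℕ) : ℝ)⁻¹) • ((p i : V) - (p l : V)) := fun i => (smul_sub _ _ _).symm
    simp only [e4]
    rw [Fin.sum_univ_succAbove _ l, sub_self, smul_zero, zero_add]
  rw [dist_eq_norm, e1]
  refine (norm_sum_le _ _).trans ?_
  have : ∀ i ∈ (Finset.univ : Finset (Fin m)),
      ‖(((m + 1 : ℕ) : ℝ)⁻¹) • ((p (l.succAbove i) : V) - (p l : V))‖ ≤ ((m + 1 : ℕ) : ℝ)⁻¹ * r := by
    intro i _
    rw [norm_smul, Real.norm_eq_abs, abs_of_pos (inv_pos.2 hm), ← dist_eq_norm]
    exact mul_le_mul_of_nonneg_left (h _ _) (inv_pos.2 hm).le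
  refine (Finset.sum_le_sum this).trans ?_
  rw [Finset.sum_const, Finset.card_univ, Fintype.card_fin, nsmul_eq_mul]
  apply le_of_eq
  field_simp
  push_cast
  ring

/-- The set of tuples that may occur in the subdivision of a tuple. -/
def SubT (K : Set V) (m : ℕ) (p : Fin m → K) : Set (Fin m → K) :=
  {q | (∀ j, Hull (fun i => (p i : V)) (q j : V)) ∧
    ∀ r, Diam (fun i => (p i : V)) r → Diam (fun i => (q i : V)) (((m : ℝ) - 1) / m * r)}

variable (k : Type*) [CommRing k]

theorem cons_mem_SubT (K : Set V) [Fact (Convex ℝ K)] (m : ℕ) (p : Fin (m + 1) → K)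
    (i : Fin (m + 1)) (q : Fin m → K) (hq : q ∈ SubT K m (p ∘ i.succAbove)) :
    (Fin.cons (bary K p) q : Fin (m + 1) → K) ∈ SubT K (m + 1) p := by
  have hb : Hull (fun i => (p i : V)) (bary K p : V) := hull_aff K p _
  have hq1 : ∀ j, Hull (fun i => (p i : V)) (q j : V) := by
    intro j x r h
    exact hq.1 j x r (fun l => h _)
  constructor
  · intro j
    refine Fin.cases ?_ (fun j => ?_) j
    · simpa using hb
    · simpa using hq1 j
  · intro r hr
    have hm : (0 : ℝ) < ((m + 1 : ℕ) : ℝ) := by positivity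
    have hr0 : 0 ≤ r := by
      have := hr 0 0
      rw [dist_self] at this
      exact this
    have hc0 : 0 ≤ (((m + 1 : ℕ) : ℝ) - 1) / ((m + 1 : ℕ) : ℝ) * r := by
      apply mul_nonneg _ hr0
      apply div_nonneg _ hm.le
      push_cast
      linarith [Nat.cast_nonneg (α := ℝ) m]
    have hbq : ∀ j, dist (bary K p : V) (q j : V) ≤
        (((m + 1 : ℕ) : ℝ) - 1) / ((m + 1 : ℕ) : ℝ) * r := fun j =>
      hq1 j _ _ (fun l => dist_bary K p r hr l)
    have hqq : ∀ j l, dist (q j : V) (q l : V) ≤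
        (((m + 1 : ℕ) : ℝ) - 1) / ((m + 1 : ℕ) : ℝ) * r := by
      intro j l
      refine (hq.2 r (fun a b => hr _ _) j l).trans ?_
      apply mul_le_mul_of_nonneg_right _ hr0
      have hm0 : 0 < m := (Fin.pos j)
      have hm1 : (0 : ℝ) < m := by exact_mod_cast hm0
      rw [div_le_div_iff₀ hm1 hm]
      push_cast
      nlinarith
    intro j l
    refine Fin.cases ?_ (fun j => ?_) j
    · refine Fin.cases ?_ (fun l => ?_) l
      · simpa using hc0
      · simpa using hbq l
    · refine Fin.cases ?_ (fun l => ?_) l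
      · rw [dist_comm]
        simpa using hbq j
      · simpa using hqq j l

theorem Sop_supp (K : Set V) [Fact (Convex ℝ K)] (m : ℕ) (p : Fin m → K) :
    Sop k K m (Finsupp.single p 1) ∈ Finsupp.supported k k (SubT K m p) := by
  induction m with
  | zero =>
    rw [Sop, LinearMap.id_apply]
    apply single_mem_supp
    exact ⟨fun j => j.elim0, fun _ _ j => j.elim0⟩
  | succ m ih =>
    rw [Sop_single, lbd_single]
    simp only [map_sum, map_smul]
    apply Submodule.sum_mem
    intro i _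
    apply Submodule.smul_mem
    apply mem_of_supported _ _ _ _ (ih (p ∘ i.succAbove))
    intro q hq
    rw [cone_single]
    apply single_mem_supp
    exact cons_mem_SubT K m p i q hq

theorem Sop_pow_supp (K : Set V) [Fact (Convex ℝ K)] (m : ℕ) (p : Fin m → K) (R : ℝ)
    (hR : Diam (fun i => (p i : V)) R) (r : ℕ) :
    ((Sop k K m) ^ r) (Finsupp.single p 1) ∈ Finsupp.supported k k
      {q : Fin m → K | Diam (fun i => (q i : V)) ((((m : ℝ) - 1) / m) ^ r * R)} := by
  induction r with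
  | zero =>
    rw [pow_zero]
    apply single_mem_supp
    simpa using hR
  | succ r ih =>
    rw [pow_succ' (Sop k K m), Module.End.mul_apply]
    apply mem_of_supported _ _ _ _ ih
    intro q hq
    apply Finsupp.supported_mono _ (Sop_supp k K m q)
    intro q' hq'
    have := hq'.2 _ hq
    rw [← mul_assoc, ← pow_succ'] at this
    exact this

end

section
variable (k : Type*) [CommRing k] {X Y : Type*} [TopologicalSpace X] [TopologicalSpace Y]

/-- Chains supported in a subset. -/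
def Sup (U : Set X) (m : ℕ) : Submodule k (Ch k X m) :=
  Finsupp.supported k k {σ : C(Simp m, X) | Set.range σ ⊆ U}

theorem Sup_mono {U V : Set X} (h : U ⊆ V) (m : ℕ) : Sup k U m ≤ Sup k V m :=
  Finsupp.supported_mono (fun _ hσ => hσ.trans h)

theorem single_mem_Sup {U : Set X} {m : ℕ} {σ : C(Simp m, X)} (h : Set.range σ ⊆ U) :
    Finsupp.single σ (1 : k) ∈ Sup k U m := single_mem_supp h

theorem mem_Sup_map {U : Set X} {m m' : ℕ} {W : Set Y} (f : Ch k X m →ₗ[k] Ch k Y m')
    (h : ∀ σ : C(Simp m, X), Set.range σ ⊆ U → f (Finsupp.single σ 1) ∈ Sup k W m')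
    {c : Ch k X m} (hc : c ∈ Sup k U m) : f c ∈ Sup k W m' :=
  mem_of_supported f _ _ h hc

theorem push_mem_Sup {V : Type*} [NormedAddCommGroup V] [NormedSpace ℝ V] {K : Set V}
    [Fact (Convex ℝ K)] (σ : C(K, X)) (m : ℕ) (c : LC k K m) (U : Set X)
    (h : Set.range σ ⊆ U) : push k σ m c ∈ Sup k U m := by
  apply mem_of_supported (push k σ m) _ Set.univ
  · intro p _
    rw [push_single]
    apply single_mem_Sup
    rintro _ ⟨t, rfl⟩
    exact h ⟨_, rfl⟩
  · rw [Finsupp.supported_univ]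
    trivial

theorem chS_mem_Sup {U : Set X} {m : ℕ} {c : Ch k X m} (hc : c ∈ Sup k U m) :
    chS k m c ∈ Sup k U m := by
  apply mem_Sup_map k _ _ hc
  intro σ hσ
  rw [chS_single]
  exact push_mem_Sup k σ m _ U hσ

theorem chT_mem_Sup {U : Set X} {m : ℕ} {c : Ch k X m} (hc : c ∈ Sup k U m) :
    chT k m c ∈ Sup k U (m + 1) := by
  apply mem_Sup_map k _ _ hc
  intro σ hσ
  rw [chT_single]
  exact push_mem_Sup k σ (m + 1) _ U hσ

theorem bd_mem_Sup {U : Set X} {m : ℕ} {c : Ch k X (m + 1)} (hc : c ∈ Sup k U (m + 1)) :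
    bd k m c ∈ Sup k U m := by
  apply mem_Sup_map k _ _ hc
  intro σ hσ
  rw [bd_single]
  apply Submodule.sum_mem
  intro i _
  apply Submodule.smul_mem
  apply single_mem_Sup
  rintro _ ⟨t, rfl⟩
  exact hσ ⟨_, rfl⟩

theorem chMap_mem_Sup {U : Set X} {W : Set Y} (f : C(X, Y)) (hf : ∀ x ∈ U, f x ∈ W) {m : ℕ}
    {c : Ch k X m} (hc : c ∈ Sup k U m) : chMap k f m c ∈ Sup k W m := by
  apply mem_Sup_map k _ _ hc
  intro σ hσ
  rw [chMap_single]
  apply single_mem_Sup
  rintro _ ⟨t, rfl⟩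
  exact hf _ (hσ ⟨_, rfl⟩)

/-- Chains whose simplices lie in `U` or in `V`. -/
def Sml (U V : Set X) (m : ℕ) : Submodule k (Ch k X m) :=
  Finsupp.supported k k {σ : C(Simp m, X) | Set.range σ ⊆ U ∨ Set.range σ ⊆ V}

theorem Sml_eq (U V : Set X) (m : ℕ) : Sml k U V m = Sup k U m ⊔ Sup k V m := by
  rw [Sml, Sup, Sup, ← Finsupp.supported_union]
  rfl

theorem chS_mem_Sml {U V : Set X} {m : ℕ} {c : Ch k X m} (hc : c ∈ Sml k U V m) :
    chS k m c ∈ Sml k U V m := by
  rw [Sml_eq, Submodule.mem_sup] at hc ⊢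
  obtain ⟨a, ha, b, hb, rfl⟩ := hc
  exact ⟨_, chS_mem_Sup k ha, _, chS_mem_Sup k hb, (map_add _ _ _).symm⟩

theorem chS_pow_push {V : Type*} [NormedAddCommGroup V] [NormedSpace ℝ V] {K : Set V}
    [Fact (Convex ℝ K)] (σ : C(K, X)) (n : ℕ) (r : ℕ) (c : LC k K n) :
    ((chS k n) ^ r) (push k σ n c) = push k σ n (((Sop k K n) ^ r) c) := by
  induction r with
  | zero => simp
  | succ r ih =>
    rw [pow_succ', Module.End.mul_apply, ih, chS_push, pow_succ', Module.End.mul_apply]

theorem small_single (U V : Set X) (hU : IsOpen U) (hV : IsOpen V) (m : ℕ) (σ : C(Simp m, X))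
    (hσ : Set.range σ ⊆ U ∪ V) :
    ∃ r0 : ℕ, ∀ r, r0 ≤ r → ((chS k m) ^ r) (Finsupp.single σ 1) ∈ Sml k U V m := by
  rcases Nat.eq_zero_or_pos m with hm | hm
  · subst hm
    refine ⟨0, fun r _ => ?_⟩
    have : ∀ c : Ch k X 0, c ∈ Sml k U V 0 := by
      intro c
      rw [Sml]
      have : {σ : C(Simp 0, X) | Set.range σ ⊆ U ∨ Set.range σ ⊆ V} = Set.univ := by
        rw [Set.eq_univ_iff_forall]
        intro τ
        left
        rintro _ ⟨t, rfl⟩
        have := t.2.2
        simp at this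
      rw [this, Finsupp.supported_univ]
      trivial
    exact this _
  · obtain ⟨δ, hδ, hleb⟩ := lebesgue_number_lemma_of_metric (ι := Bool)
      (s := (Set.univ : Set (Simp m))) (c := fun b => σ ⁻¹' (bif b then U else V))
      (isCompact_univ_iff.2 inferInstance)
      (by
        intro b
        cases b
        · exact hV.preimage σ.continuous
        · exact hU.preimage σ.continuous)
      (by
        intro t _
        rw [Set.mem_iUnion]
        rcases hσ ⟨t, rfl⟩ with h | h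
        · exact ⟨true, h⟩
        · exact ⟨false, h⟩)
    obtain ⟨R, hR⟩ := Finite.bddAbove_range
      (fun ij : Fin m × Fin m => dist ((vert m ij.1 : Simp m) : Fin m → ℝ) (vert m ij.2))
    have hR' : Diam (fun i => ((vert m i : Simp m) : Fin m → ℝ)) R :=
      fun i j => hR ⟨(i, j), rfl⟩
    have hm1 : (1 : ℝ) ≤ m := by exact_mod_cast hm
    have hl0 : 0 ≤ ((m : ℝ) - 1) / m := div_nonneg (by linarith) (by linarith)
    have hl1 : ((m : ℝ) - 1) / m < 1 := by
      rw [div_lt_one (by linarith)]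
      linarith
    have hlim : Filter.Tendsto (fun r : ℕ => (((m : ℝ) - 1) / m) ^ r * R) Filter.atTop
        (nhds (0 * R)) := (tendsto_pow_atTop_nhds_zero_of_lt_one hl0 hl1).mul_const R
    rw [zero_mul] at hlim
    obtain ⟨r0, hr0⟩ := Filter.eventually_atTop.1 (hlim.eventually (gt_mem_nhds hδ))
    refine ⟨r0, fun r hr => ?_⟩
    rw [← push_vert, chS_pow_push]
    apply mem_of_supported (push k σ m) _ _ _ (Sop_pow_supp k (Simp m) m (vert m) R hR' r)
    intro q hq
    rw [push_single]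
    apply single_mem_supp
    obtain ⟨b, hb⟩ := hleb (q ⟨0, hm⟩) trivial
    have hin : ∀ t : Simp m, aff (Simp m) q t ∈ Metric.ball (q ⟨0, hm⟩) δ := by
      intro t
      rw [Metric.mem_ball, dist_comm]
      exact (hull_aff (Simp m) q t _ _ (fun j => hq ⟨0, hm⟩ j)).trans_lt (hr0 r hr)
    cases b
    · right
      rintro _ ⟨t, rfl⟩
      exact hb (hin t)
    · left
      rintro _ ⟨t, rfl⟩
      exact hb (hin t)

theorem small_all (U V : Set X) (hU : IsOpen U) (hV : IsOpen V) (m : ℕ) (z : Ch k X m)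
    (hz : z ∈ Sup k (U ∪ V) m) :
    ∃ r0 : ℕ, ∀ r, r0 ≤ r → ((chS k m) ^ r) z ∈ Sml k U V m := by
  rw [Sup, Finsupp.supported_eq_span_single] at hz
  induction hz using Submodule.span_induction with
  | mem x h =>
    obtain ⟨σ, hσ, rfl⟩ := h
    exact small_single k U V hU hV m σ hσ
  | zero => exact ⟨0, fun r _ => by rw [map_zero]; exact Submodule.zero_mem _⟩
  | add x y _ _ hx hy =>
    obtain ⟨r1, h1⟩ := hx
    obtain ⟨r2, h2⟩ := hy
    refine ⟨max r1 r2, fun r hr => ?_⟩
    rw [map_add]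
    exact Submodule.add_mem _ (h1 r ((le_max_left _ _).trans hr))
      (h2 r ((le_max_right _ _).trans hr))
  | smul a x _ hx =>
    obtain ⟨r1, h1⟩ := hx
    refine ⟨r1, fun r hr => ?_⟩
    rw [map_smul]
    exact Submodule.smul_mem _ _ (h1 r hr)

/-- Cycles of the augmented complex. -/
def IsCyc : ∀ m, Ch k X m → Prop
  | 0, _ => True
  | m + 1, z => bd k m z = 0

/-- Vanishing of reduced homology in one degree for a subset. -/
def VanOn (U : Set X) (m : ℕ) : Prop :=
  ∀ z ∈ Sup k U m, IsCyc k m z → ∃ w ∈ Sup k U (m + 1), bd k m w = z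

theorem pow_chS_hom (U : Set X) (m : ℕ) (z : Ch k X (m + 1)) (hz : z ∈ Sup k U (m + 1))
    (hc : bd k m z = 0) (r : ℕ) :
    ((chS k (m + 1)) ^ r) z ∈ Sup k U (m + 1) ∧ bd k m (((chS k (m + 1)) ^ r) z) = 0 ∧
      ∃ w ∈ Sup k U (m + 2), bd k (m + 1) w = z - ((chS k (m + 1)) ^ r) z := by
  induction r with
  | zero =>
    rw [pow_zero]
    refine ⟨hz, hc, 0, Submodule.zero_mem _, ?_⟩
    rw [map_zero, Module.End.one_apply, sub_self]
  | succ r ih =>
    obtain ⟨h1, h2, w, hw, h3⟩ := ih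
    rw [pow_succ', Module.End.mul_apply]
    refine ⟨chS_mem_Sup k h1, ?_, w + chT k (m + 1) (((chS k (m + 1)) ^ r) z),
      Submodule.add_mem _ hw (chT_mem_Sup k h1), ?_⟩
    · rw [← chS_bd, h2, map_zero]
    · rw [map_add, h3, bd_chT, h2, map_zero, sub_zero]
      abel

theorem glue (U V : Set X) (hU : IsOpen U) (hV : IsOpen V) (m : ℕ)
    (h0 : VanOn k (U ∩ V) m) (h1 : VanOn k U (m + 1)) (h2 : VanOn k V (m + 1)) :
    VanOn k (U ∪ V) (m + 1) := by
  intro z hz hc
  change bd k m z = 0 at hc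
  obtain ⟨r, hr⟩ := small_all k U V hU hV (m + 1) z hz
  obtain ⟨-, hc', w0, hw0, hb0⟩ := pow_chS_hom k (U ∪ V) m z hz hc r
  have hs := hr r le_rfl
  rw [Sml_eq, Submodule.mem_sup] at hs
  obtain ⟨a, ha, b, hb, hab⟩ := hs
  have hsum : bd k m a + bd k m b = 0 := by
    rw [← map_add, hab, hc']
  have hy : bd k m a ∈ Sup k (U ∩ V) m := by
    have e1 : bd k m a ∈ Sup k U m := bd_mem_Sup k ha
    have e2 : bd k m a ∈ Sup k V m := by
      rw [eq_neg_of_add_eq_zero_left hsum]
      exact Submodule.neg_mem _ (bd_mem_Sup k hb)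
    rw [Sup, Finsupp.mem_supported] at e1 e2 ⊢
    intro σ hσ
    exact Set.subset_inter (e1 hσ) (e2 hσ)
  have hyc : IsCyc k m (bd k m a) := by
    cases m with
    | zero => trivial
    | succ m => exact bd_bd k m a
  obtain ⟨w, hw, hbw⟩ := h0 _ hy hyc
  obtain ⟨u, hu, hbu⟩ := h1 (a - w) (Submodule.sub_mem _ ha
    (Sup_mono k Set.inter_subset_left _ hw)) (by
      change bd k m (a - w) = 0
      rw [map_sub, hbw, sub_self])
  obtain ⟨v, hv, hbv⟩ := h2 (b + w) (Submodule.add_mem _ hb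
    (Sup_mono k Set.inter_subset_right _ hw)) (by
      change bd k m (b + w) = 0
      rw [map_add, hbw, add_comm, hsum])
  refine ⟨w0 + (u + v), Submodule.add_mem _ hw0 (Submodule.add_mem _
    (Sup_mono k Set.subset_union_left _ hu) (Sup_mono k Set.subset_union_right _ hv)), ?_⟩
  rw [map_add, map_add, hb0, hbu, hbv, ← hab]
  abel

end

end

end Pool.Agent.Work.MP_196328_ag
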