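import Pool.Agent.Work.MP_196328_ag.Htpy

set_option autoImplicit false

namespace Pool.Agent.Work.MP_196328_ag

noncomputable section

section
variable (k : Type*) [CommRing k]

/-- Punctured real space. -/
abbrev Pct (r : ℕ) := {x : Fin r → ℝ // x ≠ 0}

theorem cont_cons {X : Type*} [TopologicalSpace X] {r : ℕ} {f : X → ℝ} {g : X → Fin r → ℝ}
    (hf : Continuous f) (hg : Continuous g) :
    Continuous (fun x => (Fin.cons (f x) (g x) : Fin (r + 1) → ℝ)) := by
  apply continuous_pi
  intro i
  refine Fin.cases ?_ (fun i => ?_) i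
  · simp only [Fin.cons_zero]
    exact hf
  · simp only [Fin.cons_succ]
    exact (continuous_apply i).comp hg

theorem cont_tail {r : ℕ} : Continuous (fun x : Fin (r + 1) → ℝ => (Fin.tail x : Fin r → ℝ)) :=
  continuous_pi (fun i => continuous_apply i.succ)

/-- The complement of a half line. -/
def Hf (r : ℕ) (s : ℝ) : Set (Pct (r + 1)) := {x | 0 < s * x.1 0 ∨ Fin.tail x.1 ≠ 0}

theorem isOpen_Hf (r : ℕ) (s : ℝ) : IsOpen (Hf r s) := by
  apply IsOpen.union
  · exact isOpen_lt continuous_const
      (continuous_const.mul ((continuous_apply 0).comp continuous_subtype_val))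
  · exact isOpen_ne.preimage (cont_tail.comp continuous_subtype_val)

theorem ctr_Hf (r : ℕ) (s : ℝ) (hs : s * s = 1) : Ctr (Hf r s) := by
  have hs0 : s ≠ 0 := by
    rintro rfl
    simp at hs
  have key : ∀ (x : Hf r s) (t : unitInterval),
      0 < s * ((1 - (t : ℝ)) * s + t * x.1.1 0) ∨ (t : ℝ) • Fin.tail x.1.1 ≠ 0 := by
    intro x t
    have ht0 : 0 ≤ (t : ℝ) := t.2.1
    have ht1 : (t : ℝ) ≤ 1 := t.2.2
    rcases ht0.eq_or_lt with h | h
    · left
      rw [← h]
      have : s * ((1 - 0) * s + 0 * x.1.1 0) = 1 := by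
        rw [sub_zero, one_mul, zero_mul, add_zero, hs]
      rw [this]
      exact one_pos
    · rcases x.2 with hx | hx
      · left
        have : s * ((1 - (t : ℝ)) * s + t * x.1.1 0) = (1 - t) + t * (s * x.1.1 0) := by
          linear_combination (1 - (t : ℝ)) * hs
        rw [this]
        have := mul_pos h hx
        linarith
      · right
        exact smul_ne_zero h.ne' hx
  have hne : ∀ (x : Hf r s) (t : unitInterval),
      (Fin.cons ((1 - (t : ℝ)) * s + t * x.1.1 0) ((t : ℝ) • Fin.tail x.1.1) :
        Fin (r + 1) → ℝ) ≠ 0 := by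
    intro x t h0
    rcases key x t with h | h
    · have := congrFun h0 0
      rw [Fin.cons_zero] at this
      rw [this] at h
      simp at h
    · apply h
      have := congrArg Fin.tail h0
      rw [Fin.tail_cons] at this
      rw [this]
      rfl
  have hcont : Continuous (fun p : Hf r s × unitInterval =>
      (Fin.cons ((1 - (p.2 : ℝ)) * s + p.2 * p.1.1.1 0) ((p.2 : ℝ) • Fin.tail p.1.1.1) :
        Fin (r + 1) → ℝ)) := by
    have c1 : Continuous (fun p : Hf r s × unitInterval => p.1.1.1) :=
      continuous_subtype_val.comp (continuous_subtype_val.comp continuous_fst)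
    have c2 : Continuous (fun p : Hf r s × unitInterval => (p.2 : ℝ)) :=
      continuous_subtype_val.comp continuous_snd
    apply cont_cons
    · exact ((continuous_const.sub c2).mul continuous_const).add
        (c2.mul ((continuous_apply 0).comp c1))
    · exact c2.smul (cont_tail.comp c1)
  have hmem : ∀ (x : Hf r s) (t : unitInterval),
      (⟨_, hne x t⟩ : Pct (r + 1)) ∈ Hf r s := by
    intro x t
    rcases key x t with h | h
    · left
      change 0 < s * (Fin.cons ((1 - (t : ℝ)) * s + t * x.1.1 0)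
        ((t : ℝ) • Fin.tail x.1.1) : Fin (r + 1) → ℝ) 0
      rw [Fin.cons_zero]
      exact h
    · right
      change Fin.tail (Fin.cons ((1 - (t : ℝ)) * s + t * x.1.1 0)
        ((t : ℝ) • Fin.tail x.1.1) : Fin (r + 1) → ℝ) ≠ 0
      rw [Fin.tail_cons]
      exact h
  have hb : (Fin.cons s 0 : Fin (r + 1) → ℝ) ≠ 0 := by
    intro h
    have := congrFun h 0
    rw [Fin.cons_zero] at this
    exact hs0 this
  have hb2 : (⟨Fin.cons s 0, hb⟩ : Pct (r + 1)) ∈ Hf r s := by
    left
    change 0 < s * (Fin.cons s 0 : Fin (r + 1) → ℝ) 0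
    rw [Fin.cons_zero, hs]
    exact one_pos
  refine ⟨⟨⟨Fin.cons s 0, hb⟩, hb2⟩,
    ⟨fun p => ⟨⟨_, hne p.1 p.2⟩, hmem p.1 p.2⟩, (hcont.subtype_mk _).subtype_mk _⟩, ?_, ?_⟩
  · intro x
    apply Subtype.ext
    apply Subtype.ext
    simp
  · intro x
    apply Subtype.ext
    apply Subtype.ext
    simp

theorem inter_Hf (r : ℕ) :
    Hf r 1 ∩ Hf r (-1) = {x : Pct (r + 1) | Fin.tail x.1 ≠ 0} := by
  ext x
  constructor
  · rintro ⟨h1, h2⟩
    rcases h1 with h1 | h1
    · rcases h2 with h2 | h2
      · exfalso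
        linarith
      · exact h2
    · exact h1
  · intro h
    exact ⟨Or.inr h, Or.inr h⟩

theorem union_Hf (r : ℕ) : Hf r 1 ∪ Hf r (-1) = Set.univ := by
  rw [Set.eq_univ_iff_forall]
  intro x
  by_cases h : Fin.tail x.1 = 0
  · have h0 : x.1 0 ≠ 0 := by
      intro h0
      apply x.2
      rw [← Fin.cons_self_tail x.1, h, h0]
      funext i
      refine Fin.cases ?_ (fun i => ?_) i <;> simp
    rcases lt_or_gt_of_ne h0 with h1 | h1
    · right
      left
      linarith
    · left
      left
      linarith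
  · left
    right
    exact h

theorem vanS_mid (r m : ℕ) (h : VanS k (Pct r) m) :
    VanS k {x : Pct (r + 1) | Fin.tail x.1 ≠ 0} m := by
  have hne : ∀ (a : ℝ) (y : Fin r → ℝ), y ≠ 0 → (Fin.cons a y : Fin (r + 1) → ℝ) ≠ 0 := by
    intro a y hy h0
    apply hy
    have := congrArg Fin.tail h0
    rw [Fin.tail_cons] at this
    rw [this]
    rfl
  have hmem : ∀ (a : ℝ) (y : Fin r → ℝ) (hy : y ≠ 0),
      (⟨Fin.cons a y, hne a y hy⟩ : Pct (r + 1)) ∈ {x : Pct (r + 1) | Fin.tail x.1 ≠ 0} := by
    intro a y hy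
    change Fin.tail (Fin.cons a y : Fin (r + 1) → ℝ) ≠ 0
    rw [Fin.tail_cons]
    exact hy
  refine vanS_of_retract k h
    ⟨fun x => ⟨Fin.tail x.1.1, x.2⟩, ?_⟩
    ⟨fun y => ⟨⟨Fin.cons 0 y.1, hne 0 y.1 y.2⟩, hmem 0 y.1 y.2⟩, ?_⟩
    ⟨fun p => ⟨⟨Fin.cons ((p.2 : ℝ) * p.1.1.1 0) (Fin.tail p.1.1.1), hne _ _ p.1.2⟩,
      hmem _ _ p.1.2⟩, ?_⟩ ?_ ?_
  · apply Continuous.subtype_mk
    exact cont_tail.comp (continuous_subtype_val.comp continuous_subtype_val)
  · apply Continuous.subtype_mk
    apply Continuous.subtype_mk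
    exact cont_cons continuous_const continuous_subtype_val
  · apply Continuous.subtype_mk
    apply Continuous.subtype_mk
    have c1 : Continuous (fun p : {x : Pct (r + 1) | Fin.tail x.1 ≠ 0} × unitInterval =>
        p.1.1.1) := continuous_subtype_val.comp (continuous_subtype_val.comp continuous_fst)
    have c2 : Continuous (fun p : {x : Pct (r + 1) | Fin.tail x.1 ≠ 0} × unitInterval =>
        (p.2 : ℝ)) := continuous_subtype_val.comp continuous_snd
    exact cont_cons (c2.mul ((continuous_apply 0).comp c1)) (cont_tail.comp c1)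
  · intro x
    apply Subtype.ext
    apply Subtype.ext
    simp
  · intro x
    apply Subtype.ext
    apply Subtype.ext
    simp

theorem vanS_pct (r m : ℕ) (h : m ≠ r) : VanS k (Pct r) m := by
  induction r generalizing m with
  | zero =>
    obtain ⟨m, rfl⟩ := Nat.exists_eq_succ_of_ne_zero h
    have : IsEmpty (Pct 0) := ⟨fun x => x.2 (Subsingleton.elim _ _)⟩
    exact vanS_empty k m
  | succ r ih =>
    rcases m with _ | m
    · have : Nonempty (Pct (r + 1)) := ⟨⟨fun _ => 1, fun h => by
        have := congrFun h 0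
        simp at this⟩⟩
      exact vanS_zero k
    · have hm : m ≠ r := fun h' => h (by rw [h'])
      apply vanS_of_vanOn
      rw [← union_Hf r]
      apply glue k _ _ (isOpen_Hf r 1) (isOpen_Hf r (-1))
      · rw [inter_Hf]
        have := vanOn_of_embedding k (Subtype.val : {x : Pct (r + 1) | Fin.tail x.1 ≠ 0} → _)
          Topology.IsEmbedding.subtypeVal (vanS_mid k r m (ih m hm))
        rw [Subtype.range_coe] at this
        exact this
      · have := vanOn_of_embedding k (Subtype.val : Hf r 1 → _)
          Topology.IsEmbedding.subtypeVal (vanS_of_ctr k (ctr_Hf r 1 (by norm_num)) (m + 1))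
        rw [Subtype.range_coe] at this
        exact this
      · have := vanOn_of_embedding k (Subtype.val : Hf r (-1) → _)
          Topology.IsEmbedding.subtypeVal (vanS_of_ctr k (ctr_Hf r (-1) (by norm_num)) (m + 1))
        rw [Subtype.range_coe] at this
        exact this

theorem vanS_punctured (E : Type*) [NormedAddCommGroup E] [NormedSpace ℝ E]
    [FiniteDimensional ℝ E] (m : ℕ) (h : m ≠ Module.finrank ℝ E) :
    VanS k {x : E // x ≠ 0} m := by
  have e : E ≃L[ℝ] (Fin (Module.finrank ℝ E) → ℝ) :=
    ContinuousLinearEquiv.ofFinrankEq (by simp)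
  refine vanS_of_retract k (vanS_pct k _ m h)
    ⟨fun x => ⟨e x.1, fun h0 => x.2 (e.map_eq_zero_iff.1 h0)⟩, ?_⟩
    ⟨fun y => ⟨e.symm y.1, fun h0 => y.2 (e.symm.map_eq_zero_iff.1 h0)⟩, ?_⟩
    ⟨Prod.fst, continuous_fst⟩ ?_ (fun _ => rfl)
  · exact (e.continuous.comp continuous_subtype_val).subtype_mk _
  · exact (e.symm.continuous.comp continuous_subtype_val).subtype_mk _
  · intro x
    apply Subtype.ext
    simp

theorem vanS_ctr_prod {P Q : Type*} [TopologicalSpace P] [TopologicalSpace Q] (hP : Ctr P)
    {m : ℕ} (h : VanS k Q m) : VanS k (P × Q) m := by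
  obtain ⟨p0, H, h0, h1⟩ := hP
  refine vanS_of_retract k h ⟨Prod.snd, continuous_snd⟩ ⟨fun q => (p0, q), by fun_prop⟩
    ⟨fun x => (H (x.1.1, x.2), x.1.2), by fun_prop⟩ ?_ ?_
  · rintro ⟨p, q⟩
    simp [h0]
  · rintro ⟨p, q⟩
    simp [h1]

/-- Spaces stratified by contractible strata with trivial tubes of even codimension have no odd
homology. -/
theorem stratified {X : Type*} [TopologicalSpace X] {J : Type*} [Finite J] (ht : J → ℤ)
    (P : J → Type*) [∀ j, TopologicalSpace (P j)] (hP : ∀ j, Ctr (P j))
    (E : J → Type*) [∀ j, NormedAddCommGroup (E j)] [∀ j, NormedSpace ℝ (E j)]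
    [∀ j, FiniteDimensional ℝ (E j)] (hE : ∀ j, Even (Module.finrank ℝ (E j)))
    (θ : ∀ j, P j × E j → X) (hθ : ∀ j, Topology.IsOpenEmbedding (θ j))
    (hcov : ∀ x, ∃ j p, θ j (p, 0) = x)
    (hstr : ∀ i j p s q, θ j (p, s) = θ i (q, 0) → ht i < ht j ∨ (i = j ∧ s = 0))
    (m : ℕ) (hm : Odd m) : VanS k X (m + 1) := by
  classical
  have := Fintype.ofFinite J
  have key : ∀ s : Finset J, (∀ i ∈ s, ∀ i', ht i' < ht i → i' ∈ s) →
      VanOn k (⋃ i ∈ s, Set.range (θ i)) (m + 1) := by
    intro s
    induction s using Finset.induction_on_max_value ht with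
    | empty =>
      intro _
      simp only [Finset.notMem_empty, Set.iUnion_of_empty, Set.iUnion_empty]
      exact vanOn_empty k m
    | insert a s ha hmax ih =>
      intro hdown
      have hs : ∀ i ∈ s, ∀ i', ht i' < ht i → i' ∈ s := by
        intro i hi i' hlt
        rcases Finset.mem_insert.1 (hdown i (Finset.mem_insert_of_mem hi) i' hlt) with h | h
        · exfalso
          rw [h] at hlt
          exact absurd (hmax i hi) (not_le.2 hlt)
        · exact h
      have hun : (⋃ i ∈ insert a s, Set.range (θ i)) =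
          Set.range (θ a) ∪ ⋃ i ∈ s, Set.range (θ i) := by
        ext x
        simp only [Set.mem_iUnion, Set.mem_union, Finset.mem_insert, exists_prop]
        constructor
        · rintro ⟨i, rfl | h, h'⟩
          · exact Or.inl h'
          · exact Or.inr ⟨i, h, h'⟩
        · rintro (h | ⟨i, h, h'⟩)
          · exact ⟨a, Or.inl rfl, h⟩
          · exact ⟨i, Or.inr h, h'⟩
      have hopen : IsOpen (⋃ i ∈ s, Set.range (θ i)) :=
        isOpen_iUnion (fun i => isOpen_iUnion (fun _ => (hθ i).isOpen_range))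
      rw [hun]
      apply glue k _ _ (hθ a).isOpen_range hopen
      · let κ : P a × {x : E a // x ≠ 0} → X := fun y => θ a (y.1, y.2.1)
        have hκ : Topology.IsEmbedding κ :=
          (hθ a).isEmbedding.comp (Topology.IsEmbedding.id.prodMap
            Topology.IsEmbedding.subtypeVal)
        have hr : Set.range (θ a) ∩ (⋃ i ∈ s, Set.range (θ i)) = Set.range κ := by
          ext x
          constructor
          · rintro ⟨⟨⟨p, v⟩, rfl⟩, hx⟩
            simp only [Set.mem_iUnion] at hx
            obtain ⟨i, hi, ⟨⟨q, w⟩, hq⟩⟩ := hx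
            refine ⟨(p, ⟨v, ?_⟩), rfl⟩
            intro hv
            rw [hv] at hq
            rcases hstr a i q w p hq with h | h
            · exact absurd (hmax i hi) (not_le.2 h)
            · rw [h.1] at ha
              exact ha hi
          · rintro ⟨⟨p, v⟩, rfl⟩
            refine ⟨⟨_, rfl⟩, ?_⟩
            obtain ⟨i, q, hq⟩ := hcov (κ (p, v))
            rcases hstr i a p v.1 q hq.symm with h | h
            · have hi : i ∈ s := by
                rcases Finset.mem_insert.1 (hdown a (Finset.mem_insert_self a s) i h) with h' | h'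
                · rw [h'] at h
                  exact absurd h (lt_irrefl _)
                · exact h'
              simp only [Set.mem_iUnion]
              exact ⟨i, hi, ⟨_, hq⟩⟩
            · exact absurd h.2 v.2
        rw [hr]
        apply vanOn_of_embedding k κ hκ
        apply vanS_ctr_prod k (hP a)
        apply vanS_punctured
        intro h
        rw [h] at hm
        exact Nat.not_even_iff_odd.2 hm (hE a)
      · apply vanOn_of_embedding k (θ a) (hθ a).isEmbedding
        apply vanS_ctr_prod k (hP a)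
        apply vanS_of_ctr
        refine ⟨0, ⟨fun x => (x.2 : ℝ) • x.1, by fun_prop⟩, ?_, ?_⟩
        · intro x
          simp
        · intro x
          simp
      · exact ih hs
  apply vanS_of_vanOn
  have := key Finset.univ (fun _ _ _ _ => Finset.mem_univ _)
  convert this
  symm
  rw [Set.eq_univ_iff_forall]
  intro x
  obtain ⟨j, p, h⟩ := hcov x
  simp only [Set.mem_iUnion, Finset.mem_univ, exists_prop, true_and]
  exact ⟨j, _, h⟩

end

end

end Pool.Agent.Work.MP_196328_ag
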