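import Mathlib

set_option autoImplicit false

namespace Pool.Agent.Work.MP_196328_ag

noncomputable section

open Topology

/-- Open neighbourhoods of the zero section contain tubes. -/
theorem exists_tube {Z S : Type*} [NormedAddCommGroup Z] [NormedAddCommGroup S]
    [NormedSpace ℝ S] (Ω : Set (Z × S)) (hΩ : IsOpen Ω) (h0 : ∀ z, (z, (0 : S)) ∈ Ω) :
    ∃ τ : Z × S → Z × S, IsOpenEmbedding τ ∧ (∀ p, τ p ∈ Ω) ∧ (∀ z, τ (z, 0) = (z, 0)) ∧
      (∀ z s, (τ (z, s)).2 = 0 → s = 0) ∧ ∀ p, (τ p).1 = p.1 := by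
  obtain ⟨δ, hδ0, hδ⟩ := Metric.exists_continuous_real_forall_closedBall_subset
    (ι := Unit) (K := fun _ => {p : Z × S | p.2 = 0}) (U := fun _ => Ω)
    (fun _ => isClosed_eq continuous_snd continuous_const) (fun _ => hΩ)
    (fun _ => by
      rintro ⟨z, s⟩ hs
      change s = 0 at hs
      rw [hs]
      exact h0 z)
    (locallyFinite_of_finite _)
  have hδc : Continuous (fun z : Z => δ (z, 0)) := by fun_prop
  have hδn : ∀ z : Z, δ (z, 0) ≠ 0 := fun z => (hδ0 _).ne'
  -- the scaling homeomorphism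
  let σ : (Z × S) ≃ₜ (Z × S) :=
    { toFun := fun p => (p.1, δ (p.1, 0) • p.2)
      invFun := fun p => (p.1, (δ (p.1, 0))⁻¹ • p.2)
      left_inv := by
        rintro ⟨z, s⟩
        simp only
        rw [smul_smul, inv_mul_cancel₀ (hδn z), one_smul]
      right_inv := by
        rintro ⟨z, s⟩
        simp only
        rw [smul_smul, mul_inv_cancel₀ (hδn z), one_smul]
      continuous_toFun := continuous_fst.prodMk
        ((hδc.comp continuous_fst).smul continuous_snd)
      continuous_invFun := continuous_fst.prodMk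
        (((hδc.comp continuous_fst).inv₀ (fun p => hδn p.1)).smul continuous_snd) }
  let u : S → S := fun s => (Homeomorph.unitBall s : S)
  have hu : IsOpenEmbedding u :=
    (Metric.isOpen_ball.isOpenEmbedding_subtypeVal).comp Homeomorph.unitBall.isOpenEmbedding
  have hu0 : u 0 = 0 := Homeomorph.coe_unitBall_apply_zero
  have hun : ∀ s, ‖u s‖ < 1 := by
    intro s
    have := (Homeomorph.unitBall s).2
    rwa [mem_ball_zero_iff] at this
  refine ⟨σ ∘ Prod.map id u, σ.isOpenEmbedding.comp (IsOpenEmbedding.id.prodMap hu), ?_, ?_, ?_,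
    fun _ => rfl⟩
  · rintro ⟨z, s⟩
    change (z, δ (z, 0) • u s) ∈ Ω
    apply hδ () (z, 0) rfl
    rw [Metric.mem_closedBall, dist_eq_norm]
    have : ((z, δ (z, 0) • u s) : Z × S) - (z, 0) = (0, δ (z, 0) • u s) := by
      rw [Prod.mk_sub_mk, sub_self, sub_zero]
    rw [this, Prod.norm_mk, norm_zero, norm_smul, Real.norm_eq_abs, abs_of_pos (hδ0 _)]
    apply max_le (hδ0 _).le
    have h1 := hδ0 (z, 0)
    have h2 := hun s
    nlinarith [norm_nonneg (u s)]
  · intro z
    change (z, δ (z, 0) • u 0) = (z, 0)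
    rw [hu0, smul_zero]
  · intro z s h
    change δ (z, 0) • u s = 0 at h
    rcases smul_eq_zero.1 h with h | h
    · exact absurd h (hδn z)
    · exact hu.injective (h.trans hu0.symm)

end

end Pool.Agent.Work.MP_196328_ag
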