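import Pool.Agent.Work.MP_196328_ag.RN
import Pool.Agent.Work.MP_196328_ag.Exist
import Pool.Agent.Work.MP_196328_ag.Tube
import Pool.Agent.Work.MP_196328_ag.Sphere

set_option autoImplicit false

namespace Pool.Agent.Work.MP_196328_ag

noncomputable section

open Matrix Topology

section
variable {N : ℕ}

/-- Coordinates allowed on the stratum. -/
def alw (a b : Fin N → ℕ) : Kx a b → Prop
  | Sum.inl (i, y) => y.1 ≤ i
  | Sum.inr (i, y) => y.1 < i

instance (a b : Fin N → ℕ) : DecidablePred (alw a b) := fun _ => Classical.propDecidable _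

theorem strat_iff {a b : Fin N → ℕ} (ω : Kx a b → ℂ) :
    Strat ω ↔ ∀ x, ¬ alw a b x → ω x = 0 := by
  constructor
  · rintro ⟨h1, h2⟩ x hx
    rcases x with ⟨i, y⟩ | ⟨i, y⟩
    · exact h1 i y (not_le.1 hx)
    · exact h2 i y (not_lt.1 hx)
  · intro h
    refine ⟨fun i y hy => h (Sum.inl (i, y)) (not_le.2 hy),
      fun i y hy => h (Sum.inr (i, y)) (not_lt.2 hy)⟩

/-- Splitting of coordinates. -/
def comb (a b : Fin N → ℕ) :
    ({x // alw a b x} → ℂ) × ({x // ¬ alw a b x} → ℂ) ≃ₜ (Kx a b → ℂ) :=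
  (Homeomorph.piEquivPiSubtypeProd (alw a b) (fun _ => ℂ)).symm

theorem comb_neg {a b : Fin N → ℕ} (p : ({x // alw a b x} → ℂ) × ({x // ¬ alw a b x} → ℂ))
    (x : Kx a b) (hx : ¬ alw a b x) : comb a b p x = p.2 ⟨x, hx⟩ := by
  change (if h : alw a b x then p.1 ⟨x, h⟩ else p.2 ⟨x, h⟩) = _
  rw [dif_neg hx]

theorem comb_pos {a b : Fin N → ℕ} (p : ({x // alw a b x} → ℂ) × ({x // ¬ alw a b x} → ℂ))
    (x : Kx a b) (hx : alw a b x) : comb a b p x = p.1 ⟨x, hx⟩ := by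
  change (if h : alw a b x then p.1 ⟨x, h⟩ else p.2 ⟨x, h⟩) = _
  rw [dif_pos hx]

theorem strat_comb {a b : Fin N → ℕ}
    (p : ({x // alw a b x} → ℂ) × ({x // ¬ alw a b x} → ℂ)) :
    Strat (comb a b p) ↔ p.2 = 0 := by
  rw [strat_iff]
  constructor
  · intro h
    funext x
    rw [← comb_neg p x.1 x.2]
    exact h _ x.2
  · intro h x hx
    rw [comb_neg p x hx, h]
    rfl

/-- Index set of the strata. -/
abbrev JJ (N n : ℕ) := {j : (Fin N → ℕ) × (Fin N → ℕ) // ∑ k, j.1 k + ∑ k, j.2 k = n}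

instance (N n : ℕ) : Finite (JJ N n) := by
  have h1 : ∀ (j : JJ N n) (i : Fin N), j.1.1 i < n + 1 := by
    intro j i
    have h := j.2
    have := Finset.single_le_sum (f := j.1.1) (fun _ _ => Nat.zero_le _) (Finset.mem_univ i)
    omega
  have h2 : ∀ (j : JJ N n) (i : Fin N), j.1.2 i < n + 1 := by
    intro j i
    have h := j.2
    have := Finset.single_le_sum (f := j.1.2) (fun _ _ => Nat.zero_le _) (Finset.mem_univ i)
    omega
  apply Finite.of_injective (fun j : JJ N n =>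
    (((fun i => ⟨j.1.1 i, h1 j i⟩), (fun i => ⟨j.1.2 i, h2 j i⟩)) :
      (Fin N → Fin (n + 1)) × (Fin N → Fin (n + 1))))
  intro j j' hj
  rw [Prod.mk.injEq] at hj
  apply Subtype.ext
  apply Prod.ext
  · funext i
    exact congrArg Fin.val (congrFun hj.1 i)
  · funext i
    exact congrArg Fin.val (congrFun hj.2 i)

variable {n : ℕ}

theorem exists_equiv (j : JJ N n) : Nonempty (Fin n ≃ Ix j.1.1 ⊕ Ix j.1.2) := by
  refine ⟨Fintype.equivOfCardEq ?_⟩
  rw [Fintype.card_fin, Fintype.card_sum, card_Ix, card_Ix, j.2]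

/-- A labelling of the basis of the stratum. -/
def eJ (j : JJ N n) : Fin n ≃ Ix j.1.1 ⊕ Ix j.1.2 := (exists_equiv j).some

abbrev ZJ (j : JJ N n) := {x // alw j.1.1 j.1.2 x} → ℂ
abbrev SJ (j : JJ N n) := {x // ¬ alw j.1.1 j.1.2 x} → ℂ

theorem tube_exists (j : JJ N n) :
    ∃ τ : ZJ j × SJ j → ZJ j × SJ j, IsOpenEmbedding τ ∧
      (∀ p, Dom n (comb j.1.1 j.1.2 (τ p))) ∧ (∀ z, τ (z, 0) = (z, 0)) ∧
      (∀ z s, (τ (z, s)).2 = 0 → s = 0) := by
  obtain ⟨τ, h1, h2, h3, h4, -⟩ := exists_tube (Z := ZJ j) (S := SJ j)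
    {p | Dom n (comb j.1.1 j.1.2 p)} ((isOpen_dom n).preimage (comb j.1.1 j.1.2).continuous)
    (by
      intro z
      have hs : Strat (comb j.1.1 j.1.2 (z, 0)) := (strat_comb _).2 rfl
      exact hs.dom (by have := j.2; omega))
  exact ⟨τ, h1, h2, h3, h4⟩

def tauJ (j : JJ N n) : ZJ j × SJ j → ZJ j × SJ j := (tube_exists j).choose

theorem tauJ_spec (j : JJ N n) : IsOpenEmbedding (tauJ j) ∧
      (∀ p, Dom n (comb j.1.1 j.1.2 (tauJ j p))) ∧ (∀ z, tauJ j (z, 0) = (z, 0)) ∧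
      (∀ z s, (tauJ j (z, s)).2 = 0 → s = 0) := (tube_exists j).choose_spec

/-- The tube around a stratum. -/
def theJ (j : JJ N n) (p : (Frame n × Frame n × ZJ j) × SJ j) : RN N n :=
  kap (eJ j) (p.1.1, p.1.2.1, ⟨comb j.1.1 j.1.2 (tauJ j (p.1.2.2, p.2)), (tauJ_spec j).2.1 _⟩)

theorem isOpenEmbedding_theJ (j : JJ N n) : IsOpenEmbedding (theJ j) := by
  let f : ZJ j × SJ j → {ω : Kx j.1.1 j.1.2 → ℂ // Dom n ω} :=
    fun p => ⟨comb j.1.1 j.1.2 (tauJ j p), (tauJ_spec j).2.1 p⟩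
  have hf : IsOpenEmbedding f := by
    apply IsOpenEmbedding.of_comp f (isOpen_dom n).isOpenEmbedding_subtypeVal
    exact (comb j.1.1 j.1.2).isOpenEmbedding.comp (tauJ_spec j).1
  let A : ((Frame n × Frame n × ZJ j) × SJ j) ≃ₜ Frame n × Frame n × (ZJ j × SJ j) :=
    (Homeomorph.prodAssoc _ _ _).trans
      ((Homeomorph.refl _).prodCongr (Homeomorph.prodAssoc _ _ _))
  have h1 : theJ j = kap (eJ j) ∘ (Prod.map id (Prod.map id f)) ∘ A := rfl
  rw [h1]
  exact (isOpenEmbedding_kap (eJ j)).comp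
    ((IsOpenEmbedding.id.prodMap (IsOpenEmbedding.id.prodMap hf)).comp A.isOpenEmbedding)

theorem isoP_of_rel {x y : YN N n} (h : relN x y) : IsoP x.2.2.1 y.2.2.1 := by
  obtain ⟨g, h, -, -, h3, h4, h5⟩ := h
  have hgi : ((g⁻¹ : GL (Fin n) ℂ) : Matrix (Fin n) (Fin n) ℂ) * (g : Matrix (Fin n) (Fin n) ℂ) =
      1 := by
    rw [← Units.val_mul, inv_mul_cancel, Units.val_one]
  have hgi' : (g : Matrix (Fin n) (Fin n) ℂ) * ((g⁻¹ : GL (Fin n) ℂ) : Matrix (Fin n) (Fin n) ℂ) =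
      1 := by
    rw [← Units.val_mul, mul_inv_cancel, Units.val_one]
  have hhi : ((h⁻¹ : GL (Fin n) ℂ) : Matrix (Fin n) (Fin n) ℂ) * (h : Matrix (Fin n) (Fin n) ℂ) =
      1 := by
    rw [← Units.val_mul, inv_mul_cancel, Units.val_one]
  have hhi' : (h : Matrix (Fin n) (Fin n) ℂ) * ((h⁻¹ : GL (Fin n) ℂ) : Matrix (Fin n) (Fin n) ℂ) =
      1 := by
    rw [← Units.val_mul, mul_inv_cancel, Units.val_one]
  refine ⟨h, (h⁻¹ : GL (Fin n) ℂ), g, (g⁻¹ : GL (Fin n) ℂ), hhi', hhi, hgi', hgi, ?_, ?_, h5.symm⟩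
  · rw [h3, Matrix.mul_assoc, hgi, Matrix.mul_one]
  · rw [h4, Matrix.mul_assoc, hgi, Matrix.mul_one]

theorem cover_theJ (x : RN N n) : ∃ (j : JJ N n) (p : Frame n × Frame n × ZJ j),
    theJ j (p, 0) = x := by
  induction x using Quotient.inductionOn with
  | _ y =>
    obtain ⟨F, H, T⟩ := y
    obtain ⟨a, b, ω, hsum, hst, hiso⟩ := exists_std T.1 T.2
    rw [Fintype.card_fin] at hsum
    let j : JJ N n := ⟨(a, b), hsum⟩
    have hiso2 : IsoP T.1 (chart (eJ j) ω) := hiso.trans (isoP_reT (eJ j) _)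
    obtain ⟨h, h', g, g', h1, h2, h3, h4, h5, h6, h7⟩ := hiso2
    have hdeth : h.det ≠ 0 := by
      intro h0
      have := congrArg Matrix.det h1
      rw [Matrix.det_mul, h0, zero_mul, Matrix.det_one] at this
      exact zero_ne_one this
    have hdetg : g.det ≠ 0 := by
      intro h0
      have := congrArg Matrix.det h3
      rw [Matrix.det_mul, h0, zero_mul, Matrix.det_one] at this
      exact zero_ne_one this
    let p := (comb a b).symm ω
    have hp : comb a b p = ω := (comb a b).apply_symm_apply ω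
    have hp2 : p.2 = 0 := by
      rw [← strat_comb, hp]
      exact hst
    have hp3 : comb a b (tauJ j (p.1, 0)) = ω := by
      rw [(tauJ_spec j).2.2.1, ← hp2]
      exact hp
    refine ⟨j, (mulF g hdetg F, mulF h hdeth H, p.1), ?_⟩
    apply Quotient.sound
    apply relN_equiv.symm
    let G := Matrix.GeneralLinearGroup.mkOfDetNeZero g hdetg
    let K := Matrix.GeneralLinearGroup.mkOfDetNeZero h hdeth
    have hGi : ((G⁻¹ : GL (Fin n) ℂ) : Matrix (Fin n) (Fin n) ℂ) = g' := by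
      have e1 : (g : Matrix (Fin n) (Fin n) ℂ) *
          ((G⁻¹ : GL (Fin n) ℂ) : Matrix (Fin n) (Fin n) ℂ) = 1 := by
        have : (G : Matrix (Fin n) (Fin n) ℂ) = g := rfl
        rw [← this, ← Units.val_mul, mul_inv_cancel, Units.val_one]
      calc ((G⁻¹ : GL (Fin n) ℂ) : Matrix (Fin n) (Fin n) ℂ) =
          g' * g * ((G⁻¹ : GL (Fin n) ℂ) : Matrix (Fin n) (Fin n) ℂ) := by
            rw [h4, Matrix.one_mul]
        _ = g' := by rw [Matrix.mul_assoc, e1, Matrix.mul_one]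
    refine ⟨G, K, rfl, rfl, ?_, ?_, ?_⟩
    · change (chart (eJ j) (comb a b (tauJ j (p.1, 0)))).1 = h * T.1.1 * _
      rw [hp3, hGi, h5, Matrix.mul_assoc, h3, Matrix.mul_one]
    · change (chart (eJ j) (comb a b (tauJ j (p.1, 0)))).2.1 = h * T.1.2.1 * _
      rw [hp3, hGi, h6, Matrix.mul_assoc, h3, Matrix.mul_one]
    · change (chart (eJ j) (comb a b (tauJ j (p.1, 0)))).2.2 = h * T.1.2.2
      rw [hp3, h7]

theorem strata_theJ (i j : JJ N n) (p : Frame n × Frame n × ZJ j) (s : SJ j)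
    (q : Frame n × Frame n × ZJ i) (heq : theJ j (p, s) = theJ i (q, 0)) :
    hgt n i.1.1 i.1.2 < hgt n j.1.1 j.1.2 ∨ (i = j ∧ s = 0) := by
  have hrel : relN _ _ := relN_equiv.symm (Quotient.exact heq)
  have h1 := isoP_of_rel hrel
  have h2 : IsoP (std (comb i.1.1 i.1.2 (tauJ i (q.2.2, 0))))
      (std (comb j.1.1 j.1.2 (tauJ j (p.2.2, s)))) :=
    (isoP_reT (eJ i) _).trans (h1.trans (isoP_reT (eJ j) _).symm)
  have hst : Strat (comb i.1.1 i.1.2 (tauJ i (q.2.2, 0))) := by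
    rw [(tauJ_spec i).2.2.1]
    exact (strat_comb _).2 rfl
  rcases key_lemma i.2 j.2 hst h2 with h | ⟨h3, h4, h5⟩
  · exact Or.inl h
  · right
    refine ⟨Subtype.ext (Prod.ext h3 h4), ?_⟩
    exact (tauJ_spec j).2.2.2 _ _ ((strat_comb _).1 h5)

theorem ctr_vec (K : Type*) : Ctr (K → ℂ) := by
  refine ⟨0, ⟨fun p => (((p.2 : ℝ) : ℂ)) • p.1, by fun_prop⟩, ?_, ?_⟩
  · intro x
    simp
  · intro x
    simp

/-- The odd homology of the space of framed generated pencils vanishes. -/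
theorem van_RN (k : Type*) [CommRing k] (m : ℕ) (hm : Odd m) : VanS k (RN N n) (m + 1) := by
  apply stratified k (J := JJ N n) (fun j => hgt n j.1.1 j.1.2)
    (fun j => Frame n × Frame n × ZJ j)
    (fun j => (ctr_frame n).prod ((ctr_frame n).prod (ctr_vec _)))
    (fun j => SJ j) _ theJ isOpenEmbedding_theJ cover_theJ strata_theJ m hm
  intro j
  rw [Module.finrank_pi_fintype]
  simp only [Complex.finrank_real_complex, Finset.sum_const, smul_eq_mul]
  exact even_two.mul_left _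

end

end

end Pool.Agent.Work.MP_196328_ag
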